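import Pool.Agent.Y749.AH.Ix

/-! # Clusters of zeros and the normalised spacings -/

set_option autoImplicit false

open MeasureTheory Set Filter Topology

namespace Pool.Agent.Y749.AH

open Pool.Agent.Y749.Rig
open SG (ord NZ zmult ZS)

/-- the unfolded ordinates `γ log γ / 2π` -/
noncomputable def gt (n : ℕ) : ℝ := ord n * Real.log (ord n) / (2 * Real.pi)

/-- the spacings -/
noncomputable def dj (n : ℕ) : ℝ := gt (n + 1) - gt n

lemma xlog_low {x y : ℝ} (hx : 0 < x) (hxy : x ≤ y) :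
    (y - x) * (Real.log x + 1) ≤ y * Real.log y - x * Real.log x := by
  have hy : 0 < y := hx.trans_le hxy
  have h1 := Real.log_le_sub_one_of_pos (div_pos hx hy)
  rw [Real.log_div hx.ne' hy.ne'] at h1
  have h2 : y * (Real.log x - Real.log y) ≤ y * (x / y - 1) := mul_le_mul_of_nonneg_left h1 hy.le
  have h3 : y * (x / y - 1) = x - y := by field_simp
  rw [h3] at h2
  linarith

lemma xlog_up {x y : ℝ} (hx : 0 < x) (hxy : x ≤ y) :
    y * Real.log y - x * Real.log x ≤ (y - x) * (Real.log y + 1) := by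
  have hy : 0 < y := hx.trans_le hxy
  have h1 := Real.log_le_sub_one_of_pos (div_pos hy hx)
  rw [Real.log_div hy.ne' hx.ne'] at h1
  have h2 : x * (Real.log y - Real.log x) ≤ x * (y / x - 1) := mul_le_mul_of_nonneg_left h1 hx.le
  have h3 : x * (y / x - 1) = y - x := by field_simp
  rw [h3] at h2
  linarith

lemma gt_low {i j : ℕ} (hj : 1 ≤ j) (hij : j ≤ i) :
    (ord i - ord j) * (Real.log (ord j) + 1) / (2 * Real.pi) ≤ gt i - gt j := by
  unfold gt
  rw [← sub_div]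
  have hpi := Real.pi_pos
  apply div_le_div_of_nonneg_right _ (by positivity)
  exact xlog_low (SG.ord_pos hj) (SG.ord_mono hj hij)

lemma gt_up {i j : ℕ} (hj : 1 ≤ j) (hij : j ≤ i) :
    gt i - gt j ≤ (ord i - ord j) * (Real.log (ord i) + 1) / (2 * Real.pi) := by
  unfold gt
  rw [← sub_div]
  have hpi := Real.pi_pos
  apply div_le_div_of_nonneg_right _ (by positivity)
  exact xlog_up (SG.ord_pos hj) (SG.ord_mono hj hij)

lemma gt_sum (n m : ℕ) : ∑ i ∈ Finset.range m, dj (n + i) = gt (n + m) - gt n := by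
  unfold dj
  exact Finset.sum_range_sub (fun i => gt (n + i)) m

lemma del_le {n : ℕ} (hn : 1 ≤ n) : LG.CU.del n ≤ dj n := by
  refine le_trans ?_ (gt_low hn (Nat.le_succ n))
  unfold LG.CU.del
  have h0 := SG.ord_pos hn
  have h1 := SG.ord_mono hn (Nat.le_succ n)
  have hpi := Real.pi_pos
  have hpi3 := Real.pi_gt_three
  have h2 : Real.log (ord n / (2 * Real.pi)) ≤ Real.log (ord n) + 1 := by
    rw [Real.log_div h0.ne' (by positivity)]
    have : 0 ≤ Real.log (2 * Real.pi) := Real.log_nonneg (by linarith)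
    linarith
  have h3 : 0 ≤ (ord (n + 1) - ord n) / (2 * Real.pi) := div_nonneg (by
    show 0 ≤ ord (n + 1) - ord n
    have : ord n ≤ ord (n + 1) := h1
    linarith) (by positivity)
  calc (ord (n + 1) - ord n) / (2 * Real.pi) * Real.log (ord n / (2 * Real.pi)) ≤
      (ord (n + 1) - ord n) / (2 * Real.pi) * (Real.log (ord n) + 1) :=
        mul_le_mul_of_nonneg_left h2 h3
    _ = _ := by
      show _ = (ord (n + 1) - ord n) * (Real.log (ord n) + 1) / (2 * Real.pi)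
      ring

/-- clusters are rare -/
theorem cluster (hRH : RiemannHypothesis) (r : ℝ) : ∃ c : ℝ, 0 < c ∧ ∃ m0 : ℕ, 1 ≤ m0 ∧
    ∀ N : ℕ, 1 ≤ N → ∀ m : ℕ, m0 ≤ m →
    ({n : ℕ | 1 ≤ n ∧ n ≤ N ∧ gt (n + m) - gt n ≤ r}.ncard : ℝ) ≤ N * Real.exp (-m) := by
  obtain ⟨c, hc, m0, hm0, h⟩ := LG.CU.cluster_uniform (fun s h1 h2 h0 => rhs_of hRH h1 h2 h0)
  obtain ⟨m1, hm1⟩ := exists_nat_gt (max (r / c) (Real.exp (1 / c)))
  refine ⟨c, hc, max m0 m1, hm0.trans (le_max_left _ _), fun N hN m hm => ?_⟩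
  have h1 := h N hN m ((le_max_left _ _).trans hm)
  have hm1' : (m1 : ℝ) ≤ m := by exact_mod_cast (le_max_right _ _).trans hm
  have hr : r ≤ c * m := by
    have : r / c ≤ m := ((le_max_left _ _).trans hm1.le).trans hm1'
    rw [div_le_iff₀ hc] at this
    linarith
  have he : Real.exp (1 / c) ≤ m := ((le_max_right _ _).trans hm1.le).trans hm1'
  have hlog : 1 / c ≤ Real.log m := by
    rw [← Real.log_exp (1 / c)]
    exact Real.log_le_log (Real.exp_pos _) he
  have hm0' : (0 : ℝ) ≤ m := Nat.cast_nonneg m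
  refine le_trans ?_ (h1.trans ?_)
  · have hfin : {n : ℕ | 1 ≤ n ∧ n ≤ N ∧ ∑ i ∈ Finset.range m, LG.CU.del (n + i) ≤ c * m}.Finite :=
      (Set.finite_Iic N).subset fun n hn => hn.2.1
    have hsub : {n : ℕ | 1 ≤ n ∧ n ≤ N ∧ gt (n + m) - gt n ≤ r} ⊆
        {n : ℕ | 1 ≤ n ∧ n ≤ N ∧ ∑ i ∈ Finset.range m, LG.CU.del (n + i) ≤ c * m} := by
      rintro n ⟨g1, g2, g3⟩
      refine ⟨g1, g2, ?_⟩
      rw [← gt_sum] at g3
      refine le_trans (Finset.sum_le_sum fun i _ => del_le (by omega)) (g3.trans hr)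
    exact_mod_cast Set.ncard_le_ncard hsub hfin
  · apply mul_le_mul_of_nonneg_left _ (Nat.cast_nonneg N)
    apply Real.exp_le_exp.2
    rw [div_le_iff₀ hc] at hlog
    nlinarith

lemma geo_tail (M N : ℕ) : ∑ m ∈ Finset.Ico M N, Real.exp (-(m : ℝ)) ≤ 2 * Real.exp (-(M : ℝ)) := by
  have key : ∀ k : ℕ, ∑ m ∈ Finset.Ico M (M + k), Real.exp (-(m : ℝ)) ≤
      2 * Real.exp (-(M : ℝ)) - 2 * Real.exp (-((M + k : ℕ) : ℝ)) := by
    intro k
    induction k with
    | zero => simp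
    | succ k ih =>
      rw [← add_assoc, Finset.sum_Ico_succ_top (by omega)]
      have e : Real.exp (-((M + k + 1 : ℕ) : ℝ)) = Real.exp (-((M + k : ℕ) : ℝ)) * Real.exp (-1) := by
        rw [← Real.exp_add]
        congr 1
        push_cast
        ring
      have h1 : Real.exp (-1) ≤ 1 / 2 := by
        rw [Real.exp_neg, inv_eq_one_div]
        apply one_div_le_one_div_of_le (by norm_num)
        have := Real.add_one_le_exp (1 : ℝ)
        linarith
      have h2 := Real.exp_pos (-((M + k : ℕ) : ℝ))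
      rw [e]
      nlinarith
  rcases le_or_gt N M with h | h
  · rw [Finset.Ico_eq_empty_of_le h, Finset.sum_empty]
    positivity
  · obtain ⟨k, rfl⟩ := Nat.exists_eq_add_of_lt h
    have := key (k + 1)
    rw [← add_assoc] at this
    refine this.trans ?_
    have := Real.exp_pos (-((M + k + 1 : ℕ) : ℝ))
    linarith

/-- pairs with many zeros in between are rare -/
theorem cluster_pairs (hRH : RiemannHypothesis) (r : ℝ) {η : ℝ} (hη : 0 < η) :
    ∃ M : ℕ, 1 ≤ M ∧ ∀ N : ℕ, ((((Finset.Ioc 0 N) ×ˢ (Finset.Ioc 0 N)).filter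
      (fun p : ℕ × ℕ => p.2 + M ≤ p.1 ∧ gt p.1 - gt p.2 ≤ r)).card : ℝ) ≤ η * N := by
  classical
  obtain ⟨c, hc, m0, hm0, h⟩ := cluster hRH r
  obtain ⟨M1, hM1⟩ := exists_nat_gt (2 / η)
  refine ⟨max m0 M1, hm0.trans (le_max_left _ _), fun N => ?_⟩
  obtain ⟨M, hM⟩ : ∃ M : ℕ, M = max m0 M1 := ⟨_, rfl⟩
  rw [← hM]
  have hMm : m0 ≤ M := by rw [hM]; exact le_max_left _ _
  have hMM : M1 ≤ M := by rw [hM]; exact le_max_right _ _
  rcases Nat.eq_zero_or_pos N with h0 | hN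
  · subst h0
    simp
  rw [Finset.card_eq_sum_card_fiberwise (f := fun p : ℕ × ℕ => p.1 - p.2) (t := Finset.Ico M N) (by
    intro p hp
    rw [Finset.mem_coe, Finset.mem_filter, Finset.mem_product, Finset.mem_Ioc, Finset.mem_Ioc] at hp
    rw [Finset.mem_coe, Finset.mem_Ico]
    show M ≤ p.1 - p.2 ∧ p.1 - p.2 < N
    omega)]
  push_cast
  have h1 : ∀ m ∈ Finset.Ico M N,
      (((((Finset.Ioc 0 N) ×ˢ (Finset.Ioc 0 N)).filter
      (fun p : ℕ × ℕ => p.2 + M ≤ p.1 ∧ gt p.1 - gt p.2 ≤ r)).filter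
        (fun p => p.1 - p.2 = m)).card : ℝ) ≤ N * Real.exp (-(m : ℝ)) := by
    intro m hm
    rw [Finset.mem_Ico] at hm
    refine le_trans ?_ (h N hN m (hMm.trans hm.1))
    have hfin : {n : ℕ | 1 ≤ n ∧ n ≤ N ∧ gt (n + m) - gt n ≤ r}.Finite :=
      (Set.finite_Iic N).subset fun n hn => hn.2.1
    rw [Set.ncard_eq_toFinset_card _ hfin]
    have := Finset.card_le_card_of_injOn (s := (((Finset.Ioc 0 N) ×ˢ (Finset.Ioc 0 N)).filter
      (fun p : ℕ × ℕ => p.2 + M ≤ p.1 ∧ gt p.1 - gt p.2 ≤ r)).filter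
        (fun p => p.1 - p.2 = m)) (t := hfin.toFinset) (fun p => p.2) (by
        intro p hp
        rw [Finset.mem_coe, Finset.mem_filter, Finset.mem_filter, Finset.mem_product,
          Finset.mem_Ioc, Finset.mem_Ioc] at hp
        rw [Finset.mem_coe, Set.Finite.mem_toFinset]
        obtain ⟨⟨⟨⟨a1, a2⟩, a3, a4⟩, a5, a6⟩, a7⟩ := hp
        refine ⟨a3, a4, ?_⟩
        have e : p.2 + m = p.1 := by omega
        rw [e]
        exact a6) (by
        intro p hp q hq hpq
        rw [Finset.mem_coe, Finset.mem_filter, Finset.mem_filter] at hp hq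
        obtain ⟨⟨-, a5, -⟩, a7⟩ := hp
        obtain ⟨⟨-, b5, -⟩, b7⟩ := hq
        have hpq' : p.2 = q.2 := hpq
        have hpq2 : p.1 = q.1 := by omega
        exact Prod.ext hpq2 hpq')
    exact_mod_cast this
  refine (Finset.sum_le_sum h1).trans ?_
  rw [← Finset.mul_sum]
  have h2 := geo_tail M N
  have h3 : 2 * Real.exp (-(M : ℝ)) ≤ η := by
    rw [Real.exp_neg]
    have h4 : 2 / η ≤ Real.exp M := by
      have h5 : (M1 : ℝ) ≤ M := by exact_mod_cast hMM
      have := Real.add_one_le_exp (M : ℝ)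
      linarith
    rw [div_le_iff₀ hη] at h4
    have h5 := Real.exp_pos (M : ℝ)
    rw [← div_eq_mul_inv, div_le_iff₀ h5]
    linarith
  have hN0 : (0 : ℝ) ≤ N := Nat.cast_nonneg N
  nlinarith

end Pool.Agent.Y749.AH
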