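import Pool.Agent.Y749.AH.Cl

/-! # Comparison of the two normalisations, counting bad pairs -/

set_option autoImplicit false

open MeasureTheory Set Filter Topology

namespace Pool.Agent.Y749.AH

open Pool.Agent.Y749.Rig
open SG (ord NZ zmult ZS)

/-- the indices of the zeros up to `T` -/
noncomputable def II (T : ℝ) : Finset ℕ := Finset.Ioc 0 (NZ T)

lemma mem_II {T : ℝ} {n : ℕ} : n ∈ II T ↔ 1 ≤ n ∧ ord n ≤ T := by
  unfold II
  rw [Finset.mem_Ioc]
  constructor
  · rintro ⟨h1, h2⟩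
    exact ⟨h1, (SG.ord_le_iff h1 T).2 h2⟩
  · rintro ⟨h1, h2⟩
    exact ⟨h1, (SG.ord_le_iff h1 T).1 h2⟩

lemma card_II (T : ℝ) : ((II T).card : ℝ) = NZ T := by
  unfold II
  rw [Nat.card_Ioc, Nat.sub_zero]

lemma xx_nonneg {T : ℝ} (hT : 1 ≤ T) {i j : ℕ} (hj : 1 ≤ j) (hij : j ≤ i) : 0 ≤ xx T i j := by
  unfold xx
  have h1 := SG.ord_mono hj hij
  have h2 := Real.log_nonneg hT
  have hpi := Real.pi_pos
  have : 0 ≤ ord i - ord j := by linarith
  positivity

lemma xx_neg (T : ℝ) (i j : ℕ) : xx T j i = -xx T i j := by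
  unfold xx
  ring

lemma cmp_up {T : ℝ} (hT : 3 ≤ T) {i j : ℕ} (hj : 1 ≤ j) (hij : j ≤ i) (hi : i ∈ II T) :
    gt i - gt j ≤ xx T i j * (1 + 1 / Real.log T) := by
  have hL := one_lt_log hT
  have h0 := SG.ord_pos (hj.trans hij)
  have hmono := SG.ord_mono hj hij
  have hiT := (mem_II.1 hi).2
  refine (gt_up hj hij).trans ?_
  have hpi := Real.pi_pos
  have h1 : Real.log (ord i) ≤ Real.log T := Real.log_le_log h0 hiT
  have h2 : xx T i j * (1 + 1 / Real.log T) = (ord i - ord j) * (Real.log T + 1) / (2 * Real.pi) := by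
    unfold xx
    field_simp
  rw [h2]
  apply div_le_div_of_nonneg_right _ (by positivity)
  exact mul_le_mul_of_nonneg_left (by linarith) (by linarith)

lemma cmp_low {T κ : ℝ} (hT : 3 ≤ T) (hκ : 0 < κ) {i j : ℕ} (hj : 1 ≤ j)
    (hij : j ≤ i) (hjT : κ * T ≤ ord j) :
    xx T i j * (1 + Real.log κ / Real.log T) ≤ gt i - gt j := by
  have hL := one_lt_log hT
  have h0 := SG.ord_pos hj
  have hmono := SG.ord_mono hj hij
  refine le_trans ?_ (gt_low hj hij)
  have hpi := Real.pi_pos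
  have h1 : Real.log (κ * T) ≤ Real.log (ord j) := Real.log_le_log (by positivity) hjT
  rw [Real.log_mul hκ.ne' (by linarith)] at h1
  have h2 : xx T i j * (1 + Real.log κ / Real.log T) =
      (ord i - ord j) * (Real.log T + Real.log κ) / (2 * Real.pi) := by
    unfold xx
    field_simp
  rw [h2]
  apply div_le_div_of_nonneg_right _ (by positivity)
  exact mul_le_mul_of_nonneg_left (by linarith) (by linarith)

/-- the two normalisations agree -/
lemma cmp_close {κ r ε : ℝ} (hκ : 0 < κ) (hr : 0 ≤ r) (hε : 0 < ε) :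
    ∀ᶠ T in atTop, ∀ i j : ℕ, 1 ≤ j → j ≤ i → i ∈ II T → κ * T ≤ ord j → xx T i j ≤ r →
      |xx T i j - (gt i - gt j)| ≤ ε := by
  filter_upwards [eventually_ge_atTop 3,
    Real.tendsto_log_atTop.eventually_ge_atTop (r * (1 + |Real.log κ|) / ε)] with T hT hL i j hj
      hij hi hjT hx
  have hL1 := one_lt_log hT
  have h1 := cmp_up hT hj hij hi
  have h2 := cmp_low hT hκ hj hij hjT
  have h3 := xx_nonneg (by linarith : 1 ≤ T) hj hij
  rw [div_le_iff₀ hε] at hL
  have h4 : xx T i j * (1 + |Real.log κ|) / Real.log T ≤ ε := by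
    rw [div_le_iff₀ (by linarith)]
    have : xx T i j * (1 + |Real.log κ|) ≤ r * (1 + |Real.log κ|) := by gcongr
    linarith
  have e1 : xx T i j * (1 + 1 / Real.log T) = xx T i j + xx T i j / Real.log T := by ring
  have e2 : xx T i j * (1 + Real.log κ / Real.log T) =
      xx T i j + xx T i j * Real.log κ / Real.log T := by ring
  have e3 : xx T i j * (1 + |Real.log κ|) / Real.log T =
      xx T i j / Real.log T + xx T i j * |Real.log κ| / Real.log T := by ring
  rw [e1] at h1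
  rw [e2] at h2
  rw [e3] at h4
  have p1 : 0 ≤ xx T i j / Real.log T := by positivity
  have p2 : 0 ≤ xx T i j * |Real.log κ| / Real.log T := by positivity
  have p3 : -(xx T i j * |Real.log κ| / Real.log T) ≤ xx T i j * Real.log κ / Real.log T := by
    rw [← neg_div, ← mul_neg]
    apply div_le_div_of_nonneg_right _ (by linarith)
    exact mul_le_mul_of_nonneg_left (neg_abs_le _) h3
  rw [abs_le]
  constructor <;> linarith

/-- counting the bad pairs -/
theorem pairs_bad (hRH : RiemannHypothesis) {r η : ℝ} (hr : 0 < r) (hη : 0 < η) :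
    ∃ M : ℕ, 1 ≤ M ∧ ∃ κ : ℝ, 0 < κ ∧ ∀ ε : ℝ, 0 < ε → ∀ᶠ T in atTop, ∀ B : Finset ℕ,
    ((((II T) ×ˢ (II T)).filter (fun p : ℕ × ℕ => p.2 < p.1 ∧ xx T p.1 p.2 ≤ r ∧
      ¬ (κ * T ≤ ord p.2 ∧ p.1 < p.2 + M ∧ (∀ b, p.2 ≤ b → b < p.1 → b ∉ B) ∧
        |xx T p.1 p.2 - (gt p.1 - gt p.2)| ≤ ε))).card : ℝ) ≤
      η * NZ T + M ^ 2 * B.card := by
  classical
  obtain ⟨M, hM1, hM⟩ := cluster_pairs hRH (2 * r) (show 0 < η / 2 by positivity)
  have hM0 : (0 : ℝ) < M := by exact_mod_cast hM1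
  obtain ⟨κ, hκ⟩ : ∃ κ : ℝ, κ = min 1 (η / (16 * M)) := ⟨_, rfl⟩
  have hκ0 : 0 < κ := by rw [hκ]; exact lt_min one_pos (by positivity)
  have hκ1 : κ ≤ 1 := by rw [hκ]; exact min_le_left _ _
  have hκM : M * κ ≤ η / 16 := by
    have : κ ≤ η / (16 * M) := by rw [hκ]; exact min_le_right _ _
    rw [le_div_iff₀ (by positivity)] at this
    linarith
  refine ⟨M, hM1, κ, hκ0, fun ε hε => ?_⟩
  have hκT : Tendsto (fun T : ℝ => κ * T) atTop atTop := tendsto_id.const_mul_atTop hκ0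
  filter_upwards [cmp_close hκ0 hr.le hε, eventually_ge_atTop (max 10 (10 / κ)),
    N_asymp (show (0 : ℝ) < 1 / 2 by norm_num),
    hκT.eventually (N_asymp (show (0 : ℝ) < 1 by norm_num))] with T hcmp hT hN hNκ B
  have hT10 : 10 ≤ T := (le_max_left _ _).trans hT
  have hn := nT_pos hT10
  have hL1 := one_lt_log (show 3 ≤ T by linarith)
  -- few zeros below `κ T`
  have hlow : (M : ℝ) * NZ (κ * T) ≤ η / 2 * NZ T := by
    have h1 : (NZ (κ * T) : ℝ) ≤ 2 * nT (κ * T) := by linarith [hNκ.2]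
    have h2 : nT (κ * T) ≤ κ * nT T := by
      unfold nT
      have hpi := Real.pi_pos
      have h3 : Real.log (κ * T) ≤ Real.log T := by
        apply Real.log_le_log (by positivity)
        nlinarith
      have h4 : κ * (T * Real.log T / (2 * Real.pi)) = κ * T * Real.log T / (2 * Real.pi) := by
        ring
      rw [h4]
      gcongr
    have h3 : nT T ≤ 2 * NZ T := by linarith [hN.1]
    calc (M : ℝ) * NZ (κ * T) ≤ M * (2 * (κ * nT T)) := by
          gcongr
          linarith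
      _ = 2 * (M * κ) * nT T := by ring
      _ ≤ 2 * (η / 16) * nT T := by gcongr
      _ ≤ 2 * (η / 16) * (2 * NZ T) := by gcongr
      _ ≤ η / 2 * NZ T := by
        have : (0 : ℝ) ≤ NZ T := Nat.cast_nonneg _
        nlinarith
  obtain ⟨A1, hA1⟩ : ∃ A1 : Finset (ℕ × ℕ), A1 = ((II T) ×ˢ (II T)).filter
    (fun p : ℕ × ℕ => p.2 + M ≤ p.1 ∧ gt p.1 - gt p.2 ≤ 2 * r) := ⟨_, rfl⟩
  obtain ⟨A2, hA2⟩ : ∃ A2 : Finset (ℕ × ℕ), A2 = (Finset.Ioc 0 (NZ (κ * T)) ×ˢ Finset.range M).image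
    (fun q : ℕ × ℕ => (q.1 + q.2, q.1)) := ⟨_, rfl⟩
  obtain ⟨A3, hA3⟩ : ∃ A3 : Finset (ℕ × ℕ), A3 = (B ×ˢ (Finset.range M ×ˢ Finset.range M)).image
    (fun q : ℕ × (ℕ × ℕ) => (q.1 + 1 + q.2.1, q.1 - q.2.2)) := ⟨_, rfl⟩
  have c1 : (A1.card : ℝ) ≤ η / 2 * NZ T := by
    rw [hA1]
    exact hM (NZ T)
  have c2 : (A2.card : ℝ) ≤ M * NZ (κ * T) := by
    have h1 : A2.card ≤ NZ (κ * T) * M := by
      rw [hA2]
      refine Finset.card_image_le.trans ?_
      rw [Finset.card_product, Nat.card_Ioc, Finset.card_range, Nat.sub_zero]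
    have h2 : (A2.card : ℝ) ≤ NZ (κ * T) * M := by exact_mod_cast h1
    linarith
  have c3 : (A3.card : ℝ) ≤ M ^ 2 * B.card := by
    have h1 : A3.card ≤ B.card * (M * M) := by
      rw [hA3]
      refine Finset.card_image_le.trans ?_
      rw [Finset.card_product, Finset.card_product, Finset.card_range]
    have h2 : (A3.card : ℝ) ≤ B.card * (M * M) := by exact_mod_cast h1
    nlinarith
  have hsub : ((II T) ×ˢ (II T)).filter (fun p : ℕ × ℕ => p.2 < p.1 ∧ xx T p.1 p.2 ≤ r ∧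
      ¬ (κ * T ≤ ord p.2 ∧ p.1 < p.2 + M ∧ (∀ b, p.2 ≤ b → b < p.1 → b ∉ B) ∧
        |xx T p.1 p.2 - (gt p.1 - gt p.2)| ≤ ε)) ⊆ A1 ∪ (A2 ∪ A3) := by
    rintro ⟨i, j⟩ hp
    rw [Finset.mem_filter, Finset.mem_product] at hp
    obtain ⟨⟨hi, hj⟩, hji, hx, hnot⟩ := hp
    simp only at hi hj hji hx hnot
    have hj1 := (mem_II.1 hj).1
    rw [Finset.mem_union, Finset.mem_union]
    by_cases h1 : i < j + M
    · by_cases h2 : κ * T ≤ ord j
      · -- a bad index in between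
        have h3 := hcmp i j hj1 hji.le hi h2 hx
        have h4 : ¬ ∀ b, j ≤ b → b < i → b ∉ B := fun h4 => hnot ⟨h2, h1, h4, h3⟩
        push Not at h4
        obtain ⟨b, hb1, hb2, hbB⟩ := h4
        right; right
        rw [hA3, Finset.mem_image]
        refine ⟨(b, (i - b - 1, b - j)), ?_, ?_⟩
        · rw [Finset.mem_product, Finset.mem_product, Finset.mem_range, Finset.mem_range]
          exact ⟨hbB, by simp only; omega, by simp only; omega⟩
        · simp only [Prod.mk.injEq]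
          omega
      · push Not at h2
        right; left
        rw [hA2, Finset.mem_image]
        refine ⟨(j, i - j), ?_, ?_⟩
        · rw [Finset.mem_product, Finset.mem_Ioc, Finset.mem_range]
          exact ⟨⟨by simp only; omega, (SG.ord_le_iff hj1 _).1 h2.le⟩, by simp only; omega⟩
        · simp only [Prod.mk.injEq]
          exact ⟨by omega, trivial⟩
    · push Not at h1
      left
      rw [hA1, Finset.mem_filter, Finset.mem_product]
      refine ⟨⟨hi, hj⟩, h1, ?_⟩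
      have h2 := cmp_up (show 3 ≤ T by linarith) hj1 hji.le hi
      have h3 := xx_nonneg (by linarith : 1 ≤ T) hj1 hji.le
      have h4 : 1 / Real.log T ≤ 1 := by
        rw [div_le_one (by linarith)]
        exact hL1.le
      show gt i - gt j ≤ 2 * r
      nlinarith
  have h1 := Finset.card_le_card hsub
  have h2 : ((A1 ∪ (A2 ∪ A3)).card : ℝ) ≤ A1.card + (A2.card + A3.card) := by
    have := (Finset.card_union_le A1 (A2 ∪ A3)).trans
      (Nat.add_le_add_left (Finset.card_union_le A2 A3) _)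
    exact_mod_cast this
  have h3 : ((((II T) ×ˢ (II T)).filter (fun p : ℕ × ℕ => p.2 < p.1 ∧ xx T p.1 p.2 ≤ r ∧
      ¬ (κ * T ≤ ord p.2 ∧ p.1 < p.2 + M ∧ (∀ b, p.2 ≤ b → b < p.1 → b ∉ B) ∧
        |xx T p.1 p.2 - (gt p.1 - gt p.2)| ≤ ε))).card : ℝ) ≤ (A1 ∪ (A2 ∪ A3)).card := by
    exact_mod_cast h1
  linarith

end Pool.Agent.Y749.AH
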