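import Pool.Agent.Y749.AH.Gap2

/-! # The Fejer mean of the form factor over `(0, 2)` -/

set_option autoImplicit false

open MeasureTheory Set Filter Topology

namespace Pool.Agent.Y749.AH

open Pool.Agent.Y749.Rig
open SG (ord NZ zmult ZS)

variable {l : Filter ℝ} {θ : ℝ}

lemma Fr_tr2 (T : ℝ) : ∫ α, tr 2 α * Fr T α = (1 / 2) * ∫ α in (0 : ℝ)..2, (2 - α) * Fr T α := by
  have hFc := Fr_cont T
  have htc := tr_cont 2
  have hc : Continuous fun α => tr 2 α * Fr T α := by fun_prop
  rw [int_supp (show (0 : ℝ) < 2 by norm_num) (f := fun α => tr 2 α * Fr T α) (fun x hx => by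
    rw [tr_supp (by norm_num) x hx, zero_mul])]
  rw [← intervalIntegral.integral_add_adjacent_intervals (b := 0) (hc.intervalIntegrable _ _)
    (hc.intervalIntegrable _ _)]
  have h1 : ∫ α in (-2 : ℝ)..0, tr 2 α * Fr T α = ∫ α in (0 : ℝ)..2, tr 2 α * Fr T α := by
    have := intervalIntegral.integral_comp_neg (a := (0 : ℝ)) (b := 2)
      fun α : ℝ => tr 2 α * Fr T α
    rw [neg_zero] at this
    rw [← this]
    refine intervalIntegral.integral_congr fun α _ => ?_
    show tr 2 (-α) * Fr T (-α) = _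
    rw [tr_even, Fr_even]
  have h2 : ∫ α in (0 : ℝ)..2, tr 2 α * Fr T α = (1 / 4) * ∫ α in (0 : ℝ)..2, (2 - α) * Fr T α := by
    rw [← intervalIntegral.integral_const_mul]
    refine intervalIntegral.integral_congr fun α hα => ?_
    rw [uIcc_of_le (by norm_num)] at hα
    show tr 2 α * Fr T α = 1 / 4 * ((2 - α) * Fr T α)
    rw [tr_eq (by norm_num) hα.1 hα.2]
    ring
  rw [h1, h2]
  ring

/-- the Fejer mean is at least `2` -/
theorem fej_low (hl : l ≤ atTop) {η : ℝ} (hη : 0 < η) :
    ∀ᶠ T in l, 2 - η ≤ ∫ α in (0 : ℝ)..2, (2 - α) * Fr T α := by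
  filter_upwards [hl (diag_low (show (0 : ℝ) < 2 by norm_num) (show 0 < η / 2 by positivity))]
    with T hT
  rw [Fr_tr2] at hT
  linarith

open scoped Classical in
/-- `AHf` implies that few spacings have a large sine -/
lemma ah_sin (h : AHf l) : SinFew l 2 := by
  intro ε η hε hη
  have hpi := Real.pi_pos
  filter_upwards [h (ε / (2 * Real.pi)) η (by positivity) hη] with T hT
  refine le_trans ?_ hT
  refine Nat.cast_le.2 (Finset.card_le_card ?_)
  intro j hj
  rw [Finset.mem_filter] at hj ⊢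
  refine ⟨hj.1, fun k _ => ?_⟩
  have h1 := hj.2
  have h2 : |Real.sin (Real.pi * 2 * dj j)| ≤ 2 * Real.pi * |dj j - k / 2| := by
    have h3 := Real.abs_sin_le_abs (x := Real.pi * 2 * dj j - (k : ℤ) * Real.pi)
    rw [Real.sin_sub_int_mul_pi, abs_mul] at h3
    have h4 : |((-1 : ℝ) ^ (k : ℤ))| = 1 := by
      rw [abs_zpow, abs_neg, abs_one, one_zpow]
    rw [h4, one_mul] at h3
    have h5 : Real.pi * 2 * dj j - (k : ℤ) * Real.pi = 2 * Real.pi * (dj j - k / 2) := by
      push_cast
      ring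
    rw [h5, abs_mul, abs_of_pos (by positivity : 0 < 2 * Real.pi)] at h3
    exact h3
  rw [div_le_iff₀ (by positivity)]
  linarith

/-- **upper bound for the Fejer mean** -/
theorem ah_fej (hRH : RiemannHypothesis) (hl : l ≤ atTop) (h : AHf l) {η : ℝ} (hη : 0 < η) :
    ∀ᶠ T in l, ∫ α in (0 : ℝ)..2, (2 - α) * Fr T α ≤ 2 + η := by
  obtain ⟨C, hC, hB⟩ := Mp_bdd
  have hP := sin_pair hRH hl (show (0 : ℝ) < 2 by norm_num) (ah_sin h)
  have hq : QD fun x : ℝ => 1 / (1 + x ^ 2) := ⟨1, fun x => by rw [abs_of_pos (by positivity)]⟩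
  filter_upwards [hl hB, hl (eventually_ge_atTop 10),
    no_close hRH hl h (show 0 < η / 4 by positivity),
    pair_test hl hP inv_cont hq (show 0 < η / 4 by positivity)] with T hBT hT h1 h2
  have hfin := Mp_fin T
  have hC0 : 0 ≤ C := by linarith
  have h20 : (0 : ℝ) < 2 := by norm_num
  have hpi := Real.pi_pos
  have hpi3 := Real.pi_gt_three
  have e1 := Fr_tr2 T
  have e2 : ∫ α, tr 2 α * Fr T α ≤ 1 + η / 2 := by
    rw [Fr_pair (tr_int h20)]
    have i1 : Integrable (fl (tr 2)) (Mp T) :=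
      Bdd.integrable hC0 hBT (fl_cont (tr_int h20)) (fl_qd (adm_tr h20))
    have i2 : Integrable (fun x => fl (tr 2) x * ww (2 * Real.pi * x / Real.log T)) (Mp T) := by
      have hwc := ww_cont
      refine i1.mul_bdd (c := 1) (by fun_prop) (ae_of_all _ fun x => ?_)
      rw [Real.norm_eq_abs, abs_of_pos (ww_pos _)]
      exact ww_le _
    have i3 : Integrable ((Icc (-(1 / 4 : ℝ)) (1 / 4)).indicator fun _ => (1 : ℝ)) (Mp T) :=
      (integrable_const _).indicator measurableSet_Icc
    have i4 : Integrable (fun x : ℝ => |1 / (1 + x ^ 2)| *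
        (2 * Real.sin (Real.pi * 2 * x) ^ 2)) (Mp T) := by
      refine (inv_int hC0 hBT).abs.mul_bdd (c := 2) (by fun_prop) (ae_of_all _ fun x => ?_)
      rw [Real.norm_eq_abs, abs_of_nonneg (by positivity)]
      linarith [Real.sin_sq_le_one (Real.pi * 2 * x)]
    have key : ∫ x, fl (tr 2) x * ww (2 * Real.pi * x / Real.log T) ∂(Mp T) ≤
        ∫ x, ((Icc (-(1 / 4 : ℝ)) (1 / 4)).indicator (fun _ => (1 : ℝ)) x +
          |1 / (1 + x ^ 2)| * (2 * Real.sin (Real.pi * 2 * x) ^ 2)) ∂(Mp T) := by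
      refine integral_mono i2 (i3.add i4) fun x => ?_
      show fl (tr 2) x * ww (2 * Real.pi * x / Real.log T) ≤
        (Icc (-(1 / 4 : ℝ)) (1 / 4)).indicator (fun _ => (1 : ℝ)) x +
          |1 / (1 + x ^ 2)| * (2 * Real.sin (Real.pi * 2 * x) ^ 2)
      have p0 := fl_tr_nonneg h20 x
      have p1 : fl (tr 2) x * ww (2 * Real.pi * x / Real.log T) ≤ fl (tr 2) x := by
        calc _ ≤ fl (tr 2) x * 1 := by
              gcongr
              exact ww_le _
          _ = _ := mul_one _
      have p2 : 0 ≤ |1 / (1 + x ^ 2)| * (2 * Real.sin (Real.pi * 2 * x) ^ 2) := by positivity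
      by_cases hx : x ∈ Icc (-(1 / 4 : ℝ)) (1 / 4)
      · rw [indicator_of_mem hx]
        have p3 : fl (tr 2) x ≤ 1 := fl_tr_le h20 x
        linarith
      · rw [indicator_of_notMem hx, zero_add]
        refine p1.trans ?_
        have hx2 : 1 / 16 ≤ x ^ 2 := by
          by_contra hcon
          push Not at hcon
          apply hx
          constructor <;> nlinarith
        have hx0 : x ≠ 0 := by
          intro h0
          rw [h0] at hx2
          norm_num at hx2
        rw [fl_tr h20 hx0, abs_of_pos (by positivity), div_pow]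
        have e3 : Real.sin (Real.pi * 2 * x) ^ 2 / (Real.pi * 2 * x) ^ 2 =
            (1 / (Real.pi * 2 * x) ^ 2) * Real.sin (Real.pi * 2 * x) ^ 2 := by ring
        have e4 : 1 / (1 + x ^ 2) * (2 * Real.sin (Real.pi * 2 * x) ^ 2) =
            (2 / (1 + x ^ 2)) * Real.sin (Real.pi * 2 * x) ^ 2 := by ring
        rw [e3, e4]
        apply mul_le_mul_of_nonneg_right _ (sq_nonneg _)
        rw [div_le_div_iff₀ (by positivity) (by positivity)]
        have h9 : (9 : ℝ) ≤ Real.pi ^ 2 := by nlinarith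
        have e5 : (Real.pi * 2 * x) ^ 2 = 4 * (Real.pi ^ 2 * x ^ 2) := by ring
        rw [e5]
        have h10 : 9 * x ^ 2 ≤ Real.pi ^ 2 * x ^ 2 := by gcongr
        linarith
    rw [integral_add i3 i4, integral_indicator measurableSet_Icc, setIntegral_const, smul_eq_mul,
      mul_one] at key
    linarith
  linarith

/-- few small spacings -/
lemma ah_small (h : AHf l) : NoSmall l := by
  classical
  intro η hη
  refine ⟨1 / 4, by norm_num, ?_⟩
  filter_upwards [h (1 / 4) η (by norm_num) hη] with T hT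
  refine le_trans ?_ hT
  refine Nat.cast_le.2 (Finset.card_le_card ?_)
  intro j hj
  rw [Finset.mem_filter] at hj ⊢
  refine ⟨hj.1, fun k hk => ?_⟩
  have h1 : (1 : ℝ) ≤ k := by exact_mod_cast hk
  rw [abs_sub_comm]
  refine le_trans ?_ (le_abs_self _)
  linarith [hj.2]

/-- the sine far from the half integers -/
lemma sin_far {d ε : ℝ} (hε0 : 0 < ε) (h : ∀ k : ℤ, ε ≤ |d - k / 2|) :
    4 * ε ≤ |Real.sin (Real.pi * 2 * d)| := by
  have hpi := Real.pi_pos
  obtain ⟨k, hk⟩ : ∃ k : ℤ, k = round (2 * d) := ⟨_, rfl⟩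
  have h1 := abs_sub_round (2 * d)
  rw [← hk] at h1
  have h2 : |d - k / 2| ≤ 1 / 4 := by
    have e : 2 * d - k = 2 * (d - k / 2) := by ring
    rw [e, abs_mul, abs_two] at h1
    linarith
  have h3 := h k
  obtain ⟨t, ht⟩ : ∃ t : ℝ, t = |d - k / 2| := ⟨_, rfl⟩
  rw [← ht] at h2 h3
  have h4 : |Real.sin (Real.pi * 2 * d)| = Real.sin (2 * Real.pi * t) := by
    have h5 : Real.sin (Real.pi * 2 * d - k * Real.pi) = (-1) ^ k * Real.sin (Real.pi * 2 * d) :=
      Real.sin_sub_int_mul_pi _ _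
    have h6 : |((-1 : ℝ) ^ k)| = 1 := by
      rw [abs_zpow, abs_neg, abs_one, one_zpow]
    have h7 : |Real.sin (Real.pi * 2 * d)| = |Real.sin (2 * Real.pi * (d - k / 2))| := by
      rw [show 2 * Real.pi * (d - k / 2) = Real.pi * 2 * d - k * Real.pi by ring, h5, abs_mul, h6,
        one_mul]
    rw [h7]
    have h8 : 0 ≤ Real.sin (2 * Real.pi * t) := by
      apply Real.sin_nonneg_of_nonneg_of_le_pi
      · rw [ht]; positivity
      · nlinarith
    rcases abs_cases (d - k / 2) with ⟨a, _⟩ | ⟨a, _⟩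
    · rw [← a, ← ht, abs_of_nonneg h8]
    · have : d - k / 2 = -t := by linarith
      rw [this, mul_neg, Real.sin_neg, abs_neg, abs_of_nonneg h8]
  rw [h4]
  have h9 : 2 / Real.pi * (2 * Real.pi * t) ≤ Real.sin (2 * Real.pi * t) :=
    Real.mul_le_sin (by rw [ht]; positivity) (by nlinarith)
  have h10 : 2 / Real.pi * (2 * Real.pi * t) = 4 * t := by
    field_simp
    ring
  linarith

/-- mass at `2` and few small spacings -/
theorem mass_ah (hRH : RiemannHypothesis) (hl : l ≤ atTop) (h : MassL l 2) (hs : NoSmall l) :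
    AHf l := by
  classical
  intro ε η hε hη
  obtain ⟨ε1, hε1, h1⟩ := hs (η / 2) (by positivity)
  have h2 := pair_sin hRH hl (show (0 : ℝ) < 2 by norm_num) (mass_pair hRH hl h)
  obtain ⟨e, he⟩ : ∃ e : ℝ, e = min ε ε1 := ⟨_, rfl⟩
  have he0 : 0 < e := by rw [he]; exact lt_min hε hε1
  have heε : e ≤ ε := by rw [he]; exact min_le_left _ _
  have heε1 : e ≤ ε1 := by rw [he]; exact min_le_right _ _
  filter_upwards [h1, h2 (4 * e) (η / 2) (by positivity) (by positivity)] with T g1 g2
  have hsub : (II T).filter (fun j => ∀ k : ℕ, 1 ≤ k → ε ≤ |dj j - k / 2|) ⊆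
      (II T).filter (fun j => dj j < ε1) ∪
      (II T).filter (fun j => 4 * e ≤ |Real.sin (Real.pi * 2 * dj j)|) := by
    intro j hj
    rw [Finset.mem_filter] at hj
    rw [Finset.mem_union, Finset.mem_filter, Finset.mem_filter]
    by_cases h3 : dj j < ε1
    · exact Or.inl ⟨hj.1, h3⟩
    · push Not at h3
      refine Or.inr ⟨hj.1, sin_far he0 fun k => ?_⟩
      rcases le_or_gt k 0 with h4 | h4
      · have h5 : (k : ℝ) ≤ 0 := by exact_mod_cast h4
        refine le_trans ?_ (le_abs_self _)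
        linarith
      · have h6 := hj.2 k.toNat (by omega)
        have h7 : ((k.toNat : ℕ) : ℝ) = k := by
          have : ((k.toNat : ℤ) : ℝ) = k := by rw [Int.toNat_of_nonneg h4.le]
          exact_mod_cast this
        rw [h7] at h6
        linarith
  have h3 := (Finset.card_le_card hsub).trans (Finset.card_union_le _ _)
  have h4 : (((II T).filter (fun j => ∀ k : ℕ, 1 ≤ k → ε ≤ |dj j - k / 2|)).card : ℝ) ≤
      ((II T).filter (fun j => dj j < ε1)).card +
      ((II T).filter (fun j => 4 * e ≤ |Real.sin (Real.pi * 2 * dj j)|)).card := by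
    exact_mod_cast h3
  linarith

end Pool.Agent.Y749.AH
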