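import Pool.Agent.Y749.AH.Per
import Pool.Agent.Y749.AH.Fej

/-! # No period in `(0, 2)` -/

set_option autoImplicit false

open MeasureTheory Set Filter Topology

namespace Pool.Agent.Y749.AH

open Pool.Agent.Y749.Rig
open SG (ord NZ zmult ZS)

variable {l : Filter ℝ} {θ : ℝ}

/-- the tents in the known range -/
lemma tent_lim (RH : RiemannHypothesis) {h c : ℝ} (hh : 0 < h) (hc : h ≤ |c|)
    (hc1 : |c| + h < 1) : Tendsto (fun T => ∫ α, tr h (α - c) * Fr T α) atTop (𝓝 |c|) := by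
  have hadm := adm_modu (adm_tr hh) c
  have h0 : 0 < h + |c| := by positivity
  have t1 := Fr_lim hadm.int (fl_qd hadm) le_rfl (test_limRH RH hadm h0 (by linarith))
  have e1 : (fun T => ∫ α, modu c (tr h) α * Fr T α) =
      fun T => ∫ α, tr h (α - c) * Fr T α := funext fun T => modu_pair (adm_tr hh) T
  rw [e1] at t1
  have e2 : cc (modu c (tr h)) = |c| := by
    unfold cc
    have z1 : modu c (tr h) 0 = 0 := by
      unfold modu
      rw [zero_sub, zero_add, tr_supp hh _ (by rw [abs_neg]; exact hc), tr_supp hh _ hc]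
      norm_num
    rw [z1, zero_add]
    have htc := tr_cont h
    have i1 : ∀ b : ℝ, Integrable fun α => |α| * tr h (α - b) := by
      intro b
      refine Continuous.integrable_of_hasCompactSupport (by fun_prop) ?_
      have : HasCompactSupport fun α => tr h (α - b) :=
        (adm_tr hh).hcs.comp_homeomorph (Homeomorph.subRight b)
      exact this.mul_left
    have i2 : ∀ b : ℝ, ∫ α, |α| * tr h (α - b) = ∫ α, |α + b| * tr h α := by
      intro b
      rw [← integral_sub_right_eq_self (fun α => |α + b| * tr h α) b]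
      refine integral_congr_ae (ae_of_all _ fun α => ?_)
      show |α| * tr h (α - b) = |α - b + b| * tr h (α - b)
      rw [sub_add_cancel]
    have i3 : ∀ b : ℝ, Integrable fun α => |α + b| * tr h α := by
      intro b
      refine Continuous.integrable_of_hasCompactSupport (by fun_prop) ?_
      exact (adm_tr hh).hcs.mul_left
    have e3 : ∀ α, |α| * modu c (tr h) α = (1 / 2) * (|α| * tr h (α - c)) +
        (1 / 2) * (|α| * tr h (α - -c)) := by
      intro α
      unfold modu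
      rw [sub_neg_eq_add]
      ring
    simp_rw [e3]
    rw [integral_add ((i1 c).const_mul _) ((i1 (-c)).const_mul _), integral_const_mul,
      integral_const_mul, i2, i2, ← integral_const_mul, ← integral_const_mul,
      ← integral_add ((i3 c).const_mul _) ((i3 (-c)).const_mul _)]
    have e4 : ∀ α, 1 / 2 * (|α + c| * tr h α) + 1 / 2 * (|α + -c| * tr h α) = |c| * tr h α := by
      intro α
      rcases le_or_gt h |α| with g | g
      · rw [tr_supp hh _ g]
        ring
      · have g1 : |α| < |c| := g.trans_le hc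
        have g2 : |α + c| + |α + -c| = 2 * |c| := by
          rw [abs_lt] at g1
          rcases abs_cases c with ⟨k1, k2⟩ | ⟨k1, k2⟩
          · rw [k1] at g1 ⊢
            rw [abs_of_pos (by linarith [g1.1]), abs_of_neg (by linarith [g1.2])]
            ring
          · rw [k1] at g1 ⊢
            rw [abs_of_neg (by linarith [g1.2]), abs_of_pos (by linarith [g1.1])]
            ring
        calc 1 / 2 * (|α + c| * tr h α) + 1 / 2 * (|α + -c| * tr h α) =
            1 / 2 * (|α + c| + |α + -c|) * tr h α := by ring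
          _ = _ := by rw [g2]; ring
    simp_rw [e4]
    rw [integral_const_mul, int_tr hh, mul_one]
  rwa [e2] at t1

/-- no period between `0` and `2` -/
theorem no_per (RH : RiemannHypothesis) (hθ : 0 < θ) (hθ2 : θ < 2) [l.NeBot] (hl : l ≤ atTop) :
    ¬ PerL l θ := by
  intro hP
  obtain ⟨t, ht⟩ : ∃ t : ℝ, t = min (θ / 2) (1 - θ / 2) / 4 := ⟨_, rfl⟩
  have ht0 : 0 < t := by
    rw [ht]
    have : 0 < min (θ / 2) (1 - θ / 2) := lt_min (by positivity) (by linarith)
    positivity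
  have ht1 : 4 * t ≤ θ / 2 := by
    rw [ht]
    linarith [min_le_left (θ / 2) (1 - θ / 2)]
  have ht2 : 4 * t ≤ 1 - θ / 2 := by
    rw [ht]
    linarith [min_le_right (θ / 2) (1 - θ / 2)]
  have a1 : |-(θ / 2) + t| = θ / 2 - t := by
    rw [abs_of_neg (by linarith)]
    ring
  have a2 : |θ / 2 + t| = θ / 2 + t := abs_of_pos (by linarith)
  have t1 := (tent_lim RH (h := t) (c := -(θ / 2) + t) ht0 (by rw [a1]; linarith)
    (by rw [a1]; linarith)).mono_left hl
  have t2 := (tent_lim RH (h := t) (c := θ / 2 + t) ht0 (by rw [a2]; linarith)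
    (by rw [a2]; linarith)).mono_left hl
  rw [a1] at t1
  rw [a2] at t2
  have htc := tr_cont t
  have hcs : HasCompactSupport fun α => tr t (α - (-(θ / 2) + t)) :=
    (adm_tr ht0).hcs.comp_homeomorph (Homeomorph.subRight (-(θ / 2) + t))
  have t3 := hP (fun α => tr t (α - (-(θ / 2) + t))) (by fun_prop) hcs
  have t4 := t2.sub t1
  have e : (fun T => ∫ α, tr t (α - (-(θ / 2) + t)) * (Fr T (α + θ) - Fr T α)) =
      fun T => (∫ α, tr t (α - (θ / 2 + t)) * Fr T α) -
        ∫ α, tr t (α - (-(θ / 2) + t)) * Fr T α := by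
    funext T
    have hFc := Fr_cont T
    have j1 : Integrable fun α => tr t (α - (-(θ / 2) + t)) * Fr T (α + θ) :=
      Continuous.integrable_of_hasCompactSupport (by fun_prop) hcs.mul_right
    have j2 : Integrable fun α => tr t (α - (-(θ / 2) + t)) * Fr T α :=
      Continuous.integrable_of_hasCompactSupport (by fun_prop) hcs.mul_right
    simp_rw [mul_sub]
    rw [integral_sub j1 j2]
    congr 1
    rw [← integral_sub_right_eq_self (fun α => tr t (α - (-(θ / 2) + t)) * Fr T (α + θ)) θ]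
    refine integral_congr_ae (ae_of_all _ fun α => ?_)
    show tr t (α - θ - (-(θ / 2) + t)) * Fr T (α - θ + θ) = _
    rw [sub_add_cancel, show α - θ - (-(θ / 2) + t) = α - (θ / 2 + t) by ring]
  rw [e] at t3
  have := tendsto_nhds_unique t3 t4
  linarith

theorem no_pair (RH : RiemannHypothesis) (hθ : 0 < θ) (hθ2 : θ < 2) [l.NeBot] (hl : l ≤ atTop) :
    ¬ PairL l θ := fun h => no_per RH hθ hθ2 hl (pair_per hl h)

theorem no_mass (RH : RiemannHypothesis) (hθ : 0 < θ) (hθ2 : θ < 2) [l.NeBot] (hl : l ≤ atTop) :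
    ¬ MassL l θ := fun h => no_pair RH hθ hθ2 hl (mass_pair RH hl h)

lemma seq_le {s : ℕ → ℝ} (hs : ∀ n : ℕ, (n : ℝ) ≤ s n) : map s atTop ≤ atTop := by
  show Tendsto s atTop atTop
  exact tendsto_atTop_mono hs tendsto_natCast_atTop_atTop

/-- the mass at `θ` is smaller than one -/
theorem mass_defect (RH : RiemannHypothesis) (hθ : 0 < θ) (hθ2 : θ < 2) :
    ∃ δ : ℝ, 0 < δ ∧ ∀ᶠ T in atTop, ∫ α in (θ - δ)..(θ + δ), Fr T α < 1 - δ := by
  by_contra hcon
  push Not at hcon
  have h1 : ∀ n : ℕ, ∃ T : ℝ, ((n : ℝ) ≤ T ∧ 10 ≤ T) ∧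
      1 - 1 / ((n : ℝ) + 1) ≤ ∫ α in (θ - 1 / ((n : ℝ) + 1))..(θ + 1 / ((n : ℝ) + 1)), Fr T α := by
    intro n
    have h2 := hcon (1 / ((n : ℝ) + 1)) (by positivity)
    have h3 := (h2.and_eventually (eventually_ge_atTop (max (n : ℝ) 10))).exists
    obtain ⟨T, h4, h5⟩ := h3
    exact ⟨T, ⟨(le_max_left _ _).trans h5, (le_max_right _ _).trans h5⟩, h4⟩
  choose s hs using h1
  have hl : map s atTop ≤ atTop := seq_le fun n => (hs n).1.1
  have : MassL (map s atTop) θ := by
    intro δ η hδ hη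
    rw [eventually_map]
    obtain ⟨n0, hn0⟩ := exists_nat_gt (max (1 / δ) (1 / η))
    filter_upwards [eventually_ge_atTop n0] with n hn
    have hn' : (n0 : ℝ) ≤ n := by exact_mod_cast hn
    have g1 : 1 / ((n : ℝ) + 1) ≤ δ := by
      have : 1 / δ ≤ n := ((le_max_left _ _).trans hn0.le).trans hn'
      rw [div_le_iff₀ hδ] at this
      rw [div_le_iff₀ (by positivity)]
      nlinarith
    have g2 : 1 / ((n : ℝ) + 1) ≤ η := by
      have : 1 / η ≤ n := ((le_max_right _ _).trans hn0.le).trans hn'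
      rw [div_le_iff₀ hη] at this
      rw [div_le_iff₀ (by positivity)]
      nlinarith
    have g3 := (hs n).2
    have g4 : 0 < 1 / ((n : ℝ) + 1) := by positivity
    have hFc := Fr_cont (s n)
    have g5 : ∫ α in (θ - 1 / ((n : ℝ) + 1))..(θ + 1 / ((n : ℝ) + 1)), Fr (s n) α ≤
        ∫ α in (θ - δ)..(θ + δ), Fr (s n) α := by
      apply intervalIntegral.integral_mono_interval (by linarith) (by linarith) (by linarith)
      · exact ae_of_all _ fun α => Fr_nonneg (hs n).1.2 α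
      · exact hFc.intervalIntegrable _ _
    linarith
  exact no_mass RH hθ hθ2 hl this

/-- finitely many cosets suffice -/
lemma net_sin (hθ : 0 < θ) {m : ℕ} (hm : 1 ≤ m) (b : ℝ) : ∃ i < m, ∀ x : ℝ,
    |Real.sin (Real.pi * θ * (x - i / (m * θ)))| ≤
      |Real.sin (Real.pi * θ * (x - b))| + Real.pi / m := by
  have hm0 : (0 : ℝ) < m := by exact_mod_cast hm
  have hf0 := Int.fract_nonneg (θ * b)
  have hf1 := Int.fract_lt_one (θ * b)
  have hpi := Real.pi_pos
  refine ⟨⌊Int.fract (θ * b) * m⌋₊, ?_, fun x => ?_⟩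
  · rw [Nat.floor_lt (by positivity)]
    nlinarith
  obtain ⟨i, hi⟩ : ∃ i : ℕ, i = ⌊Int.fract (θ * b) * m⌋₊ := ⟨_, rfl⟩
  rw [← hi]
  have h1 : (i : ℝ) ≤ Int.fract (θ * b) * m := by rw [hi]; exact Nat.floor_le (by positivity)
  have h2 : Int.fract (θ * b) * m < i + 1 := by rw [hi]; exact Nat.lt_floor_add_one _
  have h3 : Int.fract (θ * b) = θ * b - ⌊θ * b⌋ := rfl
  have e : Real.pi * θ * (x - i / (m * θ)) = (Real.pi * θ * (x - b) +
      Real.pi * (Int.fract (θ * b) - i / m)) + (⌊θ * b⌋ : ℤ) * Real.pi := by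
    rw [h3]
    field_simp
    ring
  rw [e, Real.sin_add_int_mul_pi, abs_mul]
  have h4 : |((-1 : ℝ) ^ ⌊θ * b⌋)| = 1 := by rw [abs_zpow, abs_neg, abs_one, one_zpow]
  rw [h4, one_mul]
  refine (abs_sin_add_le _ _).trans ?_
  have h5 : |Real.sin (Real.pi * (Int.fract (θ * b) - i / m))| ≤
      |Real.pi * (Int.fract (θ * b) - i / m)| := Real.abs_sin_le_abs
  have h6 : 0 ≤ Int.fract (θ * b) - i / m := by
    rw [sub_nonneg, div_le_iff₀ hm0]
    exact h1
  have h7 : Int.fract (θ * b) - i / m ≤ 1 / m := by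
    rw [sub_le_iff_le_add, ← add_div, le_div_iff₀ hm0]
    linarith
  rw [abs_of_nonneg (mul_nonneg hpi.le h6)] at h5
  have h8 : Real.pi * (Int.fract (θ * b) - i / m) ≤ Real.pi * (1 / m) := by gcongr
  have h9 : Real.pi * (1 / (m : ℝ)) = Real.pi / m := by ring
  linarith

/-- **one window**, uniform in the coset -/
theorem far_unif2 (RH : RiemannHypothesis) (hθ : 0 < θ) {δ η : ℝ} (hδ : 0 < δ) (hη : 0 < η) :
    ∃ ε0 η0 R0 : ℝ, 0 < ε0 ∧ 0 < η0 ∧ 0 < R0 ∧ ∀ R a : ℝ, R0 ≤ R → ∀ᶠ T in atTop, ∀ b : ℝ,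
    ∫ α in (θ - δ)..(θ + δ), Fr T α < 1 - η → η0 * R <
    (Mp T).real {x | a ≤ x ∧ x ≤ a + R ∧ ε0 ≤ |Real.sin (Real.pi * θ * (x - b))|} := by
  obtain ⟨ε, η0, R0, h1, h2, h3, h4⟩ := far_unif RH θ hδ hη
  have hpi := Real.pi_pos
  obtain ⟨m, hm⟩ := exists_nat_gt (2 * Real.pi / ε)
  have hm0 : (0 : ℝ) < m := lt_trans (by positivity) hm
  have hm1 : 1 ≤ m := by exact_mod_cast hm0
  have hmε : Real.pi / m ≤ ε / 2 := by
    rw [div_lt_iff₀ h1] at hm
    rw [div_le_div_iff₀ hm0 (by norm_num)]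
    linarith
  refine ⟨ε / 2, η0, R0, by positivity, h2, h3, fun R a hR => ?_⟩
  have h5 : ∀ᶠ T in atTop, ∀ i ∈ Finset.range m,
      ((Mp T).real {x | a ≤ x ∧ x ≤ a + R ∧
        ε ≤ |Real.sin (Real.pi * θ * (x - i / (m * θ)))|} ≤ η0 * R →
      1 - η ≤ ∫ α in (θ - δ)..(θ + δ), Fr T α) := by
    rw [Filter.eventually_all_finset]
    intro i _
    exact h4 R a _ hR
  filter_upwards [h5] with T hT b hb
  have hfin := Mp_fin T
  obtain ⟨i, hi, hx⟩ := net_sin hθ hm1 b
  have g1 := hT i (Finset.mem_range.2 hi)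
  have g2 : η0 * R < (Mp T).real {x | a ≤ x ∧ x ≤ a + R ∧
      ε ≤ |Real.sin (Real.pi * θ * (x - i / (m * θ)))|} := by
    by_contra hcon
    push Not at hcon
    linarith [g1 hcon]
  refine g2.trans_le ?_
  apply measureReal_mono
  · rintro x ⟨k1, k2, k3⟩
    refine ⟨k1, k2, ?_⟩
    have := hx x
    linarith
  · exact measure_ne_top _ _

/-- **far windows see the pairs away from the cosets of the lattice** -/
theorem far_defect (RH : RiemannHypothesis) (hθ : 0 < θ) (hθ2 : θ < 2) :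
    ∃ ε η R0 : ℝ, 0 < ε ∧ 0 < η ∧ 0 < R0 ∧ ∀ R a : ℝ, R0 ≤ R → ∀ᶠ T in atTop, ∀ b : ℝ,
    η * R < (Mp T).real {x | a ≤ x ∧ x ≤ a + R ∧ ε ≤ |Real.sin (Real.pi * θ * (x - b))|} := by
  obtain ⟨δ, hδ, h1⟩ := mass_defect RH hθ hθ2
  obtain ⟨ε, η, R0, h2, h3, h4, h5⟩ := far_unif2 RH hθ hδ hδ
  refine ⟨ε, η, R0, h2, h3, h4, fun R a hR => ?_⟩
  filter_upwards [h1, h5 R a hR] with T g1 g2 b
  exact g2 b g1

/-- a positive proportion of the spacings is away from the lattice -/
theorem gap_defect (RH : RiemannHypothesis) (hθ : 0 < θ) (hθ2 : θ < 2) :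
    ∃ ε : ℝ, 0 < ε ∧ ∀ᶠ T in atTop,
    ε * NZ T < (((II T).filter (fun j => ε ≤ |Real.sin (Real.pi * θ * dj j)|)).card : ℝ) := by
  by_contra hcon
  push Not at hcon
  have h1 : ∀ n : ℕ, ∃ T : ℝ, (n : ℝ) ≤ T ∧
      (((II T).filter (fun j => 1 / ((n : ℝ) + 1) ≤ |Real.sin (Real.pi * θ * dj j)|)).card : ℝ) ≤
      1 / ((n : ℝ) + 1) * NZ T := by
    intro n
    have h2 := hcon (1 / ((n : ℝ) + 1)) (by positivity)
    obtain ⟨T, h4, h5⟩ := (h2.and_eventually (eventually_ge_atTop (n : ℝ))).exists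
    exact ⟨T, h5, h4⟩
  choose s hs using h1
  have hl : map s atTop ≤ atTop := seq_le fun n => (hs n).1
  have : SinFew (map s atTop) θ := by
    intro δ η hδ hη
    rw [eventually_map]
    obtain ⟨n0, hn0⟩ := exists_nat_gt (max (1 / δ) (1 / η))
    filter_upwards [eventually_ge_atTop n0] with n hn
    have hn' : (n0 : ℝ) ≤ n := by exact_mod_cast hn
    have g1 : 1 / ((n : ℝ) + 1) ≤ δ := by
      have : 1 / δ ≤ n := ((le_max_left _ _).trans hn0.le).trans hn'
      rw [div_le_iff₀ hδ] at this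
      rw [div_le_iff₀ (by positivity)]
      nlinarith
    have g2 : 1 / ((n : ℝ) + 1) ≤ η := by
      have : 1 / η ≤ n := ((le_max_right _ _).trans hn0.le).trans hn'
      rw [div_le_iff₀ hη] at this
      rw [div_le_iff₀ (by positivity)]
      nlinarith
    have g3 := (hs n).2
    have g4 : (((II (s n)).filter (fun j => δ ≤ |Real.sin (Real.pi * θ * dj j)|)).card : ℝ) ≤
        (((II (s n)).filter (fun j => 1 / ((n : ℝ) + 1) ≤
          |Real.sin (Real.pi * θ * dj j)|)).card : ℝ) := by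
      refine Nat.cast_le.2 (Finset.card_le_card ?_)
      intro j hj
      rw [Finset.mem_filter] at hj ⊢
      exact ⟨hj.1, g1.trans hj.2⟩
    have g5 : 1 / ((n : ℝ) + 1) * (NZ (s n) : ℝ) ≤ η * NZ (s n) := by gcongr
    linarith
  exact no_pair RH hθ hθ2 hl (sin_pair RH hl hθ this)

end Pool.Agent.Y749.AH
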