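import Pool.Agent.Y749.AH.Mass2

/-! # Pairs in far windows determine the mass of the form factor -/

set_option autoImplicit false

open MeasureTheory Set Filter Topology
open scoped NNReal ENNReal

namespace Pool.Agent.Y749.AH

open Pool.Agent.Y749.Rig

variable {l : Filter ℝ} {θ : ℝ}

/-- almost all pairs in some long window are near a coset of the lattice -/
def FarL (l : Filter ℝ) (θ : ℝ) : Prop := ∀ ε η R0 : ℝ, 0 < ε → 0 < η → 0 < R0 →
  ∃ R : ℝ, R0 ≤ R ∧ ∃ a b : ℝ, ∀ᶠ T in l,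
    (Mp T).real {x | a ≤ x ∧ x ≤ a + R ∧ ε ≤ |Real.sin (Real.pi * θ * (x - b))|} ≤ η * R

lemma DD_le {n : ℕ} (hn : 1 ≤ n) : DD n ≤ 2 / n := by
  unfold DD
  have hn' : (1 : ℝ) ≤ n := by exact_mod_cast hn
  refine Real.tsum_le_of_sum_range_le (fun k => by positivity) fun N => ?_
  have key : ∀ N : ℕ, ∑ k ∈ Finset.range N, 1 / (1 + ((k + n : ℕ) : ℝ) ^ 2) ≤
      1 / ((n : ℝ) - 1 / 2) - 1 / ((N : ℝ) + n - 1 / 2) := by
    intro N
    induction N with
    | zero => simp
    | succ N ih =>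
      rw [Finset.sum_range_succ]
      have hN : (0 : ℝ) ≤ N := Nat.cast_nonneg N
      have h1 : 1 / (1 + ((N + n : ℕ) : ℝ) ^ 2) ≤
          1 / ((N : ℝ) + n - 1 / 2) - 1 / (((N + 1 : ℕ) : ℝ) + n - 1 / 2) := by
        push_cast
        rw [div_sub_div _ _ (by linarith) (by linarith), div_le_div_iff₀ (by positivity) (by
          apply mul_pos <;> linarith)]
        nlinarith
      linarith
  refine (key N).trans ?_
  have hN : (0 : ℝ) ≤ N := Nat.cast_nonneg N
  have h1 : 0 ≤ 1 / ((N : ℝ) + n - 1 / 2) := by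
    apply div_nonneg zero_le_one
    linarith
  have h2 : 1 / ((n : ℝ) - 1 / 2) ≤ 2 / n := by
    rw [div_le_div_iff₀ (by linarith) (by linarith)]
    linarith
  linarith

/-- the tent times a cosine -/
noncomputable def ct (h c α : ℝ) : ℝ := tr h α * Real.cos (2 * Real.pi * c * α)

lemma ct_cont (h c : ℝ) : Continuous (ct h c) := by
  unfold ct
  have := tr_cont h
  fun_prop

lemma ct_int {h : ℝ} (hh : 0 < h) (c : ℝ) : Integrable (ct h c) := by
  refine (ct_cont h c).integrable_of_hasCompactSupport ?_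
  exact (adm_tr hh).hcs.mul_right

lemma ct_abs {h : ℝ} (hh : 0 < h) (c α : ℝ) : |ct h c α| ≤ tr h α := by
  unfold ct
  rw [abs_mul, abs_of_nonneg (tr_nonneg hh α)]
  calc tr h α * |Real.cos (2 * Real.pi * c * α)| ≤ tr h α * 1 := by
        gcongr
        · exact tr_nonneg hh α
        · exact Real.abs_cos_le_one _
    _ = tr h α := mul_one _

lemma fl_ct {h : ℝ} (hh : 0 < h) (c x : ℝ) :
    fl (ct h c) x = (fl (tr h) (x - c) + fl (tr h) (x + c)) / 2 := by
  have hi : ∀ y : ℝ, Integrable fun α => tr h α * Real.cos (2 * Real.pi * α * y) := by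
    intro y
    refine (tr_int hh).mul_bdd (c := 1) ?_ (ae_of_all _ fun β => ?_)
    · have : Continuous fun β : ℝ => Real.cos (2 * Real.pi * β * y) := by fun_prop
      exact this.aestronglyMeasurable
    · rw [Real.norm_eq_abs]
      exact Real.abs_cos_le_one _
  unfold fl
  rw [← integral_add (hi _) (hi _), ← integral_div]
  refine integral_congr_ae (ae_of_all _ fun α => ?_)
  show ct h c α * Real.cos (2 * Real.pi * α * x) =
    (tr h α * Real.cos (2 * Real.pi * α * (x - c)) +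
      tr h α * Real.cos (2 * Real.pi * α * (x + c))) / 2
  unfold ct
  rw [show 2 * Real.pi * α * (x - c) = 2 * Real.pi * α * x - 2 * Real.pi * c * α by ring,
    show 2 * Real.pi * α * (x + c) = 2 * Real.pi * α * x + 2 * Real.pi * c * α by ring,
    Real.cos_add, Real.cos_sub]
  ring

/-- shifts of functions of quadratic decay -/
lemma qd_shift {f : ℝ → ℝ} (hf : QD f) (c : ℝ) : QD fun x => f (x - c) := by
  obtain ⟨B, hB⟩ := hf
  have hB0 : 0 ≤ B := by
    have := (abs_nonneg _).trans (hB 0)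
    simpa using this
  refine ⟨2 * (1 + c ^ 2) * B, fun x => (hB (x - c)).trans ?_⟩
  rw [div_le_div_iff₀ (by positivity) (by positivity)]
  have h1 : 1 + x ^ 2 ≤ 2 * (1 + c ^ 2) * (1 + (x - c) ^ 2) := by
    nlinarith [sq_nonneg (x - c - c), sq_nonneg (c * (x - c)), sq_nonneg (x - 2 * c)]
  nlinarith [mul_le_mul_of_nonneg_left h1 hB0]

lemma qd_ct {h : ℝ} (hh : 0 < h) (c : ℝ) : QD (fl (ct h c)) := by
  have h1 := qd_shift (fl_qd (adm_tr hh)) c
  have h2 := qd_shift (fl_qd (adm_tr hh)) (-c)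
  have h3 := qd_add h1 h2
  obtain ⟨B, hB⟩ := h3
  refine ⟨B, fun x => ?_⟩
  have h4 : |fl (tr h) (x - c) + fl (tr h) (x - -c)| ≤ B / (1 + x ^ 2) := hB x
  rw [sub_neg_eq_add] at h4
  rw [fl_ct hh]
  refine le_trans ?_ h4
  rw [abs_div, abs_of_pos (show (0 : ℝ) < 2 by norm_num)]
  have := abs_nonneg (fl (tr h) (x - c) + fl (tr h) (x + c))
  linarith

lemma tr_sin {h : ℝ} (y : ℝ) : ∫ β, tr h β * Real.sin (2 * Real.pi * β * y) = 0 := by
  have h1 := integral_neg_eq_self (fun β => tr h β * Real.sin (2 * Real.pi * β * y)) volume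
  have h2 : ∀ β : ℝ, tr h (-β) * Real.sin (2 * Real.pi * (-β) * y) =
      -(tr h β * Real.sin (2 * Real.pi * β * y)) := by
    intro β
    rw [tr_even, show 2 * Real.pi * (-β) * y = -(2 * Real.pi * β * y) by ring, Real.sin_neg]
    ring
  simp_rw [h2] at h1
  rw [integral_neg] at h1
  linarith

lemma tr_phase {h : ℝ} (hh : 0 < h) (y ψ : ℝ) :
    ∫ β, tr h β * Real.cos (2 * Real.pi * β * y + ψ) = Real.cos ψ * fl (tr h) y := by
  have hi : Integrable fun α => tr h α * Real.cos (2 * Real.pi * α * y) := by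
    refine (tr_int hh).mul_bdd (c := 1) ?_ (ae_of_all _ fun β => ?_)
    · have : Continuous fun β : ℝ => Real.cos (2 * Real.pi * β * y) := by fun_prop
      exact this.aestronglyMeasurable
    · rw [Real.norm_eq_abs]
      exact Real.abs_cos_le_one _
  have hi2 : Integrable fun α => tr h α * Real.sin (2 * Real.pi * α * y) := by
    refine (tr_int hh).mul_bdd (c := 1) ?_ (ae_of_all _ fun β => ?_)
    · have : Continuous fun β : ℝ => Real.sin (2 * Real.pi * β * y) := by fun_prop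
      exact this.aestronglyMeasurable
    · rw [Real.norm_eq_abs]
      exact Real.abs_sin_le_one _
  have e1 : ∀ β, tr h β * Real.cos (2 * Real.pi * β * y + ψ) =
      Real.cos ψ * (tr h β * Real.cos (2 * Real.pi * β * y)) -
      Real.sin ψ * (tr h β * Real.sin (2 * Real.pi * β * y)) := by
    intro β
    rw [Real.cos_add]
    ring
  simp_rw [e1]
  rw [integral_sub (hi.const_mul _) (hi2.const_mul _), integral_const_mul, integral_const_mul,
    tr_sin]
  unfold fl
  ring

/-- the shifted tent with a phase -/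
noncomputable def cp (h c θ b α : ℝ) : ℝ :=
  tr h (α - θ) * Real.cos (2 * Real.pi * c * (α - θ) + 2 * Real.pi * θ * b)

lemma cp_cont (h c θ b : ℝ) : Continuous (cp h c θ b) := by
  unfold cp
  have := tr_cont h
  fun_prop

lemma cp_hcs {h : ℝ} (hh : 0 < h) (c θ b : ℝ) : HasCompactSupport (cp h c θ b) := by
  have : HasCompactSupport fun α => tr h (α - θ) :=
    (adm_tr hh).hcs.comp_homeomorph (Homeomorph.subRight θ)
  exact this.mul_right

lemma cp_int {h : ℝ} (hh : 0 < h) (c θ b : ℝ) : Integrable (cp h c θ b) :=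
  (cp_cont h c θ b).integrable_of_hasCompactSupport (cp_hcs hh c θ b)

lemma cp_le {h : ℝ} (hh : 0 < h) (c θ b α : ℝ) : cp h c θ b α ≤ tr h (α - θ) := by
  unfold cp
  calc tr h (α - θ) * Real.cos (2 * Real.pi * c * (α - θ) + 2 * Real.pi * θ * b) ≤
      tr h (α - θ) * 1 := by
        gcongr
        · exact tr_nonneg hh _
        · exact Real.cos_le_one _
    _ = _ := mul_one _

lemma fl_cp {h : ℝ} (hh : 0 < h) (c θ b x : ℝ) : fl (cp h c θ b) x =
    (fl (tr h) (x - c) * Real.cos (2 * Real.pi * θ * (x - b)) +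
      fl (tr h) (x + c) * Real.cos (2 * Real.pi * θ * (x + b))) / 2 := by
  have htc := tr_cont h
  have hi : ∀ y ψ : ℝ, Integrable fun α => tr h α * Real.cos (2 * Real.pi * α * y + ψ) := by
    intro y ψ
    refine (tr_int hh).mul_bdd (c := 1) ?_ (ae_of_all _ fun β => ?_)
    · have : Continuous fun β : ℝ => Real.cos (2 * Real.pi * β * y + ψ) := by fun_prop
      exact this.aestronglyMeasurable
    · rw [Real.norm_eq_abs]
      exact Real.abs_cos_le_one _
  have e0 : fl (cp h c θ b) x = ∫ β, tr h β *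
      Real.cos (2 * Real.pi * c * β + 2 * Real.pi * θ * b) *
      Real.cos (2 * Real.pi * (β + θ) * x) := by
    unfold fl
    rw [← integral_sub_right_eq_self (fun β => tr h β *
      Real.cos (2 * Real.pi * c * β + 2 * Real.pi * θ * b) *
      Real.cos (2 * Real.pi * (β + θ) * x)) θ]
    refine integral_congr_ae (ae_of_all _ fun α => ?_)
    show cp h c θ b α * Real.cos (2 * Real.pi * α * x) = tr h (α - θ) *
      Real.cos (2 * Real.pi * c * (α - θ) + 2 * Real.pi * θ * b) *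
      Real.cos (2 * Real.pi * (α - θ + θ) * x)
    rw [sub_add_cancel]
    rfl
  have e1 : ∀ β, tr h β * Real.cos (2 * Real.pi * c * β + 2 * Real.pi * θ * b) *
      Real.cos (2 * Real.pi * (β + θ) * x) =
      (1 / 2) * (tr h β * Real.cos (2 * Real.pi * β * (x - c) + 2 * Real.pi * θ * (x - b))) +
      (1 / 2) * (tr h β * Real.cos (2 * Real.pi * β * (x + c) + 2 * Real.pi * θ * (x + b))) := by
    intro β
    have g1 : 2 * Real.pi * β * (x - c) + 2 * Real.pi * θ * (x - b) =
        2 * Real.pi * (β + θ) * x - (2 * Real.pi * c * β + 2 * Real.pi * θ * b) := by ring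
    have g2 : 2 * Real.pi * β * (x + c) + 2 * Real.pi * θ * (x + b) =
        2 * Real.pi * (β + θ) * x + (2 * Real.pi * c * β + 2 * Real.pi * θ * b) := by ring
    rw [g1, g2, Real.cos_sub (2 * Real.pi * (β + θ) * x), Real.cos_add (2 * Real.pi * (β + θ) * x)]
    ring
  rw [e0]
  simp_rw [e1]
  rw [integral_add ((hi _ _).const_mul _) ((hi _ _).const_mul _), integral_const_mul,
    integral_const_mul, tr_phase hh, tr_phase hh]
  ring

lemma qd_cp {h : ℝ} (hh : 0 < h) (c θ b : ℝ) : QD (fl (cp h c θ b)) := by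
  have h1 := qd_mul_bdd (g := fun x => Real.cos (2 * Real.pi * θ * (x - b)))
    (qd_shift (fl_qd (adm_tr hh)) c) fun x => Real.abs_cos_le_one _
  have h2 := qd_mul_bdd (g := fun x => Real.cos (2 * Real.pi * θ * (x + b)))
    (qd_shift (fl_qd (adm_tr hh)) (-c)) fun x => Real.abs_cos_le_one _
  have h3 := qd_add h1 h2
  obtain ⟨B, hB⟩ := h3
  refine ⟨B, fun x => ?_⟩
  have h4 : |fl (tr h) (x - c) * Real.cos (2 * Real.pi * θ * (x - b)) +
      fl (tr h) (x - -c) * Real.cos (2 * Real.pi * θ * (x + b))| ≤ B / (1 + x ^ 2) := hB x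
  rw [sub_neg_eq_add] at h4
  rw [fl_cp hh]
  refine le_trans ?_ h4
  rw [abs_div, abs_of_pos (show (0 : ℝ) < 2 by norm_num)]
  have := abs_nonneg (fl (tr h) (x - c) * Real.cos (2 * Real.pi * θ * (x - b)) +
    fl (tr h) (x + c) * Real.cos (2 * Real.pi * θ * (x + b)))
  linarith

/-- translated measures -/
lemma bdd_map {C : ℝ} {μ : Measure ℝ} (h : Bdd C μ) (c : ℝ) : Bdd C (μ.map fun x => x - c) := by
  intro a
  rw [Measure.map_apply (by fun_prop) measurableSet_Icc]
  have e : (fun x : ℝ => x - c) ⁻¹' Icc a (a + 1) = Icc (a + c) (a + c + 1) := by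
    ext x
    simp only [mem_preimage, mem_Icc]
    constructor <;> rintro ⟨h1, h2⟩ <;> constructor <;> linarith
  rw [e]
  exact h _

/-- the kernel decays -/
lemma tr_dec {h : ℝ} (hh : 0 < h) {y : ℝ} (hy : 1 ≤ |y|) :
    fl (tr h) y ≤ 1 / (4 * h ^ 2) * (1 / (1 + y ^ 2)) := by
  have hy0 : y ≠ 0 := by
    intro h0
    rw [h0, abs_zero] at hy
    linarith
  have hy2 : 1 ≤ y ^ 2 := by
    rw [← sq_abs]
    nlinarith
  rw [fl_tr hh hy0, div_pow]
  have hpi3 := Real.pi_gt_three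
  have h1 := Real.sin_sq_le_one (Real.pi * h * y)
  rw [div_mul_div_comm, div_le_div_iff₀ (by positivity) (by positivity)]
  have h2 : 4 * h ^ 2 * (1 + y ^ 2) ≤ (Real.pi * h * y) ^ 2 := by
    have h3 : (9 : ℝ) ≤ Real.pi ^ 2 := by nlinarith
    have h4 : (Real.pi * h * y) ^ 2 = h ^ 2 * (Real.pi ^ 2 * y ^ 2) := by ring
    rw [h4]
    have h5 : 4 * (1 + y ^ 2) ≤ Real.pi ^ 2 * y ^ 2 := by nlinarith
    nlinarith [sq_nonneg h, mul_le_mul_of_nonneg_left h5 (sq_nonneg h)]
  have h6 : 0 ≤ 4 * h ^ 2 * (1 + y ^ 2) := by positivity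
  nlinarith

/-- the tail of the shifted kernel -/
lemma shift_tail {C T h : ℝ} (hC : 0 ≤ C) (hB : Bdd C (Mp T)) (hh : 0 < h) (c : ℝ) {n : ℕ}
    (hn : 1 ≤ n) :
    ∫ x in {x : ℝ | (n : ℝ) ≤ |x - c|}, fl (tr h) (x - c) ∂(Mp T) ≤ C / (h ^ 2 * n) := by
  have hfin := Mp_fin T
  have hn' : (1 : ℝ) ≤ n := by exact_mod_cast hn
  obtain ⟨ν, hν⟩ : ∃ ν : Measure ℝ, ν = (Mp T).map fun x => x - c := ⟨_, rfl⟩
  have hνB : Bdd C ν := by rw [hν]; exact bdd_map hB c
  have hS : MeasurableSet {x : ℝ | (n : ℝ) ≤ |x|} :=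
    measurableSet_le measurable_const continuous_abs.measurable
  have hk : Continuous (fl (tr h)) := fl_cont (tr_int hh)
  have e1 : ∫ x in {x : ℝ | (n : ℝ) ≤ |x - c|}, fl (tr h) (x - c) ∂(Mp T) =
      ∫ y in {x : ℝ | (n : ℝ) ≤ |x|}, fl (tr h) y ∂ν := by
    rw [hν, setIntegral_map hS hk.aestronglyMeasurable (by fun_prop)]
    rfl
  rw [e1]
  have i0 : Integrable (fun x : ℝ => 1 / (1 + x ^ 2)) ν := by
    have hfm : IsFiniteMeasure ν := by rw [hν]; infer_instance
    refine Bdd.integrable hC hνB inv_cont ⟨1, fun x => ?_⟩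
    rw [abs_of_pos (by positivity)]
  have i1 : Integrable (fl (tr h)) ν := by
    have hfm : IsFiniteMeasure ν := by rw [hν]; infer_instance
    exact Bdd.integrable hC hνB hk (fl_qd (adm_tr hh))
  have h1 : ∫ y in {x : ℝ | (n : ℝ) ≤ |x|}, fl (tr h) y ∂ν ≤
      ∫ y in {x : ℝ | (n : ℝ) ≤ |x|}, 1 / (4 * h ^ 2) * (1 / (1 + y ^ 2)) ∂ν := by
    refine setIntegral_mono_on i1.integrableOn (i0.const_mul _).integrableOn hS fun y hy => ?_
    exact tr_dec hh (hn'.trans hy)
  rw [integral_const_mul] at h1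
  have h2 : ∫ y in {x : ℝ | (n : ℝ) ≤ |x|}, 1 / (1 + y ^ 2) ∂ν ≤ 2 * C * DD n := by
    have h3 := lint_le hC hνB n
    rw [integral_eq_lintegral_of_nonneg_ae (ae_of_all _ fun x => by positivity)
      i0.aestronglyMeasurable.restrict]
    have h4 : 0 ≤ 2 * C * DD n := by
      have := DD_nonneg n
      positivity
    exact ENNReal.toReal_le_of_le_ofReal h4 h3
  refine h1.trans ?_
  calc 1 / (4 * h ^ 2) * ∫ y in {x : ℝ | (n : ℝ) ≤ |x|}, 1 / (1 + y ^ 2) ∂ν ≤
      1 / (4 * h ^ 2) * (2 * C * (2 / n)) := by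
        gcongr
        exact h2.trans (by gcongr; exact DD_le hn)
    _ = C / (h ^ 2 * n) := by
      field_simp
      ring

end Pool.Agent.Y749.AH
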