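import Pool.Agent.Y749.AH.Far

/-! # Pairs in far windows determine the mass of the form factor: conclusion -/

set_option autoImplicit false

open MeasureTheory Set Filter Topology
open scoped NNReal ENNReal

namespace Pool.Agent.Y749.AH

open Pool.Agent.Y749.Rig

variable {l : Filter ℝ} {θ : ℝ}

lemma trFr_int {h : ℝ} (hh : 0 < h) (T : ℝ) : Integrable fun α => tr h α * Fr T α := by
  have hFc := Fr_cont T
  have htc := tr_cont h
  refine Continuous.integrable_of_hasCompactSupport (by fun_prop) ?_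
  exact (adm_tr hh).hcs.mul_right

lemma ctFr_int {h : ℝ} (hh : 0 < h) (c T : ℝ) : Integrable fun α => ct h c α * Fr T α := by
  have hFc := Fr_cont T
  have htc := ct_cont h c
  refine Continuous.integrable_of_hasCompactSupport (by fun_prop) ?_
  have : HasCompactSupport (ct h c) := (adm_tr hh).hcs.mul_right
  exact this.mul_right

lemma ct_le_tr {h c T : ℝ} (hh : 0 < h) (hT : 10 ≤ T) :
    ∫ α, ct h c α * Fr T α ≤ ∫ α, tr h α * Fr T α := by
  refine integral_mono (ctFr_int hh c T) (trFr_int hh T) fun α => ?_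
  exact mul_le_mul_of_nonneg_right ((le_abs_self _).trans (ct_abs hh c α)) (Fr_nonneg hT α)

/-- the modulated tent sees the mass at the origin -/
lemma ct_low (RH : RiemannHypothesis) {h : ℝ} (hh : 0 < h) (hh1 : h ≤ 1 / 8) (c : ℝ) :
    ∀ᶠ T in atTop, 1 / h - 11 * h ≤ ∫ α, ct h c α * Fr T α ∧
      ∫ α, tr h α * Fr T α ≤ 1 / h + 2 * h := by
  obtain ⟨δ, hδ⟩ : ∃ δ : ℝ, δ = min (h ^ 3) (h / (5 * (|c| + 1))) := ⟨_, rfl⟩
  have hδ0 : 0 < δ := by rw [hδ]; exact lt_min (by positivity) (by positivity)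
  have hδ3 : δ ≤ h ^ 3 := by rw [hδ]; exact min_le_left _ _
  have hδc : |c| * δ ≤ h / 5 := by
    have h1 : δ ≤ h / (5 * (|c| + 1)) := by rw [hδ]; exact min_le_right _ _
    rw [le_div_iff₀ (by positivity)] at h1
    have := abs_nonneg c
    nlinarith
  have hδh : δ ≤ h := by nlinarith [sq_nonneg h]
  have t1 := Fr_lim (tr_int hh) (fl_qd (adm_tr hh)) le_rfl
    (test_limRH RH (adm_tr hh) hh (by linarith))
  have t2 := Fr_lim (tr_int hδ0) (fl_qd (adm_tr hδ0)) le_rfl
    (test_limRH RH (adm_tr hδ0) hδ0 (by linarith))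
  have c1 := cc_tr_le hh
  have c2 := cc_tr_le hδ0
  filter_upwards [t1.eventually (ge_mem_nhds (show cc (tr h) < cc (tr h) + h by linarith)),
    t1.eventually (le_mem_nhds (show cc (tr h) - h < cc (tr h) by linarith)),
    t2.eventually (le_mem_nhds (show cc (tr δ) - h ^ 2 < cc (tr δ) by
      have : 0 < h ^ 2 := by positivity
      linarith)), eventually_ge_atTop 10] with T h1 h2 h3 hT
  have hFc := Fr_cont T
  have hF0 := Fr_nonneg hT
  have hup : ∫ α, tr h α * Fr T α ≤ 1 / h + 2 * h := by linarith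
  refine ⟨?_, hup⟩
  -- the mass near the origin
  have m1 := tent_up (θ := 0) hδ0 hT
  simp only [sub_zero] at m1
  have m2 : 1 - h ^ 2 ≤ ∫ α in (0 - δ)..(0 + δ), Fr T α := by
    refine le_trans ?_ m1
    have h4 : δ * (1 / δ - h ^ 2) ≤ δ * ∫ α, tr δ α * Fr T α := by
      gcongr
      linarith
    have h5 : δ * (1 / δ - h ^ 2) = 1 - δ * h ^ 2 := by field_simp
    have h6 : δ * h ^ 2 ≤ 1 * h ^ 2 := by
      gcongr
      linarith
    linarith
  -- the difference
  have itr := trFr_int hh T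
  have ict := ctFr_int hh c T
  have htc := tr_cont h
  have hS : MeasurableSet (Ioc (-δ) δ) := measurableSet_Ioc
  have hD : (∫ α, tr h α * Fr T α) - (∫ α, ct h c α * Fr T α) ≤
      h ^ 2 * (∫ α, tr h α * Fr T α) + 2 * ((∫ α, tr h α * Fr T α) -
        ∫ α in Ioc (-δ) δ, tr h α * Fr T α) := by
    rw [← integral_sub itr ict]
    have e1 : (∫ α, tr h α * Fr T α) - (∫ α in Ioc (-δ) δ, tr h α * Fr T α) =
        ∫ α in (Ioc (-δ) δ)ᶜ, tr h α * Fr T α := by
      rw [← integral_add_compl hS itr]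
      ring
    rw [e1, ← integral_const_mul, ← integral_indicator hS.compl, ← integral_const_mul,
      ← integral_add (itr.const_mul _) ((itr.indicator hS.compl).const_mul _)]
    refine integral_mono (itr.sub ict) ((itr.const_mul _).add
      ((itr.indicator hS.compl).const_mul _)) fun α => ?_
    show tr h α * Fr T α - ct h c α * Fr T α ≤ h ^ 2 * (tr h α * Fr T α) +
      2 * (Ioc (-δ) δ)ᶜ.indicator (fun α => tr h α * Fr T α) α
    have g0 : 0 ≤ tr h α * Fr T α := mul_nonneg (tr_nonneg hh α) (hF0 α)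
    by_cases hα : α ∈ Ioc (-δ) δ
    · rw [indicator_of_notMem (by simpa using hα)]
      have g1 : 1 - Real.cos (2 * Real.pi * c * α) ≤ h ^ 2 := by
        have g2 := Real.one_sub_sq_div_two_le_cos (x := 2 * Real.pi * c * α)
        have g3 : |α| ≤ δ := abs_le.2 ⟨hα.1.le, hα.2⟩
        have g4 : |2 * Real.pi * c * α| ≤ 2 * 3.15 * (h / 5) := by
          rw [abs_mul, abs_mul, abs_mul, abs_of_pos Real.pi_pos, abs_two]
          have hpi := Real.pi_lt_d2
          calc 2 * Real.pi * |c| * |α| = 2 * Real.pi * (|c| * |α|) := by ring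
            _ ≤ 2 * 3.15 * (|c| * δ) := by gcongr
            _ ≤ 2 * 3.15 * (h / 5) := by gcongr
        have g5 : (2 * Real.pi * c * α) ^ 2 ≤ (2 * 3.15 * (h / 5)) ^ 2 := by
          rw [← sq_abs]
          exact pow_le_pow_left₀ (abs_nonneg _) g4 2
        nlinarith [sq_nonneg h]
      unfold ct
      have g6 : tr h α * Fr T α - tr h α * Real.cos (2 * Real.pi * c * α) * Fr T α =
          (1 - Real.cos (2 * Real.pi * c * α)) * (tr h α * Fr T α) := by ring
      rw [g6, mul_zero, add_zero]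
      exact mul_le_mul_of_nonneg_right g1 g0
    · rw [indicator_of_mem (by simpa using hα)]
      have g1 : -(tr h α * Fr T α) ≤ ct h c α * Fr T α := by
        rw [← neg_mul]
        apply mul_le_mul_of_nonneg_right _ (hF0 α)
        have := ct_abs hh c α
        linarith [neg_abs_le (ct h c α)]
      have g2 : 0 ≤ h ^ 2 * (tr h α * Fr T α) := by positivity
      linarith
  have hlow : (1 - h ^ 2) / h * (1 - h ^ 2) ≤ ∫ α in Ioc (-δ) δ, tr h α * Fr T α := by
    have g1 : (1 - h ^ 2) / h * ∫ α in (0 - δ)..(0 + δ), Fr T α ≤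
        ∫ α in Ioc (-δ) δ, tr h α * Fr T α := by
      rw [zero_sub, zero_add, intervalIntegral.integral_of_le (by linarith), ← integral_const_mul]
      refine setIntegral_mono_on ?_ itr.integrableOn hS fun α hα => ?_
      · have : Continuous fun α => (1 - h ^ 2) / h * Fr T α := by fun_prop
        exact this.continuousOn.integrableOn_Icc.mono_set Ioc_subset_Icc_self
      · apply mul_le_mul_of_nonneg_right _ (hF0 α)
        have ha : |α| ≤ δ := abs_le.2 ⟨hα.1.le, hα.2⟩
        unfold tr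
        have g2 : |α| / h ≤ h ^ 2 := by
          rw [div_le_iff₀ hh]
          calc |α| ≤ h ^ 3 := ha.trans hδ3
            _ = h ^ 2 * h := by ring
        have g3 : h ^ 2 ≤ 1 := by nlinarith
        rw [max_eq_right (by linarith)]
        gcongr
    refine le_trans ?_ g1
    apply mul_le_mul_of_nonneg_left m2
    apply div_nonneg _ hh.le
    nlinarith
  have hlow2 : 1 / h - 2 * h ≤ ∫ α in Ioc (-δ) δ, tr h α * Fr T α := by
    refine le_trans ?_ hlow
    have e : (1 - h ^ 2) / h * (1 - h ^ 2) = 1 / h - 2 * h + h ^ 3 := by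
      field_simp
      ring
    rw [e]
    have : 0 < h ^ 3 := by positivity
    linarith
  have h7 : h ^ 2 * ∫ α, tr h α * Fr T α ≤ h ^ 2 * (1 / h + 2 * h) := by gcongr
  have h8 : h ^ 2 * (1 / h + 2 * h) = h + 2 * h ^ 3 := by field_simp
  have h9 : 2 * h ^ 3 ≤ h := by nlinarith [sq_nonneg h]
  have h10 : cc (tr h) - h ≤ ∫ α, tr h α * Fr T α := h2
  linarith

/-- **far windows**: one long window anywhere bounds the mass from below -/
theorem far_unif (RH : RiemannHypothesis) (θ : ℝ) {δ η : ℝ} (hδ : 0 < δ) (hη : 0 < η) :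
    ∃ ε0 η0 R0 : ℝ, 0 < ε0 ∧ 0 < η0 ∧ 0 < R0 ∧ ∀ R a b : ℝ, R0 ≤ R → ∀ᶠ T in atTop,
    (Mp T).real {x | a ≤ x ∧ x ≤ a + R ∧ ε0 ≤ |Real.sin (Real.pi * θ * (x - b))|} ≤ η0 * R →
    1 - η ≤ ∫ α in (θ - δ)..(θ + δ), Fr T α := by
  obtain ⟨C, hC, hB⟩ := Mp_bdd
  have hC0 : 0 < C := by linarith
  obtain ⟨e, he⟩ : ∃ e : ℝ, e = min η 1 := ⟨_, rfl⟩
  have he0 : 0 < e := by rw [he]; exact lt_min hη one_pos
  have heη : e ≤ η := by rw [he]; exact min_le_left _ _
  have he1 : e ≤ 1 := by rw [he]; exact min_le_right _ _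
  obtain ⟨K, hK⟩ : ∃ K : ℝ, K = 32 * C / e := ⟨_, rfl⟩
  have hK0 : 0 < K := by rw [hK]; positivity
  have hKe : K * e = 32 * C := by rw [hK]; field_simp
  refine ⟨e / 8, e / (32 * K), K / δ + 8 * K / e + 4, by positivity, by positivity,
    by positivity, fun R a b hR0 => ?_⟩
  have hR4 : 4 ≤ R := by
    have h1 : 0 < K / δ := by positivity
    have h2 : 0 < 8 * K / e := by positivity
    linarith
  have hRp : 0 < R := by linarith
  obtain ⟨h, hh⟩ : ∃ h : ℝ, h = K / R := ⟨_, rfl⟩
  have hh0 : 0 < h := by rw [hh]; positivity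
  have hhR : h * R = K := by rw [hh]; field_simp
  have hhδ : h ≤ δ := by
    rw [hh, div_le_iff₀ hRp]
    have h1 : K / δ ≤ R := by
      have : 0 < 8 * K / e := by positivity
      linarith
    rw [div_le_iff₀ hδ] at h1
    linarith
  have hhe : h ≤ e / 8 := by
    rw [hh, div_le_iff₀ hRp]
    have h1 : 8 * K / e ≤ R := by
      have : 0 < K / δ := by positivity
      linarith
    rw [div_le_iff₀ he0] at h1
    linarith
  have hh8 : h ≤ 1 / 8 := by linarith
  obtain ⟨c, hc⟩ : ∃ c : ℝ, c = a + R / 2 := ⟨_, rfl⟩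
  obtain ⟨n, hn⟩ : ∃ n : ℕ, n = ⌊R / 2⌋₊ := ⟨_, rfl⟩
  have hnR : (n : ℝ) ≤ R / 2 := by rw [hn]; exact Nat.floor_le (by positivity)
  have hnR2 : R / 4 ≤ n := by
    have := Nat.lt_floor_add_one (R / 2)
    rw [← hn] at this
    linarith
  have hn1 : 1 ≤ n := by
    have : (1 : ℝ) ≤ n := by linarith
    exact_mod_cast this
  have t1 := ww_remove (fl_cont (ct_int hh0 c)) (qd_ct hh0 c)
  have imod : Integrable (cp h c θ b) := cp_int hh0 c θ b
  have qmod : QD (fl (cp h c θ b)) := qd_cp hh0 c θ b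
  have t2 := ww_remove (fl_cont imod) qmod
  filter_upwards [hB, eventually_ge_atTop 10, ct_low RH hh0 hh8 c,
    t1.eventually (le_mem_nhds (show -h < 0 by linarith)),
    t1.eventually (ge_mem_nhds (show 0 < h by linarith)),
    t2.eventually (le_mem_nhds (show -h < 0 by linarith))] with T hBT hT hct g1 g2 g3 hevT
  have hfin := Mp_fin T
  have hFc := Fr_cont T
  have hF0 := Fr_nonneg hT
  obtain ⟨hct1, hct2⟩ := hct
  -- the integrals
  have icT : Integrable (fl (ct h c)) (Mp T) :=
    Bdd.integrable hC0.le hBT (fl_cont (ct_int hh0 c)) (qd_ct hh0 c)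
  have imT : Integrable (fl (cp h c θ b)) (Mp T) :=
    Bdd.integrable hC0.le hBT (fl_cont imod) qmod
  have e1 : ∫ x, fl (ct h c) x * ww (2 * Real.pi * x / Real.log T) ∂(Mp T) =
      ∫ α, ct h c α * Fr T α := (Fr_pair (ct_int hh0 c)).symm
  have e2 : ∫ x, fl (cp h c θ b) x * ww (2 * Real.pi * x / Real.log T) ∂(Mp T) =
      ∫ α, cp h c θ b α * Fr T α := (Fr_pair imod).symm
  rw [e1] at g1 g2
  rw [e2] at g3
  -- the modulated pairing is at most the pairing with the tent
  have h1 : ∫ α, cp h c θ b α * Fr T α ≤ ∫ α, tr h (α - θ) * Fr T α := by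
    have htc := tr_cont h
    have k0 : HasCompactSupport fun α => tr h (α - θ) :=
      (adm_tr hh0).hcs.comp_homeomorph (Homeomorph.subRight θ)
    have hcc := cp_cont h c θ b
    refine integral_mono ?_ ?_ fun α => ?_
    · exact Continuous.integrable_of_hasCompactSupport (by fun_prop) (cp_hcs hh0 c θ b).mul_right
    · exact Continuous.integrable_of_hasCompactSupport (by fun_prop) k0.mul_right
    · exact mul_le_mul_of_nonneg_right (cp_le hh0 c θ b α) (hF0 α)
  -- the pairs away from the lattice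
  obtain ⟨s, hs⟩ : ∃ s : ℝ → ℝ, ∀ x, s x = 2 * Real.sin (Real.pi * θ * (x - b)) ^ 2 := ⟨_, fun x => rfl⟩
  have hs' : s = fun x => 2 * Real.sin (Real.pi * θ * (x - b)) ^ 2 := funext hs
  have hsc : Continuous s := by rw [hs']; fun_prop
  have hs0 : ∀ x, 0 ≤ s x := fun x => by rw [hs]; positivity
  have hs2 : ∀ x, s x ≤ 2 := fun x => by
    rw [hs]
    have := Real.sin_sq_le_one (Real.pi * θ * (x - b))
    linarith
  have e3 : (∫ x, fl (ct h c) x ∂(Mp T)) - (∫ x, fl (cp h c θ b) x ∂(Mp T)) =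
      ∫ x, fl (tr h) (x - c) * s x ∂(Mp T) := by
    rw [← integral_sub icT imT]
    have k1 : ∀ x, fl (ct h c) x - fl (cp h c θ b) x =
        (1 / 2) * (fl (tr h) (x - c) * s x) + (1 / 2) * (fl (tr h) (x + c) * s (-x)) := by
      intro x
      have z1 : 1 - Real.cos (2 * Real.pi * θ * (x + b)) =
          2 * Real.sin (Real.pi * θ * (-x - b)) ^ 2 := by
        rw [one_sub_cos, show Real.pi * θ * (-x - b) = -(Real.pi * θ * (x + b)) by ring,
          Real.sin_neg, neg_sq]
      rw [fl_cp hh0, hs, hs, ← z1, ← one_sub_cos, fl_ct hh0]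
      ring
    simp_rw [k1]
    have q1 : QD fun x => fl (tr h) (x - c) * s x := by
      have h2 := qd_mul_bdd (g := fun x => s x / 2) (qd_shift (fl_qd (adm_tr hh0)) c) fun x => by
        rw [abs_of_nonneg (by have := hs0 x; positivity)]
        linarith [hs2 x]
      obtain ⟨B, hB⟩ := h2
      refine ⟨2 * B, fun x => ?_⟩
      have h3 : |fl (tr h) (x - c) * (s x / 2)| ≤ B / (1 + x ^ 2) := hB x
      have h4 : fl (tr h) (x - c) * s x = 2 * (fl (tr h) (x - c) * (s x / 2)) := by ring
      show |fl (tr h) (x - c) * s x| ≤ 2 * B / (1 + x ^ 2)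
      rw [h4, abs_mul, abs_two, mul_div_assoc]
      linarith
    have hkc : Continuous (fl (tr h)) := fl_cont (tr_int hh0)
    have c1 : Continuous fun x => fl (tr h) (x - c) * s x := by fun_prop
    have i1 : Integrable (fun x => fl (tr h) (x - c) * s x) (Mp T) :=
      Bdd.integrable hC0.le hBT c1 q1
    have ev := Mp_ev hT _ c1 q1
    have k2 : ∀ x, fl (tr h) (-x - c) * s (-x) = fl (tr h) (x + c) * s (-x) := by
      intro x
      rw [show -x - c = -(x + c) by ring, fl_even]
    simp_rw [k2] at ev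
    have i2 : Integrable (fun x => fl (tr h) (x + c) * s (-x)) (Mp T) := by
      have q2 := qd_neg q1
      have c2 : Continuous fun x => fl (tr h) (x + c) * s (-x) := by fun_prop
      refine Bdd.integrable hC0.le hBT c2 ?_
      obtain ⟨B, hB⟩ := q2
      refine ⟨B, fun x => ?_⟩
      have h3 : |fl (tr h) (-x - c) * s (-x)| ≤ B / (1 + x ^ 2) := hB x
      rw [k2] at h3
      exact h3
    rw [integral_add (i1.const_mul _) (i2.const_mul _), integral_const_mul, integral_const_mul, ev]
    ring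
  -- the bound for the right-hand side
  have hkc : Continuous (fl (tr h)) := fl_cont (tr_int hh0)
  have c1 : Continuous fun x => fl (tr h) (x - c) := by fun_prop
  have i1 : Integrable (fun x => fl (tr h) (x - c)) (Mp T) :=
    Bdd.integrable hC0.le hBT c1 (qd_shift (fl_qd (adm_tr hh0)) c)
  have i2 : Integrable (fun x => fl (tr h) (x - c) * s x) (Mp T) := by
    refine i1.mul_bdd (c := 2) hsc.aestronglyMeasurable (ae_of_all _ fun x => ?_)
    rw [Real.norm_eq_abs, abs_of_nonneg (hs0 x)]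
    exact hs2 x
  have e4 : ∫ x, fl (tr h) (x - c) ∂(Mp T) = ∫ x, fl (ct h c) x ∂(Mp T) := by
    have k1 : ∀ x, fl (ct h c) x =
        (1 / 2) * fl (tr h) (x - c) + (1 / 2) * fl (tr h) (x + c) := by
      intro x
      rw [fl_ct hh0]
      ring
    simp_rw [k1]
    have ev := Mp_ev hT _ c1 (qd_shift (fl_qd (adm_tr hh0)) c)
    have k2 : ∀ x, fl (tr h) (-x - c) = fl (tr h) (x + c) := by
      intro x
      rw [show -x - c = -(x + c) by ring, fl_even]
    simp_rw [k2] at ev
    have i3 : Integrable (fun x => fl (tr h) (x + c)) (Mp T) := by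
      have q2 := qd_shift (fl_qd (adm_tr hh0)) (-c)
      simp only [sub_neg_eq_add] at q2
      exact Bdd.integrable hC0.le hBT (by fun_prop) q2
    rw [integral_add (i1.const_mul _) (i3.const_mul _), integral_const_mul, integral_const_mul, ev]
    ring
  have hA : ∫ x, fl (tr h) (x - c) ∂(Mp T) ≤ 2 / h := by
    rw [e4]
    have k1 := ct_le_tr (c := c) hh0 hT
    have k2 : 3 * h ≤ 1 / h := by
      rw [le_div_iff₀ hh0]
      nlinarith
    have k3 : 2 / h = 1 / h + 1 / h := by ring
    linarith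
  have hSw : MeasurableSet {x | a ≤ x ∧ x ≤ a + R ∧ e / 8 ≤ |Real.sin (Real.pi * θ * (x - b))|} := by
    have k1 : Continuous fun x : ℝ => |Real.sin (Real.pi * θ * (x - b))| := by fun_prop
    exact (measurableSet_le measurable_const measurable_id).inter
      ((measurableSet_le measurable_id measurable_const).inter
        (measurableSet_le measurable_const k1.measurable))
  have hSt : MeasurableSet {x : ℝ | (n : ℝ) ≤ |x - c|} := by
    have k1 : Continuous fun x : ℝ => |x - c| := by fun_prop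
    exact measurableSet_le measurable_const k1.measurable
  have hW : ∫ x, fl (tr h) (x - c) * s x ∂(Mp T) ≤ 2 * (e / 8) ^ 2 * (2 / h) +
      (2 * (e / (32 * K) * R) + 2 * (C / (h ^ 2 * n))) := by
    have k1 : ∫ x, fl (tr h) (x - c) * s x ∂(Mp T) ≤
        ∫ x, (2 * (e / 8) ^ 2 * fl (tr h) (x - c) +
          ({x | a ≤ x ∧ x ≤ a + R ∧ e / 8 ≤ |Real.sin (Real.pi * θ * (x - b))|}.indicator
            (fun _ => (2 : ℝ)) x +
          2 * {x : ℝ | (n : ℝ) ≤ |x - c|}.indicator (fun x => fl (tr h) (x - c)) x)) ∂(Mp T) := by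
      refine integral_mono i2 ((i1.const_mul _).add (((integrable_const _).indicator hSw).add
        ((i1.indicator hSt).const_mul _))) fun x => ?_
      show fl (tr h) (x - c) * s x ≤ 2 * (e / 8) ^ 2 * fl (tr h) (x - c) +
          ({x | a ≤ x ∧ x ≤ a + R ∧ e / 8 ≤ |Real.sin (Real.pi * θ * (x - b))|}.indicator
            (fun _ => (2 : ℝ)) x +
          2 * {x : ℝ | (n : ℝ) ≤ |x - c|}.indicator (fun x => fl (tr h) (x - c)) x)
      have p0 := fl_tr_nonneg hh0 (x - c)
      have p1 := fl_tr_le hh0 (x - c)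
      have p2 : 0 ≤ 2 * (e / 8) ^ 2 * fl (tr h) (x - c) := by positivity
      have p3 : 0 ≤ {x | a ≤ x ∧ x ≤ a + R ∧ e / 8 ≤ |Real.sin (Real.pi * θ * (x - b))|}.indicator
            (fun _ => (2 : ℝ)) x := indicator_nonneg (fun _ _ => by norm_num) _
      have p4 : 0 ≤ {x : ℝ | (n : ℝ) ≤ |x - c|}.indicator (fun x => fl (tr h) (x - c)) x :=
        indicator_nonneg (fun _ _ => fl_tr_nonneg hh0 _) _
      by_cases hx : (n : ℝ) ≤ |x - c|
      · rw [indicator_of_mem (show x ∈ {x : ℝ | (n : ℝ) ≤ |x - c|} from hx)]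
        have : fl (tr h) (x - c) * s x ≤ fl (tr h) (x - c) * 2 := by
          gcongr
          exact hs2 x
        linarith
      · push Not at hx
        rw [abs_lt] at hx
        by_cases hx2 : e / 8 ≤ |Real.sin (Real.pi * θ * (x - b))|
        · rw [indicator_of_mem (show x ∈ {x | a ≤ x ∧ x ≤ a + R ∧
            e / 8 ≤ |Real.sin (Real.pi * θ * (x - b))|} from ⟨by linarith [hx.1], by linarith [hx.2], hx2⟩)]
          have : fl (tr h) (x - c) * s x ≤ 1 * 2 := by
            gcongr
            · exact hs0 x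
            · exact hs2 x
          linarith
        · push Not at hx2
          have q1 : Real.sin (Real.pi * θ * (x - b)) ^ 2 ≤ (e / 8) ^ 2 := by
            rw [← sq_abs (Real.sin (Real.pi * θ * (x - b)))]
            exact pow_le_pow_left₀ (abs_nonneg _) hx2.le 2
          have : fl (tr h) (x - c) * s x ≤ fl (tr h) (x - c) * (2 * (e / 8) ^ 2) := by
            gcongr
            rw [hs]
            linarith
          linarith
    refine k1.trans ?_
    have j1 : Integrable (fun x => 2 * (e / 8) ^ 2 * fl (tr h) (x - c)) (Mp T) := i1.const_mul _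
    have j2 : Integrable (fun x =>
        {x | a ≤ x ∧ x ≤ a + R ∧ e / 8 ≤ |Real.sin (Real.pi * θ * (x - b))|}.indicator
            (fun _ => (2 : ℝ)) x) (Mp T) := (integrable_const _).indicator hSw
    have j3 : Integrable (fun x =>
        2 * {x : ℝ | (n : ℝ) ≤ |x - c|}.indicator (fun x => fl (tr h) (x - c)) x) (Mp T) :=
      (i1.indicator hSt).const_mul _
    have j23 : Integrable (fun x =>
        {x | a ≤ x ∧ x ≤ a + R ∧ e / 8 ≤ |Real.sin (Real.pi * θ * (x - b))|}.indicator
            (fun _ => (2 : ℝ)) x +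
        2 * {x : ℝ | (n : ℝ) ≤ |x - c|}.indicator (fun x => fl (tr h) (x - c)) x) (Mp T) :=
      j2.add j3
    rw [integral_add j1 j23, integral_add j2 j3, integral_const_mul, integral_const_mul,
        integral_indicator hSw, integral_indicator hSt, setIntegral_const, smul_eq_mul]
    have q1 := shift_tail hC0.le hBT hh0 c hn1
    have q2 : 2 * (e / 8) ^ 2 * ∫ x, fl (tr h) (x - c) ∂(Mp T) ≤ 2 * (e / 8) ^ 2 * (2 / h) := by
      gcongr
    linarith
  -- numerics
  have hR' : R = K / h := by rw [← hhR]; field_simp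
  have n1 : 2 * (e / (32 * K) * R) = e / 16 / h := by
    rw [hR']
    field_simp
    norm_num
  have n2 : 2 * (C / (h ^ 2 * n)) ≤ e / 4 / h := by
    have k1 : C / (h ^ 2 * n) ≤ C / (h ^ 2 * (R / 4)) := by gcongr
    have k2 : C / (h ^ 2 * (R / 4)) = e / 8 / h := by
      have k3 : h ^ 2 * (R / 4) = h * K / 4 := by
        rw [← hhR]
        ring
      rw [k3]
      have k4 : C = K * e / 32 := by linarith
      rw [k4]
      field_simp
      norm_num
    rw [k2] at k1
    have : e / 4 / h = 2 * (e / 8 / h) := by ring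
    linarith
  have n3 : 2 * (e / 8) ^ 2 * (2 / h) ≤ e / 16 / h := by
    have k1 : 2 * (e / 8) ^ 2 * (2 / h) = e ^ 2 / 16 / h := by ring
    rw [k1]
    gcongr
    nlinarith
  have n4 : ∫ x, fl (tr h) (x - c) * s x ∂(Mp T) ≤ 3 / 8 * e / h := by
    have : 3 / 8 * e / h = e / 16 / h + (e / 16 / h + e / 4 / h) := by ring
    linarith
  have n5 : 1 / h - 13 * h - 3 / 8 * e / h ≤ ∫ α, tr h (α - θ) * Fr T α := by
    rw [← e3] at n4
    linarith
  have n6 := tent_up (θ := θ) hh0 hT
  have n7 : h * (1 / h - 13 * h - 3 / 8 * e / h) ≤ h * ∫ α, tr h (α - θ) * Fr T α := by gcongr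
  have n8 : h * (1 / h - 13 * h - 3 / 8 * e / h) = 1 - 13 * h ^ 2 - 3 / 8 * e := by
    field_simp
  have n9 : h ^ 2 ≤ e / 64 := by nlinarith
  have n10 : ∫ α in (θ - h)..(θ + h), Fr T α ≤ ∫ α in (θ - δ)..(θ + δ), Fr T α := by
    apply intervalIntegral.integral_mono_interval (by linarith) (by linarith) (by linarith)
    · exact ae_of_all _ fun α => hF0 α
    · exact hFc.intervalIntegrable _ _
  linarith

/-- far windows -/
theorem far_mass (RH : RiemannHypothesis) (hl : l ≤ atTop) (hF : FarL l θ) : MassL l θ := by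
  intro δ η hδ hη
  obtain ⟨ε0, η0, R0, h1, h2, h3, h⟩ := far_unif RH θ hδ hη
  obtain ⟨R, hR, a, b, hev⟩ := hF ε0 η0 R0 h1 h2 h3
  filter_upwards [hl (h R a b hR), hev] with T g1 g2
  exact g1 g2

end Pool.Agent.Y749.AH
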