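import Pool.Agent.Y749.AH.Mass

/-! # From the pairs to the mass of the form factor -/

set_option autoImplicit false

open MeasureTheory Set Filter Topology

namespace Pool.Agent.Y749.AH

open Pool.Agent.Y749.Rig

variable {l : Filter ℝ} {θ : ℝ}

lemma inv_cont : Continuous fun x : ℝ => 1 / (1 + x ^ 2) :=
  continuous_const.div (by fun_prop) fun x => by positivity

lemma inv_int {C T : ℝ} (hC : 0 ≤ C) (hB : Bdd C (Mp T)) :
    Integrable (fun x : ℝ => 1 / (1 + x ^ 2)) (Mp T) := by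
  refine Bdd.integrable hC hB inv_cont ⟨1, fun x => ?_⟩
  rw [abs_of_pos (by positivity)]

lemma tail_le {C T : ℝ} (hC : 0 ≤ C) (hB : Bdd C (Mp T)) (k : ℕ) :
    ∫ x in {x : ℝ | (k : ℝ) ≤ |x|}, 1 / (1 + x ^ 2) ∂(Mp T) ≤ 2 * C * DD k := by
  have h1 := lint_le hC hB k
  rw [integral_eq_lintegral_of_nonneg_ae (ae_of_all _ fun x => by positivity)
    (inv_int hC hB).aestronglyMeasurable.restrict]
  have h2 : 0 ≤ 2 * C * DD k := by
    have := DD_nonneg k
    positivity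
  exact ENNReal.toReal_le_of_le_ofReal h2 h1

lemma all_le {C T : ℝ} (hC : 0 ≤ C) (hB : Bdd C (Mp T)) :
    ∫ x, 1 / (1 + x ^ 2) ∂(Mp T) ≤ 2 * C * DD 0 := by
  have := tail_le hC hB 0
  have e0 : {x : ℝ | ((0 : ℕ) : ℝ) ≤ |x|} = univ := by
    ext x; simp
  rwa [e0, setIntegral_univ] at this

/-- the pairs away from the lattice do not contribute -/
theorem pair_test (hl : l ≤ atTop) (hP : PairL l θ) {f : ℝ → ℝ} (hf : Continuous f) (hq : QD f)
    {ε : ℝ} (hε : 0 < ε) :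
    ∀ᶠ T in l, ∫ x, |f x| * (2 * Real.sin (Real.pi * θ * x) ^ 2) ∂(Mp T) ≤ ε := by
  obtain ⟨C, hC, hB⟩ := Mp_bdd
  obtain ⟨B, hB'⟩ := hq
  have hB0 : 0 ≤ B := by
    have := (abs_nonneg _).trans (hB' 0)
    simpa using this
  have hC0 : 0 ≤ C := by linarith
  obtain ⟨n, hn⟩ : ∃ n : ℕ, 2 * B * (2 * C * DD n) < ε / 4 := by
    have h1 : Tendsto (fun n => 2 * B * (2 * C * DD n)) atTop (𝓝 (2 * B * (2 * C * 0))) :=
      (DD_tendsto.const_mul _).const_mul _
    rw [mul_zero, mul_zero] at h1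
    exact (h1.eventually (gt_mem_nhds (show (0 : ℝ) < ε / 4 by positivity))).exists
  obtain ⟨K, hK⟩ : ∃ K : ℝ, K = 2 * B * (2 * C * DD 0) := ⟨_, rfl⟩
  have hK0 : 0 ≤ K := by
    rw [hK]
    have := DD_nonneg 0
    positivity
  -- the threshold for the sine
  obtain ⟨κ, hκ0, hκ⟩ : ∃ κ : ℝ, 0 < κ ∧ κ ^ 2 * K ≤ ε / 4 := by
    obtain ⟨κ, hκ⟩ : ∃ κ : ℝ, κ = min 1 (ε / (4 * (K + 1))) := ⟨_, rfl⟩
    have h0 : 0 < κ := by rw [hκ]; exact lt_min one_pos (by positivity)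
    have h1 : κ ≤ 1 := by rw [hκ]; exact min_le_left _ _
    have h2 : κ ≤ ε / (4 * (K + 1)) := by rw [hκ]; exact min_le_right _ _
    rw [le_div_iff₀ (by positivity)] at h2
    refine ⟨κ, h0, ?_⟩
    have h3 : κ ^ 2 ≤ κ := by nlinarith
    nlinarith
  have hη : 0 < ε / (8 * (B + 1)) := by positivity
  filter_upwards [hl hB, hl (eventually_ge_atTop 10),
    hP ((n : ℝ) + 1) κ (ε / (8 * (B + 1))) (by positivity) hκ0 hη] with T hBT hT hPT
  have hfin := Mp_fin T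
  have i0 := inv_int hC0 hBT
  have hS : MeasurableSet {x : ℝ | (n : ℝ) ≤ |x|} :=
    measurableSet_le measurable_const continuous_abs.measurable
  have hS2 := sin_meas (θ := θ) ((n : ℝ) + 1) κ
  have hsin : ∀ x, Real.sin (Real.pi * θ * x) ^ 2 ≤ 1 := fun x => Real.sin_sq_le_one _
  have key : ∀ x : ℝ, |f x| * (2 * Real.sin (Real.pi * θ * x) ^ 2) ≤
      {x : ℝ | (n : ℝ) ≤ |x|}.indicator (fun x => 2 * B * (1 / (1 + x ^ 2))) x +
      (2 * B * κ ^ 2 * (1 / (1 + x ^ 2)) +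
      {x | |x| ≤ (n : ℝ) + 1 ∧ κ ≤ |Real.sin (Real.pi * θ * x)|}.indicator
        (fun _ => 2 * B) x) := by
    intro x
    have hx2 : 0 ≤ 1 / (1 + x ^ 2) := by positivity
    have hfx : |f x| ≤ B * (1 / (1 + x ^ 2)) := by
      rw [mul_one_div]
      exact hB' x
    have t1 : 0 ≤ 2 * B * κ ^ 2 * (1 / (1 + x ^ 2)) := by positivity
    have t2 : 0 ≤ {x | |x| ≤ (n : ℝ) + 1 ∧ κ ≤ |Real.sin (Real.pi * θ * x)|}.indicator
        (fun _ => 2 * B) x := indicator_nonneg (fun _ _ => by positivity) _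
    have t3 : 0 ≤ {x : ℝ | (n : ℝ) ≤ |x|}.indicator (fun x => 2 * B * (1 / (1 + x ^ 2))) x :=
      indicator_nonneg (fun _ _ => by positivity) _
    by_cases hx : (n : ℝ) ≤ |x|
    · rw [indicator_of_mem (show x ∈ {x : ℝ | (n : ℝ) ≤ |x|} from hx)]
      have : |f x| * (2 * Real.sin (Real.pi * θ * x) ^ 2) ≤ B * (1 / (1 + x ^ 2)) * 2 := by
        gcongr
        linarith [hsin x]
      linarith
    · push Not at hx
      by_cases hs : κ ≤ |Real.sin (Real.pi * θ * x)|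
      · rw [indicator_of_mem (show x ∈ {x | |x| ≤ (n : ℝ) + 1 ∧
          κ ≤ |Real.sin (Real.pi * θ * x)|} from ⟨by linarith, hs⟩)]
        have h5 : 1 / (1 + x ^ 2) ≤ 1 := by
          rw [div_le_one (by positivity)]
          nlinarith [sq_nonneg x]
        have h6 : |f x| ≤ B := hfx.trans (by nlinarith)
        have : |f x| * (2 * Real.sin (Real.pi * θ * x) ^ 2) ≤ B * 2 := by
          gcongr
          linarith [hsin x]
        linarith
      · push Not at hs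
        have h5 : Real.sin (Real.pi * θ * x) ^ 2 ≤ κ ^ 2 := by
          rw [← sq_abs (Real.sin (Real.pi * θ * x))]
          exact pow_le_pow_left₀ (abs_nonneg _) hs.le 2
        have : |f x| * (2 * Real.sin (Real.pi * θ * x) ^ 2) ≤ B * (1 / (1 + x ^ 2)) * (2 * κ ^ 2) := by
          gcongr
        linarith
  have i1 : Integrable ({x : ℝ | (n : ℝ) ≤ |x|}.indicator (fun x => 2 * B * (1 / (1 + x ^ 2))))
    (Mp T) := (i0.const_mul (2 * B)).indicator hS
  have i2 : Integrable (fun x : ℝ => 2 * B * κ ^ 2 * (1 / (1 + x ^ 2))) (Mp T) := i0.const_mul _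
  have i3 : Integrable ({x | |x| ≤ (n : ℝ) + 1 ∧ κ ≤ |Real.sin (Real.pi * θ * x)|}.indicator
        (fun _ => 2 * B)) (Mp T) := (integrable_const _).indicator hS2
  have i4 : Integrable (fun x => |f x| * (2 * Real.sin (Real.pi * θ * x) ^ 2)) (Mp T) := by
    have h1 : Integrable f (Mp T) := Bdd.integrable hC0 hBT hf ⟨B, hB'⟩
    refine h1.abs.mul_bdd (c := 2) (by fun_prop) (ae_of_all _ fun x => ?_)
    rw [Real.norm_eq_abs, abs_of_nonneg (by positivity)]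
    linarith [hsin x]
  have h1 := integral_mono i4 (i1.add (i2.add i3)) key
  have e1 : ∫ x, ({x : ℝ | (n : ℝ) ≤ |x|}.indicator (fun x => 2 * B * (1 / (1 + x ^ 2))) +
      ((fun x : ℝ => 2 * B * κ ^ 2 * (1 / (1 + x ^ 2))) +
      {x | |x| ≤ (n : ℝ) + 1 ∧ κ ≤ |Real.sin (Real.pi * θ * x)|}.indicator
        (fun _ => 2 * B)) : ℝ → ℝ) x ∂(Mp T) =
      2 * B * ∫ x in {x : ℝ | (n : ℝ) ≤ |x|}, 1 / (1 + x ^ 2) ∂(Mp T) +
      (2 * B * κ ^ 2 * ∫ x, 1 / (1 + x ^ 2) ∂(Mp T) +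
      2 * B * (Mp T).real {x | |x| ≤ (n : ℝ) + 1 ∧ κ ≤ |Real.sin (Real.pi * θ * x)|}) := by
    rw [integral_add' i1 (i2.add i3), integral_add' i2 i3, integral_indicator hS,
      integral_indicator hS2, integral_const_mul, integral_const_mul, setIntegral_const,
      smul_eq_mul]
    ring
  have h2 : ∫ x, |f x| * (2 * Real.sin (Real.pi * θ * x) ^ 2) ∂(Mp T) ≤
      2 * B * ∫ x in {x : ℝ | (n : ℝ) ≤ |x|}, 1 / (1 + x ^ 2) ∂(Mp T) +
      (2 * B * κ ^ 2 * ∫ x, 1 / (1 + x ^ 2) ∂(Mp T) +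
      2 * B * (Mp T).real {x | |x| ≤ (n : ℝ) + 1 ∧ κ ≤ |Real.sin (Real.pi * θ * x)|}) := by
    rw [← e1]
    exact h1
  have h3 := tail_le hC0 hBT n
  have h4 := all_le hC0 hBT
  have h5 : 2 * B * ∫ x in {x : ℝ | (n : ℝ) ≤ |x|}, 1 / (1 + x ^ 2) ∂(Mp T) ≤
      2 * B * (2 * C * DD n) := by gcongr
  have h6 : 2 * B * κ ^ 2 * ∫ x, 1 / (1 + x ^ 2) ∂(Mp T) ≤ κ ^ 2 * K := by
    rw [hK]
    calc 2 * B * κ ^ 2 * ∫ x, 1 / (1 + x ^ 2) ∂(Mp T) ≤ 2 * B * κ ^ 2 * (2 * C * DD 0) := by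
          gcongr
      _ = _ := by ring
  have h7 : 2 * B * (Mp T).real {x | |x| ≤ (n : ℝ) + 1 ∧ κ ≤ |Real.sin (Real.pi * θ * x)|} ≤
      ε / 4 := by
    calc _ ≤ 2 * B * (ε / (8 * (B + 1))) := by gcongr
      _ = ε / 4 * (B / (B + 1)) := by
        field_simp
        ring
      _ ≤ ε / 4 * 1 := by
        gcongr
        rw [div_le_one (by positivity)]
        linarith
      _ = ε / 4 := mul_one _
  linarith

/-- **pairs near the lattice imply mass at `θ`** -/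
theorem pair_mass (RH : RiemannHypothesis) (hl : l ≤ atTop) (h : PairL l θ) : MassL l θ := by
  intro δ η hδ hη
  obtain ⟨C, hC, hB⟩ := Mp_bdd
  obtain ⟨k, hk⟩ : ∃ k : ℝ, k = min (1 / 2) δ := ⟨_, rfl⟩
  have hk0 : 0 < k := by rw [hk]; exact lt_min (by norm_num) hδ
  have hk1 : k ≤ 1 / 2 := by rw [hk]; exact min_le_left _ _
  have hkδ : k ≤ δ := by rw [hk]; exact min_le_right _ _
  have t1 := (test_limRH RH (adm_tr hk0) hk0 (by linarith)).mono_left hl
  have t2 := (ww_remove (fl_cont (adm_modu (adm_tr hk0) θ).int)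
    (fl_qd (adm_modu (adm_tr hk0) θ))).mono_left hl
  have hcc := (cc_tr_le hk0).2
  filter_upwards [t1.eventually (le_mem_nhds (show cc (tr k) - η / 3 < cc (tr k) by linarith)),
    t2.eventually (le_mem_nhds (show -(η / 3) < 0 by linarith)), hl hB,
    hl (eventually_ge_atTop 10),
    pair_test hl h (fl_cont (tr_int hk0)) (fl_qd (adm_tr hk0)) (show 0 < η / 3 by positivity)]
    with T h1 h2 h3 h4 h5
  have hfin := Mp_fin T
  have hC0 : 0 ≤ C := by linarith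
  have e1 : ∫ x, fl (modu θ (tr k)) x * ww (2 * Real.pi * x / Real.log T) ∂(Mp T) =
      ∫ α, tr k (α - θ) * Fr T α := by
    rw [← modu_pair (adm_tr hk0), Fr_pair (adm_modu (adm_tr hk0) θ).int]
  rw [e1] at h2
  have i1 : Integrable (fl (tr k)) (Mp T) :=
    Bdd.integrable hC0 h3 (fl_cont (tr_int hk0)) (fl_qd (adm_tr hk0))
  have i2 : Integrable (fl (modu θ (tr k))) (Mp T) :=
    Bdd.integrable hC0 h3 (fl_cont (adm_modu (adm_tr hk0) θ).int) (fl_qd (adm_modu (adm_tr hk0) θ))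
  have e2 : ∀ x, fl (tr k) x - fl (modu θ (tr k)) x =
      |fl (tr k) x| * (2 * Real.sin (Real.pi * θ * x) ^ 2) := by
    intro x
    rw [fl_modu (adm_tr hk0), ← one_sub_cos, abs_of_nonneg (fl_tr_nonneg hk0 x)]
    ring
  simp_rw [← e2] at h5
  rw [integral_sub i1 i2] at h5
  have h6 : 1 / k - η ≤ ∫ α, tr k (α - θ) * Fr T α := by linarith
  have h7 := tent_up (θ := θ) hk0 h4
  have h8 : k * (1 / k - η) ≤ k * ∫ α, tr k (α - θ) * Fr T α := by gcongr
  have h9 : k * (1 / k - η) = 1 - k * η := by field_simp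
  have h10 : ∫ α in (θ - k)..(θ + k), Fr T α ≤ ∫ α in (θ - δ)..(θ + δ), Fr T α := by
    have hFc := Fr_cont T
    apply intervalIntegral.integral_mono_interval (by linarith) (by linarith) (by linarith)
    · exact ae_of_all _ fun α => Fr_nonneg h4 α
    · exact hFc.intervalIntegrable _ _
  have h11 : k * η ≤ η := by nlinarith
  linarith

end Pool.Agent.Y749.AH
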