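import Pool.Agent.Y749.AH.Cmp
import Pool.Agent.Y749.AH.Mass2

/-! # Spacings and pairs -/

set_option autoImplicit false

open MeasureTheory Set Filter Topology

namespace Pool.Agent.Y749.AH

open Pool.Agent.Y749.Rig
open SG (ord NZ zmult ZS)

variable {l : Filter ℝ} {θ : ℝ}

/-- almost all spacings are near the lattice, in terms of the sine -/
def SinFew (l : Filter ℝ) (θ : ℝ) : Prop := ∀ ε η : ℝ, 0 < ε → 0 < η → ∀ᶠ T in l,
  (((II T).filter (fun j => ε ≤ |Real.sin (Real.pi * θ * dj j)|)).card : ℝ) ≤ η * NZ T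

/-- few small spacings -/
def NoSmall (l : Filter ℝ) : Prop := ∀ η : ℝ, 0 < η → ∃ ε : ℝ, 0 < ε ∧ ∀ᶠ T in l,
  (((II T).filter (fun j => dj j < ε)).card : ℝ) ≤ η * NZ T

lemma abs_sin_add_le (x y : ℝ) : |Real.sin (x + y)| ≤ |Real.sin x| + |Real.sin y| := by
  rw [Real.sin_add]
  refine (abs_add_le _ _).trans ?_
  rw [abs_mul, abs_mul]
  have h1 := Real.abs_cos_le_one x
  have h2 := Real.abs_cos_le_one y
  have h3 := abs_nonneg (Real.sin x)
  have h4 := abs_nonneg (Real.sin y)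
  nlinarith

/-- a long step made of good steps -/
lemma long_step (θ ε : ℝ) (p : ℕ) : ∀ d : ℕ,
    (∀ j, p ≤ j → j < p + d → |Real.sin (Real.pi * θ * dj j)| ≤ ε) →
    |Real.sin (Real.pi * θ * (gt (p + d) - gt p))| ≤ d * ε := by
  intro d
  induction d with
  | zero => intro _; simp
  | succ d ih =>
    intro h
    have h1 := ih (fun j hj1 hj2 => h j hj1 (by omega))
    have h2 := h (p + d) (by omega) (by omega)
    have e : Real.pi * θ * (gt (p + (d + 1)) - gt p) =
        Real.pi * θ * (gt (p + d) - gt p) + Real.pi * θ * dj (p + d) := by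
      unfold dj
      rw [← add_assoc]
      ring
    rw [e]
    refine (abs_sin_add_le _ _).trans ?_
    push_cast
    linarith

/-- the number of pairs with normalised difference in a set -/
lemma Mp_card (hRH : RiemannHypothesis) {T : ℝ} (hT : 10 ≤ T) {S : Set ℝ} (hS : MeasurableSet S)
    [DecidablePred fun p : ℕ × ℕ => xx T p.1 p.2 ∈ S] :
    (Mp T).real S = ((((II T) ×ˢ (II T)).filter (fun p : ℕ × ℕ => xx T p.1 p.2 ∈ S)).card : ℝ) /
      nT T := by
  classical
  have h1 := Mp_ix hRH hT (S.indicator fun _ => (1 : ℝ))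
  rw [integral_indicator hS, setIntegral_const, smul_eq_mul, mul_one] at h1
  rw [h1]
  congr 1
  rw [← Finset.sum_product', Finset.card_filter]
  push_cast
  refine Finset.sum_congr rfl fun p _ => ?_
  by_cases h : xx T p.1 p.2 ∈ S
  · rw [indicator_of_mem h, if_pos h]
  · rw [indicator_of_notMem h, if_neg h]

/-- symmetric sets: the pairs `j < i` -/
lemma half_card {T : ℝ} {S : Set ℝ} (hS : ∀ x, x ∈ S → -x ∈ S) (h0 : (0 : ℝ) ∉ S)
    [DecidablePred fun p : ℕ × ℕ => xx T p.1 p.2 ∈ S]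
    [DecidablePred fun p : ℕ × ℕ => p.2 < p.1 ∧ xx T p.1 p.2 ∈ S] :
    (((II T) ×ˢ (II T)).filter (fun p : ℕ × ℕ => xx T p.1 p.2 ∈ S)).card ≤
    2 * (((II T) ×ˢ (II T)).filter (fun p : ℕ × ℕ => p.2 < p.1 ∧ xx T p.1 p.2 ∈ S)).card := by
  classical
  have hsub : ((II T) ×ˢ (II T)).filter (fun p : ℕ × ℕ => xx T p.1 p.2 ∈ S) ⊆
      (((II T) ×ˢ (II T)).filter (fun p : ℕ × ℕ => p.2 < p.1 ∧ xx T p.1 p.2 ∈ S)) ∪
      (((II T) ×ˢ (II T)).filter (fun p : ℕ × ℕ => p.2 < p.1 ∧ xx T p.1 p.2 ∈ S)).image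
        Prod.swap := by
    rintro ⟨i, j⟩ hp
    rw [Finset.mem_filter, Finset.mem_product] at hp
    obtain ⟨⟨hi, hj⟩, hx⟩ := hp
    rw [Finset.mem_union]
    rcases lt_trichotomy j i with h | h | h
    · left
      rw [Finset.mem_filter, Finset.mem_product]
      exact ⟨⟨hi, hj⟩, h, hx⟩
    · exfalso
      subst h
      apply h0
      have : xx T j j = 0 := by unfold xx; simp
      simp only [this] at hx
      exact hx
    · right
      rw [Finset.mem_image]
      refine ⟨(j, i), ?_, rfl⟩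
      rw [Finset.mem_filter, Finset.mem_product]
      refine ⟨⟨hj, hi⟩, h, ?_⟩
      show xx T j i ∈ S
      rw [xx_neg]
      exact hS _ hx
  have h1 := (Finset.card_le_card hsub).trans (Finset.card_union_le _ _)
  have h2 := Finset.card_image_le (s := ((II T) ×ˢ (II T)).filter
    (fun p : ℕ × ℕ => p.2 < p.1 ∧ xx T p.1 p.2 ∈ S)) (f := Prod.swap)
  omega

/-- **from spacings to pairs** -/
theorem sin_pair (hRH : RiemannHypothesis) (hl : l ≤ atTop) (hθ : 0 < θ) (h : SinFew l θ) :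
    PairL l θ := by
  classical
  intro r ε η hr hε hη
  obtain ⟨M, hM1, κ, hκ, hM⟩ := pairs_bad hRH hr (show 0 < η / 16 by positivity)
  have hM0 : (1 : ℝ) ≤ M := by exact_mod_cast hM1
  have hpi := Real.pi_pos
  obtain ⟨ε1, hε1⟩ : ∃ ε1 : ℝ, ε1 = ε / (2 * (M + Real.pi * θ)) := ⟨_, rfl⟩
  have hε10 : 0 < ε1 := by rw [hε1]; positivity
  have hεM : (M + Real.pi * θ) * ε1 < ε := by
    have : (M + Real.pi * θ) * ε1 = ε / 2 := by rw [hε1]; field_simp
    linarith
  have hS := sin_meas (θ := θ) r ε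
  filter_upwards [hl (hM ε1 hε10), h ε1 (η / (16 * M ^ 2)) hε10 (by positivity),
    hl (eventually_ge_atTop 10), hl (N_asymp (show (0 : ℝ) < 1 by norm_num))] with T h1 h2 hT hN
  have hn := nT_pos hT
  obtain ⟨S, hSd⟩ : ∃ S : Set ℝ, S = {x | |x| ≤ r ∧ ε ≤ |Real.sin (Real.pi * θ * x)|} := ⟨_, rfl⟩
  rw [← hSd] at hS ⊢
  rw [Mp_card hRH hT hS, div_le_iff₀ hn]
  have hSn : ∀ x, x ∈ S → -x ∈ S := by
    intro x hx
    rw [hSd] at hx ⊢
    refine ⟨by rw [abs_neg]; exact hx.1, ?_⟩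
    rw [mul_neg, Real.sin_neg, abs_neg]
    exact hx.2
  have hS0 : (0 : ℝ) ∉ S := by
    rw [hSd]
    rintro ⟨-, h0⟩
    rw [mul_zero, Real.sin_zero, abs_zero] at h0
    linarith
  have h3 := half_card (T := T) hSn hS0
  obtain ⟨B, hB⟩ : ∃ B : Finset ℕ, B = (II T).filter
    (fun j => ε1 ≤ |Real.sin (Real.pi * θ * dj j)|) := ⟨_, rfl⟩
  rw [← hB] at h2
  have h4 := h1 B
  have hsub : ((II T) ×ˢ (II T)).filter (fun p : ℕ × ℕ => p.2 < p.1 ∧ xx T p.1 p.2 ∈ S) ⊆
      ((II T) ×ˢ (II T)).filter (fun p : ℕ × ℕ => p.2 < p.1 ∧ xx T p.1 p.2 ≤ r ∧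
      ¬ (κ * T ≤ ord p.2 ∧ p.1 < p.2 + M ∧ (∀ b, p.2 ≤ b → b < p.1 → b ∉ B) ∧
        |xx T p.1 p.2 - (gt p.1 - gt p.2)| ≤ ε1)) := by
    rintro ⟨i, j⟩ hp
    rw [Finset.mem_filter, Finset.mem_product] at hp ⊢
    obtain ⟨⟨hi, hj⟩, hji, hx⟩ := hp
    simp only at hi hj hji hx
    rw [hSd] at hx
    refine ⟨⟨hi, hj⟩, hji, (le_abs_self _).trans hx.1, ?_⟩
    rintro ⟨-, g1, g2, g3⟩
    simp only at g1 g2 g3
    have g4 : |Real.sin (Real.pi * θ * (gt i - gt j))| ≤ (i - j : ℕ) * ε1 := by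
      have := long_step θ ε1 j (i - j) (by
        intro b hb1 hb2
        have g5 := g2 b hb1 (by omega)
        rw [hB, Finset.mem_filter] at g5
        push Not at g5
        refine (g5 ?_).le
        rw [mem_II] at hi hj ⊢
        exact ⟨by omega, (SG.ord_mono (by omega) (by omega : b ≤ i)).trans hi.2⟩)
      rwa [show j + (i - j) = i by omega] at this
    have g5 : ((i - j : ℕ) : ℝ) ≤ M := by exact_mod_cast (by omega : i - j ≤ M)
    have g6 : |Real.sin (Real.pi * θ * xx T i j)| ≤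
        |Real.sin (Real.pi * θ * (gt i - gt j))| + Real.pi * θ * ε1 := by
      have e : Real.pi * θ * xx T i j = Real.pi * θ * (gt i - gt j) +
          Real.pi * θ * (xx T i j - (gt i - gt j)) := by ring
      rw [e]
      refine (abs_sin_add_le _ _).trans ?_
      have g7 : |Real.sin (Real.pi * θ * (xx T i j - (gt i - gt j)))| ≤
          |Real.pi * θ * (xx T i j - (gt i - gt j))| := Real.abs_sin_le_abs
      rw [abs_mul, abs_of_pos (by positivity : 0 < Real.pi * θ)] at g7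
      have g8 : Real.pi * θ * |xx T i j - (gt i - gt j)| ≤ Real.pi * θ * ε1 := by gcongr
      linarith
    have g7 : ((i - j : ℕ) : ℝ) * ε1 ≤ M * ε1 := by gcongr
    have g8 := hx.2
    have e1 : (M + Real.pi * θ) * ε1 = M * ε1 + Real.pi * θ * ε1 := by ring
    linarith
  have h5 : ((((II T) ×ˢ (II T)).filter
      (fun p : ℕ × ℕ => p.2 < p.1 ∧ xx T p.1 p.2 ∈ S)).card : ℝ) ≤
      η / 16 * NZ T + M ^ 2 * B.card := by
    refine le_trans ?_ h4
    exact_mod_cast Finset.card_le_card hsub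
  have h6 : ((((II T) ×ˢ (II T)).filter (fun p : ℕ × ℕ => xx T p.1 p.2 ∈ S)).card : ℝ) ≤
      2 * (((II T) ×ˢ (II T)).filter
      (fun p : ℕ × ℕ => p.2 < p.1 ∧ xx T p.1 p.2 ∈ S)).card := by exact_mod_cast h3
  have h7 : (M : ℝ) ^ 2 * B.card ≤ η / 16 * NZ T := by
    calc (M : ℝ) ^ 2 * B.card ≤ M ^ 2 * (η / (16 * M ^ 2) * NZ T) := by gcongr
      _ = η / 16 * NZ T := by field_simp
  have h8 : η / 16 * NZ T ≤ η / 16 * (2 * nT T) := by
    gcongr
    linarith [hN.2]
  nlinarith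

/-- few large spacings -/
lemma big_card {T U : ℝ} (hT : 10 ≤ T) (hU : 0 < U) :
    ((((II T).filter (fun j => j + 1 ∈ II T ∧ U < xx T (j + 1) j)).card : ℝ)) ≤ nT T / U := by
  classical
  rw [le_div_iff₀ hU]
  have hL := one_lt_log (show 3 ≤ T by linarith)
  have hpi := Real.pi_pos
  rcases Nat.eq_zero_or_pos (NZ T) with h0 | hN
  · have : II T = ∅ := by unfold II; rw [h0]; rfl
    rw [this]
    simp
    exact (nT_pos hT).le
  have h1 : ∑ j ∈ (II T).filter (fun j => j + 1 ∈ II T ∧ U < xx T (j + 1) j), U ≤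
      ∑ j ∈ Finset.Ico 1 (NZ T), xx T (j + 1) j := by
    calc ∑ j ∈ (II T).filter (fun j => j + 1 ∈ II T ∧ U < xx T (j + 1) j), U ≤
        ∑ j ∈ (II T).filter (fun j => j + 1 ∈ II T ∧ U < xx T (j + 1) j), xx T (j + 1) j := by
          refine Finset.sum_le_sum fun j hj => ?_
          rw [Finset.mem_filter] at hj
          exact hj.2.2.le
      _ ≤ ∑ j ∈ Finset.Ico 1 (NZ T), xx T (j + 1) j := by
          refine Finset.sum_le_sum_of_subset_of_nonneg ?_ ?_
          · intro j hj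
            rw [Finset.mem_filter] at hj
            obtain ⟨a1, a2, -⟩ := hj
            unfold II at a1 a2
            rw [Finset.mem_Ioc] at a1 a2
            rw [Finset.mem_Ico]
            omega
          · intro j hj _
            rw [Finset.mem_Ico] at hj
            exact xx_nonneg (by linarith) hj.1 (Nat.le_succ j)
  have h2 : ∑ j ∈ Finset.Ico 1 (NZ T), xx T (j + 1) j = xx T (NZ T) 1 := by
    have key : ∀ m : ℕ, 1 ≤ m → ∑ j ∈ Finset.Ico 1 m, xx T (j + 1) j = xx T m 1 := by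
      intro m hm
      induction m with
      | zero => omega
      | succ m ih =>
        rcases Nat.eq_zero_or_pos m with h | h
        · subst h
          unfold xx
          simp
        · rw [Finset.sum_Ico_succ_top h, ih h]
          unfold xx
          ring
    exact key _ hN
  have h3 : xx T (NZ T) 1 ≤ nT T := by
    unfold xx nT
    apply div_le_div_of_nonneg_right _ (by positivity)
    have a1 : ord (NZ T) ≤ T := (SG.ord_le_iff hN T).2 le_rfl
    have a2 := SG.ord_pos (le_refl 1)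
    apply mul_le_mul_of_nonneg_right _ (by linarith)
    linarith
  rw [Finset.sum_const, nsmul_eq_mul] at h1
  linarith

/-- the exceptional indices: small ordinates, the last one and large spacings -/
theorem except_card (hRH : RiemannHypothesis) {η : ℝ} (hη : 0 < η) : ∃ κ U : ℝ, 0 < κ ∧ 0 < U ∧
    ∀ᶠ T in atTop, ((((II T).filter (fun j => ¬ (κ * T ≤ ord j ∧ j + 1 ∈ II T ∧
      xx T (j + 1) j ≤ U))).card : ℝ)) ≤ η * NZ T := by
  classical
  obtain ⟨κ, hκ⟩ : ∃ κ : ℝ, κ = min 1 (η / 16) := ⟨_, rfl⟩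
  have hκ0 : 0 < κ := by rw [hκ]; exact lt_min one_pos (by positivity)
  have hκ1 : κ ≤ 1 := by rw [hκ]; exact min_le_left _ _
  have hκη : κ ≤ η / 16 := by rw [hκ]; exact min_le_right _ _
  have hκT : Tendsto (fun T : ℝ => κ * T) atTop atTop := tendsto_id.const_mul_atTop hκ0
  have hnT : Tendsto nT atTop atTop := by
    refine tendsto_atTop_mono' _ ?_ tendsto_id
    filter_upwards [eventually_ge_atTop 1,
      Real.tendsto_log_atTop.eventually_ge_atTop (2 * Real.pi)] with T h1 h2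
    unfold nT
    have hpi := Real.pi_pos
    rw [le_div_iff₀ (by positivity)]
    show T * (2 * Real.pi) ≤ T * Real.log T
    gcongr
  refine ⟨κ, 8 / η, hκ0, by positivity, ?_⟩
  filter_upwards [eventually_ge_atTop (max 10 (10 / κ)),
    N_asymp (show (0 : ℝ) < 1 / 2 by norm_num),
    hκT.eventually (N_asymp (show (0 : ℝ) < 1 by norm_num)),
    hnT.eventually_ge_atTop (8 / η)] with T hT hN hNκ hbig
  have hT10 : 10 ≤ T := (le_max_left _ _).trans hT
  have hn := nT_pos hT10
  have hL1 := one_lt_log (show 3 ≤ T by linarith)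
  have hlow : (NZ (κ * T) : ℝ) ≤ η / 4 * NZ T := by
    have h1 : (NZ (κ * T) : ℝ) ≤ 2 * nT (κ * T) := by linarith [hNκ.2]
    have h2 : nT (κ * T) ≤ κ * nT T := by
      unfold nT
      have hpi := Real.pi_pos
      have h3 : Real.log (κ * T) ≤ Real.log T := by
        apply Real.log_le_log (by positivity)
        nlinarith
      have h4 : κ * (T * Real.log T / (2 * Real.pi)) = κ * T * Real.log T / (2 * Real.pi) := by
        ring
      rw [h4]
      gcongr
    have h3 : nT T ≤ 2 * NZ T := by linarith [hN.1]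
    have h5 : κ * nT T ≤ η / 16 * (2 * NZ T) := by gcongr
    linarith
  have hsub : (II T).filter (fun j => ¬ (κ * T ≤ ord j ∧ j + 1 ∈ II T ∧
      xx T (j + 1) j ≤ 8 / η)) ⊆ Finset.Ioc 0 (NZ (κ * T)) ∪ ({NZ T} ∪
        (II T).filter (fun j => j + 1 ∈ II T ∧ 8 / η < xx T (j + 1) j)) := by
    intro j hj
    rw [Finset.mem_filter] at hj
    obtain ⟨h1, h2⟩ := hj
    rw [Finset.mem_union, Finset.mem_union]
    by_cases g1 : κ * T ≤ ord j
    · by_cases g2 : j + 1 ∈ II T
      · right; right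
        rw [Finset.mem_filter]
        refine ⟨h1, g2, ?_⟩
        by_contra g3
        push Not at g3
        exact h2 ⟨g1, g2, g3⟩
      · right; left
        rw [Finset.mem_singleton]
        unfold II at h1 g2
        rw [Finset.mem_Ioc] at h1 g2
        omega
    · left
      push Not at g1
      rw [Finset.mem_Ioc]
      have := (mem_II.1 h1).1
      exact ⟨by omega, (SG.ord_le_iff this _).1 g1.le⟩
  have h1 := (Finset.card_le_card hsub).trans ((Finset.card_union_le _ _).trans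
    (Nat.add_le_add_left (Finset.card_union_le _ _) _))
  rw [Nat.card_Ioc, Nat.sub_zero, Finset.card_singleton] at h1
  have h2 : ((((II T).filter (fun j => ¬ (κ * T ≤ ord j ∧ j + 1 ∈ II T ∧
      xx T (j + 1) j ≤ 8 / η))).card : ℝ)) ≤ NZ (κ * T) + (1 +
        ((II T).filter (fun j => j + 1 ∈ II T ∧ 8 / η < xx T (j + 1) j)).card) := by
    exact_mod_cast h1
  have h3 := big_card hT10 (show 0 < 8 / η by positivity)
  have h4 : nT T / (8 / η) = η / 8 * nT T := by field_simp
  have h5 : nT T ≤ 2 * NZ T := by linarith [hN.1]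
  have h6 : 1 ≤ η / 8 * nT T := by
    have h7 : η / 8 * (8 / η) ≤ η / 8 * nT T := by gcongr
    have h8 : η / 8 * (8 / η) = 1 := by field_simp
    linarith
  have h9 : η / 8 * nT T ≤ η / 8 * (2 * NZ T) := by gcongr
  linarith

end Pool.Agent.Y749.AH
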