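import Pool.Agent.Y749.AH.Gap

/-! # Pairs and spacings, close pairs -/

set_option autoImplicit false

open MeasureTheory Set Filter Topology

namespace Pool.Agent.Y749.AH

open Pool.Agent.Y749.Rig
open SG (ord NZ zmult ZS)

variable {l : Filter ℝ} {θ : ℝ}

/-- **from pairs to spacings** -/
theorem pair_sin (hRH : RiemannHypothesis) (hl : l ≤ atTop) (hθ : 0 < θ) (h : PairL l θ) :
    SinFew l θ := by
  classical
  intro ε η hε hη
  obtain ⟨κ, U, hκ, hU, hex⟩ := except_card hRH (show 0 < η / 2 by positivity)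
  have hpi := Real.pi_pos
  obtain ⟨ε1, hε1⟩ : ∃ ε1 : ℝ, ε1 = ε / (2 * (Real.pi * θ)) := ⟨_, rfl⟩
  have hε10 : 0 < ε1 := by rw [hε1]; positivity
  have hεθ : Real.pi * θ * ε1 = ε / 2 := by rw [hε1]; field_simp
  have hS := sin_meas (θ := θ) U (ε / 2)
  filter_upwards [hl hex, hl (cmp_close hκ hU.le hε10), h U (ε / 2) (η / 4) hU (by positivity)
    (by positivity), hl (eventually_ge_atTop 10), hl (N_asymp (show (0 : ℝ) < 1 / 2 by norm_num))]
    with T h1 h2 h3 hT hN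
  have hn := nT_pos hT
  obtain ⟨S, hSd⟩ : ∃ S : Set ℝ, S = {x | |x| ≤ U ∧ ε / 2 ≤ |Real.sin (Real.pi * θ * x)|} :=
    ⟨_, rfl⟩
  rw [← hSd] at hS h3
  rw [Mp_card hRH hT hS, div_le_iff₀ hn] at h3
  obtain ⟨E, hE⟩ : ∃ E : Finset ℕ, E = (II T).filter (fun j => ¬ (κ * T ≤ ord j ∧ j + 1 ∈ II T ∧
      xx T (j + 1) j ≤ U)) := ⟨_, rfl⟩
  rw [← hE] at h1
  obtain ⟨A, hA⟩ : ∃ A : Finset ℕ, A = (II T).filter
    (fun j => ε ≤ |Real.sin (Real.pi * θ * dj j)|) := ⟨_, rfl⟩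
  rw [← hA]
  have h4 : (A \ E).card ≤ (((II T) ×ˢ (II T)).filter (fun p : ℕ × ℕ => xx T p.1 p.2 ∈ S)).card := by
    refine Finset.card_le_card_of_injOn (fun j => (j + 1, j)) ?_ ?_
    · intro j hj
      rw [Finset.mem_coe, Finset.mem_sdiff, hA, hE, Finset.mem_filter, Finset.mem_filter] at hj
      obtain ⟨⟨g1, g2⟩, g3⟩ := hj
      have g4 : κ * T ≤ ord j ∧ j + 1 ∈ II T ∧ xx T (j + 1) j ≤ U := by
        by_contra hcon
        exact g3 ⟨g1, hcon⟩
      obtain ⟨g5, g6, g7⟩ := g4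
      rw [Finset.mem_coe, Finset.mem_filter, Finset.mem_product]
      refine ⟨⟨g6, g1⟩, ?_⟩
      show xx T (j + 1) j ∈ S
      rw [hSd]
      have g8 := (mem_II.1 g1).1
      have g9 := h2 (j + 1) j g8 (Nat.le_succ j) g6 g5 g7
      have g10 := xx_nonneg (by linarith : 1 ≤ T) g8 (Nat.le_succ j)
      refine ⟨by rw [abs_of_nonneg g10]; exact g7, ?_⟩
      have e : Real.pi * θ * dj j = Real.pi * θ * xx T (j + 1) j +
          Real.pi * θ * (dj j - xx T (j + 1) j) := by ring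
      rw [e] at g2
      have g11 := g2.trans (abs_sin_add_le _ _)
      have g12 : |Real.sin (Real.pi * θ * (dj j - xx T (j + 1) j))| ≤
          |Real.pi * θ * (dj j - xx T (j + 1) j)| := Real.abs_sin_le_abs
      rw [abs_mul, abs_of_pos (by positivity : 0 < Real.pi * θ), abs_sub_comm] at g12
      have g13 : Real.pi * θ * |xx T (j + 1) j - dj j| ≤ Real.pi * θ * ε1 := by
        gcongr
        exact g9
      linarith
    · intro j _ j' _ hjj
      exact (Prod.mk.inj hjj).2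
  have h5 : A.card ≤ E.card + (A \ E).card := by
    have := Finset.card_le_card (show A ⊆ E ∪ (A \ E) by
      intro j hj
      rw [Finset.mem_union, Finset.mem_sdiff]
      by_cases h : j ∈ E
      · exact Or.inl h
      · exact Or.inr ⟨hj, h⟩)
    exact this.trans (Finset.card_union_le _ _)
  have h6 : (A.card : ℝ) ≤ E.card + ((((II T) ×ˢ (II T)).filter
      (fun p : ℕ × ℕ => xx T p.1 p.2 ∈ S)).card : ℝ) := by
    exact_mod_cast h5.trans (Nat.add_le_add_left h4 _)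
  have h7 : η / 4 * nT T ≤ η / 4 * (2 * NZ T) := by
    gcongr
    linarith [hN.1]
  linarith

/-- sums of even functions over the pairs -/
lemma sum_sym (T : ℝ) {G : ℝ → ℝ} (hG : ∀ x, G (-x) = G x) :
    ∑ i ∈ II T, ∑ j ∈ II T, G (xx T i j) = NZ T * G 0 +
      2 * ∑ p ∈ ((II T) ×ˢ (II T)).filter (fun p : ℕ × ℕ => p.2 < p.1), G (xx T p.1 p.2) := by
  classical
  rw [← Finset.sum_product']
  have h1 := Finset.sum_filter_add_sum_filter_not ((II T) ×ˢ (II T))
    (fun p : ℕ × ℕ => p.2 < p.1) (fun p => G (xx T p.1 p.2))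
  have h2 := Finset.sum_filter_add_sum_filter_not (((II T) ×ˢ (II T)).filter
    (fun p : ℕ × ℕ => ¬ p.2 < p.1)) (fun p : ℕ × ℕ => p.1 = p.2) (fun p => G (xx T p.1 p.2))
  have h3 : ∑ p ∈ (((II T) ×ˢ (II T)).filter (fun p : ℕ × ℕ => ¬ p.2 < p.1)).filter
      (fun p : ℕ × ℕ => p.1 = p.2), G (xx T p.1 p.2) = NZ T * G 0 := by
    have e1 : (((II T) ×ˢ (II T)).filter (fun p : ℕ × ℕ => ¬ p.2 < p.1)).filter
      (fun p : ℕ × ℕ => p.1 = p.2) = (II T).image (fun j => (j, j)) := by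
      ext ⟨i, j⟩
      rw [Finset.mem_filter, Finset.mem_filter, Finset.mem_product, Finset.mem_image]
      constructor
      · rintro ⟨⟨⟨a, b⟩, c⟩, d⟩
        exact ⟨i, a, by simp only at d; rw [d]⟩
      · rintro ⟨k, hk, hkk⟩
        obtain ⟨rfl, rfl⟩ := Prod.mk.inj hkk
        exact ⟨⟨⟨hk, hk⟩, lt_irrefl _⟩, rfl⟩
    rw [e1, Finset.sum_image (by
      intro a _ b _ hab
      exact (Prod.mk.inj hab).1)]
    have e2 : ∀ j ∈ II T, G (xx T j j) = G 0 := by
      intro j _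
      unfold xx
      simp
    rw [Finset.sum_congr rfl e2, Finset.sum_const, nsmul_eq_mul, card_II]
  have h4 : ∑ p ∈ (((II T) ×ˢ (II T)).filter (fun p : ℕ × ℕ => ¬ p.2 < p.1)).filter
      (fun p : ℕ × ℕ => ¬ p.1 = p.2), G (xx T p.1 p.2) =
      ∑ p ∈ ((II T) ×ˢ (II T)).filter (fun p : ℕ × ℕ => p.2 < p.1), G (xx T p.1 p.2) := by
    refine Finset.sum_bij' (fun p _ => Prod.swap p) (fun p _ => Prod.swap p) ?_ ?_ ?_ ?_ ?_
    · rintro ⟨i, j⟩ hp
      rw [Finset.mem_filter, Finset.mem_filter, Finset.mem_product] at hp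
      rw [Finset.mem_filter, Finset.mem_product]
      obtain ⟨⟨⟨a, b⟩, c⟩, d⟩ := hp
      simp only at a b c d
      exact ⟨⟨b, a⟩, by show i < j; omega⟩
    · rintro ⟨i, j⟩ hp
      rw [Finset.mem_filter, Finset.mem_product] at hp
      rw [Finset.mem_filter, Finset.mem_filter, Finset.mem_product]
      obtain ⟨⟨a, b⟩, c⟩ := hp
      simp only at a b c
      exact ⟨⟨⟨b, a⟩, by show ¬ i < j; omega⟩, by show ¬ j = i; omega⟩
    · intro p _
      exact Prod.swap_swap p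
    · intro p _
      exact Prod.swap_swap p
    · rintro ⟨i, j⟩ _
      show G (xx T i j) = G (xx T j i)
      rw [← hG, xx_neg, neg_neg, xx_neg, hG]
  rw [← h1, ← h2, h3, h4]
  ring

open scoped Classical in
/-- the conclusion of the alternative hypothesis for almost all spacings -/
def AHf (l : Filter ℝ) : Prop := ∀ ε η : ℝ, 0 < ε → 0 < η → ∀ᶠ T in l,
  (((II T).filter (fun j => ∀ k : ℕ, 1 ≤ k → ε ≤ |dj j - k / 2|)).card : ℝ) ≤ η * NZ T

/-- few close pairs -/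
theorem no_close (hRH : RiemannHypothesis) (hl : l ≤ atTop) (h : AHf l) {η : ℝ} (hη : 0 < η) :
    ∀ᶠ T in l, (Mp T).real (Icc (-(1 / 4)) (1 / 4)) ≤ 1 + η := by
  classical
  obtain ⟨M, hM1, κ, hκ, hM⟩ := pairs_bad hRH (show (0 : ℝ) < 1 / 4 by norm_num)
    (show 0 < η / 16 by positivity)
  have hM0 : (1 : ℝ) ≤ M := by exact_mod_cast hM1
  filter_upwards [hl (hM (1 / 16) (by norm_num)), h (1 / 16) (η / (16 * M ^ 2)) (by norm_num)
    (by positivity), hl (eventually_ge_atTop 10), hl (N_asymp (show (0 : ℝ) < 1 by norm_num)),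
    hl (N_asymp (show (0 : ℝ) < η / 2 by positivity)), hl (eventually_ge_atTop (1 / κ))]
    with T h1 h2 hT hN hN2 hTκ
  have hn := nT_pos hT
  obtain ⟨B, hB⟩ : ∃ B : Finset ℕ, B = (II T).filter
    (fun j => ∀ k : ℕ, 1 ≤ k → 1 / 16 ≤ |dj j - k / 2|) := ⟨_, rfl⟩
  rw [← hB] at h2
  have h4 := h1 B
  have e1 : (Mp T).real (Icc (-(1 / 4)) (1 / 4)) = ∫ x, (Icc (-(1 / 4 : ℝ)) (1 / 4)).indicator
      (fun _ => (1 : ℝ)) x ∂(Mp T) := by
    rw [integral_indicator measurableSet_Icc, setIntegral_const, smul_eq_mul, mul_one]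
  rw [e1, Mp_ix hRH hT]
  have e2 := sum_sym T (G := (Icc (-(1 / 4 : ℝ)) (1 / 4)).indicator (fun _ => (1 : ℝ))) (by
    intro x
    by_cases hx : x ∈ Icc (-(1 / 4 : ℝ)) (1 / 4)
    · have hx' : -x ∈ Icc (-(1 / 4 : ℝ)) (1 / 4) := ⟨by linarith [hx.2], by linarith [hx.1]⟩
      rw [indicator_of_mem hx, indicator_of_mem hx']
    · have hx' : -x ∉ Icc (-(1 / 4 : ℝ)) (1 / 4) := fun h => hx
        ⟨by linarith [h.2], by linarith [h.1]⟩
      rw [indicator_of_notMem hx, indicator_of_notMem hx'])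
  unfold II at e2
  rw [e2, indicator_of_mem (show (0 : ℝ) ∈ Icc (-(1 / 4 : ℝ)) (1 / 4) by constructor <;> norm_num),
    mul_one]
  have h5 : ∑ p ∈ ((II T) ×ˢ (II T)).filter (fun p : ℕ × ℕ => p.2 < p.1),
      (Icc (-(1 / 4 : ℝ)) (1 / 4)).indicator (fun _ => (1 : ℝ)) (xx T p.1 p.2) ≤
      η / 16 * NZ T + M ^ 2 * B.card := by
    refine le_trans ?_ h4
    have e3 : ∀ p : ℕ × ℕ, (Icc (-(1 / 4 : ℝ)) (1 / 4)).indicator (fun _ => (1 : ℝ))
        (xx T p.1 p.2) = if xx T p.1 p.2 ∈ Icc (-(1 / 4 : ℝ)) (1 / 4) then 1 else 0 := by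
      intro p
      by_cases hx : xx T p.1 p.2 ∈ Icc (-(1 / 4 : ℝ)) (1 / 4)
      · rw [indicator_of_mem hx, if_pos hx]
      · rw [indicator_of_notMem hx, if_neg hx]
    simp_rw [e3]
    rw [Finset.sum_boole, Finset.filter_filter]
    refine Nat.cast_le.2 (Finset.card_le_card ?_)
    rintro ⟨i, j⟩ hp
    rw [Finset.mem_filter, Finset.mem_product] at hp ⊢
    obtain ⟨⟨hi, hj⟩, hji, hx⟩ := hp
    simp only at hi hj hji hx
    refine ⟨⟨hi, hj⟩, hji, hx.2, ?_⟩
    rintro ⟨g0, g1, g2, g3⟩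
    simp only at g0 g1 g2 g3
    have g4 := g2 j le_rfl hji
    rw [hB, Finset.mem_filter] at g4
    push Not at g4
    obtain ⟨k, hk1, hk2⟩ := g4 hj
    have g5 : (1 : ℝ) ≤ k := by exact_mod_cast hk1
    have g6 : dj j ≤ gt i - gt j := by
      have hj1 := (mem_II.1 hj).1
      have g7 := gt_low (i := i) (j := j + 1) (by omega) (by omega)
      have g8 : 0 ≤ (ord i - ord (j + 1)) * (Real.log (ord (j + 1)) + 1) / (2 * Real.pi) := by
        have hpi := Real.pi_pos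
        have g9 := SG.ord_mono (show 1 ≤ j + 1 by omega) (show j + 1 ≤ i by omega)
        have g10 : 0 ≤ Real.log (ord (j + 1)) + 1 := by
          have k1 : 1 ≤ κ * T := by
            rw [div_le_iff₀ hκ] at hTκ
            linarith
          have k2 := SG.ord_mono hj1 (Nat.le_succ j)
          have k3 : 0 ≤ Real.log (ord (j + 1)) := Real.log_nonneg (by
            show 1 ≤ ord (j + 1)
            have : ord j ≤ ord (j + 1) := k2
            linarith)
          linarith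
        apply div_nonneg _ (by positivity)
        apply mul_nonneg _ g10
        linarith
      unfold dj
      linarith
    rw [abs_lt] at hk2
    rw [abs_le] at g3
    linarith [hk2.1, g3.1, hx.2]
  have h6 : (M : ℝ) ^ 2 * B.card ≤ η / 16 * NZ T := by
    calc (M : ℝ) ^ 2 * B.card ≤ M ^ 2 * (η / (16 * M ^ 2) * NZ T) := by gcongr
      _ = η / 16 * NZ T := by field_simp
  have h7 : η / 16 * NZ T ≤ η / 16 * (2 * nT T) := by
    gcongr
    linarith [hN.2]
  unfold II at h5 h6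
  rw [div_le_iff₀ hn]
  nlinarith [hN2.2]

end Pool.Agent.Y749.AH
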