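import Pool.Agent.Y749.Rig.FFf
import Pool.Agent.H345R2.CT.D

/-! # The pair measures in terms of the list of the ordinates -/

set_option autoImplicit false

open MeasureTheory Set Filter Topology

namespace Pool.Agent.Y749.AH

open Pool.Agent.Y749.Rig
open H370 (mult)
open SG (ord NZ zmult ZS)

lemma rhs_of (hRH : RiemannHypothesis) {s : ℂ} (h1 : 0 < s.re) (h2 : s.re < 1)
    (h0 : riemannZeta s = 0) : s.re = 1 / 2 := by
  apply hRH s h0
  · rintro ⟨k, hk⟩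
    have := congrArg Complex.re hk
    simp at this
    have hk0 : (0 : ℝ) ≤ k := Nat.cast_nonneg k
    linarith
  · intro h; rw [h] at h2; simp at h2

lemma ZZ_line (hRH : RiemannHypothesis) {T : ℝ} {s : ℂ} (hs : s ∈ ZZ T) :
    (1 / 2 + Complex.I * s.im : ℂ) = s ∧ 0 < s.im ∧ s.im ≤ T ∧
      riemannZeta (1 / 2 + Complex.I * s.im) = 0 := by
  rw [mem_ZZ] at hs
  have h0 := zs_im_pos hs
  obtain ⟨h1, h2, h3, h4, h5⟩ := hs
  have h6 := rhs_of hRH h2 h3 h1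
  have h7 : (1 / 2 + Complex.I * s.im : ℂ) = s := by
    apply Complex.ext
    · simp; linarith
    · simp
  exact ⟨h7, h0, h5, by rw [h7]; exact h1⟩

lemma NZ_ZZ (T : ℝ) : NZ T = ∑ s ∈ ZZ T, mult riemannZeta s := by
  rw [SG.NZ_eq]
  refine Finset.sum_congr ?_ fun s _ => rfl
  ext s
  rw [Set.Finite.mem_toFinset, mem_ZZ]
  constructor
  · rintro ⟨h1, h2, h3, h4, h5⟩
    exact ⟨h1, h2, h3, h4.le, h5⟩
  · intro h
    exact ⟨h.1, h.2.1, h.2.2.1, zs_im_pos h, h.2.2.2.2⟩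

/-- sums over the zeros are sums over indices -/
theorem ix_sum (hRH : RiemannHypothesis) (T : ℝ) (f : ℝ → ℝ) :
    ∑ s ∈ ZZ T, mm s * f s.im = ∑ n ∈ Finset.Ioc 0 (NZ T), f (ord n) := by
  classical
  obtain ⟨J, hJ⟩ : ∃ J : ℂ → Finset ℕ, ∀ s, J s =
      Finset.Ioc (NZ s.im - mult riemannZeta s) (NZ s.im) := ⟨_, fun s => rfl⟩
  have hmle : ∀ s ∈ ZZ T, mult riemannZeta s ≤ NZ s.im := by
    intro s hs
    obtain ⟨h1, h2, h3, h4⟩ := ZZ_line hRH hs
    have := LG.CU.mult_le_NZ h2 h4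
    rw [h1] at this
    exact this
  have hord : ∀ s ∈ ZZ T, ∀ n, NZ s.im < n + mult riemannZeta s → n ≤ NZ s.im →
      1 ≤ n → ord n = s.im := by
    intro s hs n h5 h6 h7
    obtain ⟨h1, h2, h3, h4⟩ := ZZ_line hRH hs
    exact LG.CU.ord_eq_of h2 h4 (by rw [h1]; exact h5) h6 h7
  have hcard : ∀ s ∈ ZZ T, (J s).card = mult riemannZeta s := by
    intro s hs
    have := hmle s hs
    rw [hJ, Nat.card_Ioc]
    omega
  have hJord : ∀ s ∈ ZZ T, ∀ n ∈ J s, 1 ≤ n ∧ ord n = s.im := by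
    intro s hs n hn
    rw [hJ, Finset.mem_Ioc] at hn
    have h1 := hmle s hs
    exact ⟨by omega, hord s hs n (by omega) hn.2 (by omega)⟩
  have hdisj : (ZZ T : Set ℂ).PairwiseDisjoint J := by
    intro s hs s' hs' hne
    rw [Function.onFun, Finset.disjoint_left]
    intro n hn hn'
    have e1 := (hJord s hs n hn).2
    have e2 := (hJord s' hs' n hn').2
    apply hne
    obtain ⟨g1, _⟩ := ZZ_line hRH hs
    obtain ⟨g2, _⟩ := ZZ_line hRH hs'
    rw [← g1, ← g2, ← e1, ← e2]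
  have hsub : (ZZ T).biUnion J ⊆ Finset.Ioc 0 (NZ T) := by
    intro n hn
    rw [Finset.mem_biUnion] at hn
    obtain ⟨s, hs, hn⟩ := hn
    obtain ⟨g1, g2, g3, g4⟩ := ZZ_line hRH hs
    obtain ⟨h1, h2⟩ := hJord s hs n hn
    rw [Finset.mem_Ioc]
    exact ⟨by omega, (SG.ord_le_iff h1 T).mp (by rw [h2]; exact g3)⟩
  have hcardU : ((ZZ T).biUnion J).card = NZ T := by
    rw [Finset.card_biUnion hdisj, NZ_ZZ]
    exact Finset.sum_congr rfl hcard
  have hU : (ZZ T).biUnion J = Finset.Ioc 0 (NZ T) := by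
    apply Finset.eq_of_subset_of_card_le hsub
    rw [hcardU, Nat.card_Ioc]
    omega
  rw [← hU, Finset.sum_biUnion hdisj]
  refine Finset.sum_congr rfl fun s hs => ?_
  rw [Finset.sum_congr rfl (fun n hn => by rw [(hJord s hs n hn).2] : ∀ n ∈ J s, f (ord n) = f s.im),
    Finset.sum_const, hcard s hs, nsmul_eq_mul]
  rfl

/-- the normalised difference -/
noncomputable def xx (T : ℝ) (i j : ℕ) : ℝ := (ord i - ord j) * Real.log T / (2 * Real.pi)

theorem ix_double (hRH : RiemannHypothesis) (T : ℝ) (f : ℝ → ℝ) :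
    RR f (ZZ T) (ZZ T) (Real.log T) =
      ∑ i ∈ Finset.Ioc 0 (NZ T), ∑ j ∈ Finset.Ioc 0 (NZ T), f (xx T i j) := by
  unfold RR
  have h1 : ∀ s ∈ ZZ T, ∑ s' ∈ ZZ T,
      mm s * mm s' * f ((s.im - s'.im) * Real.log T / (2 * Real.pi)) =
      mm s * ∑ j ∈ Finset.Ioc 0 (NZ T), f ((s.im - ord j) * Real.log T / (2 * Real.pi)) := by
    intro s _
    rw [← ix_sum hRH T (fun x => f ((s.im - x) * Real.log T / (2 * Real.pi))), Finset.mul_sum]
    refine Finset.sum_congr rfl fun s' _ => ?_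
    ring
  rw [Finset.sum_congr rfl h1]
  exact ix_sum hRH T (fun x => ∑ j ∈ Finset.Ioc 0 (NZ T), f ((x - ord j) * Real.log T /
    (2 * Real.pi)))

theorem Mp_ix (hRH : RiemannHypothesis) {T : ℝ} (hT : 10 ≤ T) (f : ℝ → ℝ) :
    ∫ x, f x ∂(Mp T) = (∑ i ∈ Finset.Ioc 0 (NZ T), ∑ j ∈ Finset.Ioc 0 (NZ T), f (xx T i j)) /
      nT T := by
  rw [Mp_integral hT, ix_double hRH]

lemma NN_NZ (T : ℝ) : (H370.NN riemannZeta 0 T : ℝ) = NZ T := by
  rw [NZ_ZZ, ZZ_eq, ← Pool.Agent.Y744.sum_Zt]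
  push_cast
  rfl

/-- the number of zeros -/
theorem N_asymp {ε : ℝ} (hε : 0 < ε) : ∀ᶠ T in atTop,
    (1 - ε) * nT T ≤ (NZ T : ℝ) ∧ (NZ T : ℝ) ≤ (1 + ε) * nT T := by
  obtain ⟨T0, hT0, h⟩ := Pool.Agent.W54.TCF.NT_asymp' ε hε
  filter_upwards [eventually_ge_atTop T0] with T hT
  have h1 := h T hT
  have e : T / (2 * Real.pi) * Real.log T = nT T := by unfold nT; ring
  rw [e] at h1
  rw [← NN_NZ]
  exact h1

end Pool.Agent.Y749.AH
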