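import Pool.Agent.Y749.AH.Fej

/-! # The quantitative form -/

set_option autoImplicit false

open MeasureTheory Set Filter Topology

namespace Pool.Agent.Y749.AH

open Pool.Agent.Y749.Rig
open SG (ord NZ zmult ZS)

variable {l : Filter ℝ}

/-- lower bound for the Fejer kernel far from the half integers -/
lemma fej_ker {ε q x d : ℝ} (hε : 0 < ε) (hε4 : ε ≤ 1 / 4) (hq : 0 < q) (hq2 : q ≤ 1 / 2)
    (hx0 : 0 ≤ x) (hxq : x ≤ 1 / q) (hxd : |x - d| ≤ ε / 100)
    (hd : ∀ k : ℕ, 1 ≤ k → ε ≤ |d - k / 2|) : 394 / 1000 * (ε ^ 2 * q ^ 2) ≤ fl (tr 2) x := by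
  have h20 : (0 : ℝ) < 2 := by norm_num
  have hpi := Real.pi_pos
  have hpi2 : Real.pi ^ 2 ≤ 9.87 := by
    have := Real.pi_lt_d4
    nlinarith
  have hsm : ε ^ 2 * q ^ 2 ≤ 1 / 64 := by
    have h1 : ε ^ 2 ≤ 1 / 16 := by nlinarith
    have h2 : q ^ 2 ≤ 1 / 4 := by nlinarith
    calc ε ^ 2 * q ^ 2 ≤ 1 / 16 * (1 / 4) := by gcongr
      _ = 1 / 64 := by norm_num
  rcases le_or_gt x (1 / 4) with hx | hx
  · have h1 := sinc_low (h := 2) (r := 1 / 4) (x := x) h20 (by norm_num)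
      (by rw [abs_of_nonneg hx0]; exact hx)
    linarith
  · have hfar : ∀ k : ℤ, 99 / 100 * ε ≤ |x - k / 2| := by
      intro k
      rcases le_or_gt k 0 with h4 | h4
      · have h5 : (k : ℝ) ≤ 0 := by exact_mod_cast h4
        refine le_trans ?_ (le_abs_self _)
        linarith
      · have h6 := hd k.toNat (by omega)
        have h7 : ((k.toNat : ℕ) : ℝ) = k := by
          have : ((k.toNat : ℤ) : ℝ) = k := by rw [Int.toNat_of_nonneg h4.le]
          exact_mod_cast this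
        rw [h7] at h6
        have h8 : |d - k / 2| ≤ |x - k / 2| + |x - d| := by
          have : d - k / 2 = (x - k / 2) - (x - d) := by ring
          rw [this]
          exact abs_sub _ _
        linarith
    have h1 := sin_far (by positivity) hfar
    have hxp : 0 < x := by linarith
    rw [fl_tr h20 hxp.ne', div_pow, le_div_iff₀ (by positivity)]
    have h2 : (4 * (99 / 100 * ε)) ^ 2 ≤ Real.sin (Real.pi * 2 * x) ^ 2 := by
      rw [← sq_abs (Real.sin (Real.pi * 2 * x))]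
      exact pow_le_pow_left₀ (by positivity) h1 2
    have hxq' : x * q ≤ 1 := by rwa [le_div_iff₀ hq] at hxq
    have h3 : x ^ 2 * q ^ 2 ≤ 1 := by
      rw [← mul_pow]
      exact pow_le_one₀ (by positivity) hxq'
    calc 394 / 1000 * (ε ^ 2 * q ^ 2) * (Real.pi * 2 * x) ^ 2 =
        394 / 1000 * 4 * ε ^ 2 * (Real.pi ^ 2 * (x ^ 2 * q ^ 2)) := by ring
      _ ≤ 394 / 1000 * 4 * ε ^ 2 * (9.87 * 1) := by gcongr
      _ ≤ (4 * (99 / 100 * ε)) ^ 2 := by nlinarith [sq_nonneg ε]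
      _ ≤ _ := h2

open scoped Classical in
/-- **quantitative form** -/
theorem fej_quant (hRH : RiemannHypothesis) (hl : l ≤ atTop) {q ε : ℝ} (hq : 0 < q) (hε : 0 < ε)
    (hε4 : ε ≤ 1 / 4)
    (h : ∀ᶠ T in l, ∫ α in (0 : ℝ)..2, (2 - α) * Fr T α ≤ 2 + q ^ 3 * ε ^ 2) :
    ∀ᶠ T in l, (((II T).filter (fun j => ∀ k : ℕ, 1 ≤ k → ε ≤ |dj j - k / 2|)).card : ℝ) ≤
      2 * q * NZ T := by
  rcases le_or_gt (1 / 2) q with hq2 | hq2
  · refine Filter.Eventually.of_forall fun T => ?_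
    have h1 : (((II T).filter (fun j => ∀ k : ℕ, 1 ≤ k → ε ≤ |dj j - k / 2|)).card : ℝ) ≤
        (II T).card := by exact_mod_cast Finset.card_filter_le _ _
    rw [card_II] at h1
    have h2 : (0 : ℝ) ≤ NZ T := Nat.cast_nonneg _
    nlinarith
  obtain ⟨ζ, hζ⟩ : ∃ ζ : ℝ, ζ = ε ^ 2 * q ^ 3 / 100 := ⟨_, rfl⟩
  have hζ0 : 0 < ζ := by rw [hζ]; positivity
  have hsm : ε ^ 2 * q ^ 2 ≤ 1 / 64 := by
    have h1 : ε ^ 2 ≤ 1 / 16 := by nlinarith
    have h2 : q ^ 2 ≤ 1 / 4 := by nlinarith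
    calc ε ^ 2 * q ^ 2 ≤ 1 / 16 * (1 / 4) := by gcongr
      _ = 1 / 64 := by norm_num
  have hζ1 : ζ ≤ 1 / 100 := by
    rw [hζ]
    have : ε ^ 2 * q ^ 3 = ε ^ 2 * q ^ 2 * q := by ring
    rw [this]
    have h0 : 0 < ε ^ 2 * q ^ 2 := by positivity
    nlinarith
  obtain ⟨κ, hκ⟩ : ∃ κ : ℝ, κ = q / 100 := ⟨_, rfl⟩
  have hκ0 : 0 < κ := by rw [hκ]; positivity
  have hκ1 : κ ≤ 1 := by rw [hκ]; linarith
  have hκT : Tendsto (fun T : ℝ => κ * T) atTop atTop := tendsto_id.const_mul_atTop hκ0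
  have hU : 0 < 1 / q := by positivity
  have hnT : Tendsto nT atTop atTop := by
    refine tendsto_atTop_mono' _ ?_ tendsto_id
    filter_upwards [eventually_ge_atTop 1,
      Real.tendsto_log_atTop.eventually_ge_atTop (2 * Real.pi)] with T h1 h2
    unfold nT
    have hpi := Real.pi_pos
    rw [le_div_iff₀ (by positivity)]
    show T * (2 * Real.pi) ≤ T * Real.log T
    gcongr
  filter_upwards [h, hl (eventually_ge_atTop (max 10 (10 / κ))), hl (N_asymp hζ0),
    hl (hκT.eventually (N_asymp (show (0 : ℝ) < 1 by norm_num))),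
    hl (hnT.eventually_ge_atTop (100 / q)), hl (cmp_close hκ0 hU.le (show 0 < ε / 100 by positivity)),
    hl (Real.tendsto_log_atTop.eventually_ge_atTop (100 * Real.pi / q))]
    with T hF hT hN hNκ hbig hcmp hlog
  have hT10 : 10 ≤ T := (le_max_left _ _).trans hT
  have hn := nT_pos hT10
  have hL1 := one_lt_log (show 3 ≤ T by linarith)
  have hpi := Real.pi_pos
  have hlow : (NZ (κ * T) : ℝ) ≤ q / 50 * nT T := by
    have h1 : (NZ (κ * T) : ℝ) ≤ 2 * nT (κ * T) := by linarith [hNκ.2]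
    have h2 : nT (κ * T) ≤ κ * nT T := by
      unfold nT
      have h3 : Real.log (κ * T) ≤ Real.log T := by
        apply Real.log_le_log (by positivity)
        nlinarith
      have h4 : κ * (T * Real.log T / (2 * Real.pi)) = κ * T * Real.log T / (2 * Real.pi) := by
        ring
      rw [h4]
      gcongr
    rw [hκ] at h2 h1 ⊢
    linarith
  -- the exceptional set
  obtain ⟨E, hE⟩ : ∃ E : Finset ℕ, E = (II T).filter (fun j => ¬ (κ * T ≤ ord j ∧ j + 1 ∈ II T ∧
      xx T (j + 1) j ≤ 1 / q)) := ⟨_, rfl⟩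
  have hEsub : E ⊆ Finset.Ioc 0 (NZ (κ * T)) ∪ ({NZ T} ∪
        (II T).filter (fun j => j + 1 ∈ II T ∧ 1 / q < xx T (j + 1) j)) := by
    intro j hj
    rw [hE, Finset.mem_filter] at hj
    obtain ⟨h1, h2⟩ := hj
    rw [Finset.mem_union, Finset.mem_union]
    by_cases g1 : κ * T ≤ ord j
    · by_cases g2 : j + 1 ∈ II T
      · right; right
        rw [Finset.mem_filter]
        refine ⟨h1, g2, ?_⟩
        by_contra g3
        push Not at g3
        exact h2 ⟨g1, g2, g3⟩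
      · right; left
        rw [Finset.mem_singleton]
        unfold II at h1 g2
        rw [Finset.mem_Ioc] at h1 g2
        omega
    · left
      push Not at g1
      rw [Finset.mem_Ioc]
      have := (mem_II.1 h1).1
      exact ⟨by omega, (SG.ord_le_iff this _).1 g1.le⟩
  have hEc : (E.card : ℝ) ≤ q / 50 * nT T + (1 + q * nT T) := by
    have h1 := (Finset.card_le_card hEsub).trans ((Finset.card_union_le _ _).trans
      (Nat.add_le_add_left (Finset.card_union_le _ _) _))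
    rw [Nat.card_Ioc, Nat.sub_zero, Finset.card_singleton] at h1
    have h2 : (E.card : ℝ) ≤ NZ (κ * T) + (1 +
        ((II T).filter (fun j => j + 1 ∈ II T ∧ 1 / q < xx T (j + 1) j)).card) := by
      exact_mod_cast h1
    have h3 := big_card hT10 hU
    have h4 : nT T / (1 / q) = q * nT T := by field_simp
    rw [h4] at h3
    linarith
  obtain ⟨A, hA⟩ : ∃ A : Finset ℕ, A = (II T).filter
    (fun j => ∀ k : ℕ, 1 ≤ k → ε ≤ |dj j - k / 2|) := ⟨_, rfl⟩
  rw [← hA]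
  -- the sum over the pairs
  obtain ⟨G, hG⟩ : ∃ G : ℝ → ℝ, ∀ x, G x = fl (tr 2) x * ww (2 * Real.pi * x / Real.log T) :=
    ⟨_, fun x => rfl⟩
  have h20 : (0 : ℝ) < 2 := by norm_num
  have hG0 : ∀ x, 0 ≤ G x := fun x => by
    rw [hG]
    exact mul_nonneg (fl_tr_nonneg h20 x) (ww_pos _).le
  have hGe : ∀ x, G (-x) = G x := fun x => by
    rw [hG, hG, fl_even]
    congr 1
    unfold ww
    rw [mul_neg, neg_div, neg_sq]
  have hG1 : G 0 = 1 := by
    rw [hG, fl_tr_zero h20, mul_zero, zero_div, ww_zero, mul_one]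
  have h1 : ∑ i ∈ II T, ∑ j ∈ II T, G (xx T i j) ≤ nT T * (1 + q ^ 3 * ε ^ 2 / 2) := by
    have e1 := Fr_tr2 T
    rw [Fr_pair (tr_int h20)] at e1
    have e2 : ∫ x, fl (tr 2) x * ww (2 * Real.pi * x / Real.log T) ∂(Mp T) =
        ∫ x, G x ∂(Mp T) := integral_congr_ae (ae_of_all _ fun x => (hG x).symm)
    rw [e2, Mp_ix hRH hT10] at e1
    have e3 : (∑ i ∈ Finset.Ioc 0 (NZ T), ∑ j ∈ Finset.Ioc 0 (NZ T), G (xx T i j)) / nT T ≤
        1 + q ^ 3 * ε ^ 2 / 2 := by
      rw [e1]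
      linarith
    rw [div_le_iff₀ hn] at e3
    unfold II
    linarith
  rw [sum_sym T hGe, hG1, mul_one] at h1
  have h2 : (394 / 1000 * (ε ^ 2 * q ^ 2)) * (99 / 100) * ((A \ E).card : ℝ) ≤
      ∑ p ∈ ((II T) ×ˢ (II T)).filter (fun p : ℕ × ℕ => p.2 < p.1), G (xx T p.1 p.2) := by
    have e1 : ∑ p ∈ (A \ E).image (fun j => (j + 1, j)), G (xx T p.1 p.2) =
        ∑ j ∈ A \ E, G (xx T (j + 1) j) :=
      Finset.sum_image (fun a _ b _ hab => (Prod.mk.inj hab).2)
    have e2 : ∑ p ∈ (A \ E).image (fun j => (j + 1, j)), G (xx T p.1 p.2) ≤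
        ∑ p ∈ ((II T) ×ˢ (II T)).filter (fun p : ℕ × ℕ => p.2 < p.1), G (xx T p.1 p.2) := by
      refine Finset.sum_le_sum_of_subset_of_nonneg ?_ fun p _ _ => hG0 _
      rintro p hp
      rw [Finset.mem_image] at hp
      obtain ⟨j, hj, rfl⟩ := hp
      rw [Finset.mem_sdiff, hA, hE, Finset.mem_filter, Finset.mem_filter] at hj
      obtain ⟨⟨g1, g2⟩, g3⟩ := hj
      have g4 : κ * T ≤ ord j ∧ j + 1 ∈ II T ∧ xx T (j + 1) j ≤ 1 / q := by
        by_contra hcon
        exact g3 ⟨g1, hcon⟩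
      rw [Finset.mem_filter, Finset.mem_product]
      exact ⟨⟨g4.2.1, g1⟩, Nat.lt_succ_self j⟩
    refine le_trans ?_ e2
    rw [e1]
    have e3 : ∑ j ∈ A \ E, (394 / 1000 * (ε ^ 2 * q ^ 2)) * (99 / 100) ≤
        ∑ j ∈ A \ E, G (xx T (j + 1) j) := by
      refine Finset.sum_le_sum fun j hj => ?_
      rw [Finset.mem_sdiff, hA, hE, Finset.mem_filter, Finset.mem_filter] at hj
      obtain ⟨⟨g1, g2⟩, g3⟩ := hj
      have g4 : κ * T ≤ ord j ∧ j + 1 ∈ II T ∧ xx T (j + 1) j ≤ 1 / q := by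
        by_contra hcon
        exact g3 ⟨g1, hcon⟩
      obtain ⟨g5, g6, g7⟩ := g4
      have g8 := (mem_II.1 g1).1
      have g9 := hcmp (j + 1) j g8 (Nat.le_succ j) g6 g5 g7
      have g10 := xx_nonneg (by linarith : 1 ≤ T) g8 (Nat.le_succ j)
      have g11 := fej_ker hε hε4 hq hq2.le g10 g7 g9 g2
      rw [hG]
      have g12 : 99 / 100 ≤ ww (2 * Real.pi * xx T (j + 1) j / Real.log T) := by
        have k1 := ww_sub (2 * Real.pi * xx T (j + 1) j / Real.log T)
        have k2 : |2 * Real.pi * xx T (j + 1) j / Real.log T| ≤ 1 / 50 := by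
          rw [abs_of_nonneg (by positivity), div_le_iff₀ (by linarith)]
          have k3 : 2 * Real.pi * xx T (j + 1) j ≤ 2 * Real.pi * (1 / q) := by gcongr
          have k4 : 2 * Real.pi * (1 / q) = 1 / 50 * (100 * Real.pi / q) := by ring
          linarith
        have k3 : (2 * Real.pi * xx T (j + 1) j / Real.log T) ^ 2 ≤ (1 / 50) ^ 2 := by
          rw [← sq_abs]
          exact pow_le_pow_left₀ (abs_nonneg _) k2 2
        have k4 := (abs_le.1 k1).2
        nlinarith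
      have g13 : (0 : ℝ) ≤ 394 / 1000 * (ε ^ 2 * q ^ 2) := by positivity
      calc (394 / 1000 * (ε ^ 2 * q ^ 2)) * (99 / 100) ≤ fl (tr 2) (xx T (j + 1) j) *
            ww (2 * Real.pi * xx T (j + 1) j / Real.log T) := by
            apply mul_le_mul g11 g12 (by norm_num) (fl_tr_nonneg h20 _)
        _ = _ := rfl
    rw [Finset.sum_const, nsmul_eq_mul] at e3
    linarith
  have h3 : (39 / 100 * (ε ^ 2 * q ^ 2)) * ((A \ E).card : ℝ) ≤
      (39 / 100 * (ε ^ 2 * q ^ 2)) * (66 / 100 * q * nT T) := by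
    have e1 : 2 * ((394 / 1000 * (ε ^ 2 * q ^ 2)) * (99 / 100) * ((A \ E).card : ℝ)) ≤
        nT T * (q ^ 3 * ε ^ 2 / 2 + ζ) := by
      have := hN.1
      nlinarith
    have e2 : nT T * (q ^ 3 * ε ^ 2 / 2 + ζ) = (51 / 100) * (ε ^ 2 * q ^ 2) * (q * nT T) := by
      rw [hζ]
      ring
    rw [e2] at e1
    have e3 : 0 ≤ (ε ^ 2 * q ^ 2) * ((A \ E).card : ℝ) := by positivity
    have e4 : 0 ≤ (ε ^ 2 * q ^ 2) * (q * nT T) := by positivity
    nlinarith
  have h4 : ((A \ E).card : ℝ) ≤ 66 / 100 * q * nT T :=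
    le_of_mul_le_mul_left h3 (by positivity)
  have h5 : A.card ≤ E.card + (A \ E).card := by
    have := Finset.card_le_card (show A ⊆ E ∪ (A \ E) by
      intro j hj
      rw [Finset.mem_union, Finset.mem_sdiff]
      by_cases h : j ∈ E
      · exact Or.inl h
      · exact Or.inr ⟨hj, h⟩)
    exact this.trans (Finset.card_union_le _ _)
  have h6 : (A.card : ℝ) ≤ E.card + (A \ E).card := by exact_mod_cast h5
  have h7 : 1 ≤ q / 100 * nT T := by
    have h8 : q / 100 * (100 / q) ≤ q / 100 * nT T := by gcongr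
    have h9 : q / 100 * (100 / q) = 1 := by field_simp
    linarith
  have h8 : 99 / 100 * nT T ≤ NZ T := by nlinarith [hN.1]
  have h9 : q * (99 / 100 * nT T) ≤ q * NZ T := by gcongr
  nlinarith

end Pool.Agent.Y749.AH
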