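import Pool.Agent.Y749.AH.Excl
import Pool.Agent.Y749.AH.Quant

/-! # The statements in terms of the list of the ordinates -/

set_option autoImplicit false

open MeasureTheory Set Filter Topology
open Complex (I)

namespace Pool.Agent.Y749.AH.M

open Pool.Agent.Y749.Rig
open Pool.Agent.Y749.AH
open SG (ord NZ)

variable {l : Filter ℝ} {θ s : ℝ}

/-- Montgomery's function -/
noncomputable def F (α T : ℝ) : ℝ :=
  (2 * Real.pi / (T * Real.log T) * ∑ i ∈ Finset.Icc 1 (NZ T), ∑ j ∈ Finset.Icc 1 (NZ T),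
    (T : ℂ) ^ (I * α * (ord i - ord j)) * (4 / (4 + (ord i - ord j) ^ 2)) : ℂ).re

/-- the spacings -/
noncomputable def d (j : ℕ) : ℝ :=
  (ord (j + 1) * Real.log (ord (j + 1)) - ord j * Real.log (ord j)) / (2 * Real.pi)

/-- the normalised differences -/
noncomputable def x (T : ℝ) (i j : ℕ) : ℝ := (ord i - ord j) * Real.log T / (2 * Real.pi)

lemma d_eq (j : ℕ) : d j = dj j := by
  unfold d dj gt
  rw [sub_div]

lemma Icc_II (T : ℝ) : Finset.Icc 1 (NZ T) = II T := by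
  unfold II
  ext n
  rw [Finset.mem_Icc, Finset.mem_Ioc]
  omega

lemma F_eq (hRH : RiemannHypothesis) {T : ℝ} (hT : 10 ≤ T) (α : ℝ) : F α T = Fr T α := by
  have hn := nT_pos hT
  have hT0 : (T : ℂ) ≠ 0 := by
    have : T ≠ 0 := by linarith
    exact_mod_cast this
  have hpi := Real.pi_pos
  have hL := one_lt_log (show 3 ≤ T by linarith)
  have hLp : 0 < Real.log T := by linarith
  have h1 : Fr T α = (∑ i ∈ II T, ∑ j ∈ II T, Real.cos (α * Real.log T * (ord i - ord j)) *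
      ww (ord i - ord j)) / nT T := by
    unfold Fr
    rw [Mp_ix hRH hT (fun x => Real.cos (2 * Real.pi * α * x) * ww (2 * Real.pi * x / Real.log T))]
    congr 1
    refine Finset.sum_congr rfl fun i _ => Finset.sum_congr rfl fun j _ => ?_
    show Real.cos (2 * Real.pi * α * xx T i j) * ww (2 * Real.pi * xx T i j / Real.log T) = _
    unfold xx
    congr 2
    · field_simp
    · field_simp
  have h2 : ∀ i j : ℕ, (T : ℂ) ^ (I * α * (ord i - ord j)) * (4 / (4 + (ord i - ord j) ^ 2)) =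
      ((Real.cos (α * Real.log T * (ord i - ord j)) * ww (ord i - ord j) : ℝ) : ℂ) +
      ((Real.sin (α * Real.log T * (ord i - ord j)) * ww (ord i - ord j) : ℝ) : ℂ) * I := by
    intro i j
    have e1 : (T : ℂ) ^ (I * α * (ord i - ord j)) =
        ((Real.cos (α * Real.log T * (ord i - ord j)) : ℝ) : ℂ) +
        ((Real.sin (α * Real.log T * (ord i - ord j)) : ℝ) : ℂ) * I := by
      rw [Complex.cpow_def_of_ne_zero hT0, ← Complex.ofReal_log (by linarith),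
        Complex.ofReal_cos, Complex.ofReal_sin, ← Complex.exp_mul_I]
      congr 1
      push_cast
      ring
    rw [e1]
    unfold ww
    push_cast
    ring
  unfold F
  rw [Icc_II]
  simp_rw [h2]
  have h3 : (2 * Real.pi / (T * Real.log T) : ℂ) = ((1 / nT T : ℝ) : ℂ) := by
    have : (1 / nT T : ℝ) = 2 * Real.pi / (T * Real.log T) := by
      unfold nT
      field_simp
    rw [this]
    push_cast
    rfl
  rw [h3, Complex.re_ofReal_mul, Complex.re_sum]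
  have h4 : ∀ i ∈ II T, (∑ j ∈ II T,
      (((Real.cos (α * Real.log T * (ord i - ord j)) * ww (ord i - ord j) : ℝ) : ℂ) +
      ((Real.sin (α * Real.log T * (ord i - ord j)) * ww (ord i - ord j) : ℝ) : ℂ) * I)).re =
      ∑ j ∈ II T, Real.cos (α * Real.log T * (ord i - ord j)) * ww (ord i - ord j) := by
    intro i _
    rw [Complex.re_sum]
    refine Finset.sum_congr rfl fun j _ => ?_
    rw [Complex.add_re, Complex.ofReal_re, Complex.re_ofReal_mul, Complex.I_re, mul_zero, add_zero]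
  rw [Finset.sum_congr rfl h4, h1]
  ring

open scoped Classical in
lemma ncard_II (T : ℝ) (P : ℕ → Prop) :
    {j : ℕ | 1 ≤ j ∧ j ≤ NZ T ∧ P j}.ncard = ((II T).filter P).card := by
  rw [← Set.ncard_coe_finset]
  congr 1
  ext j
  rw [Finset.mem_coe, Finset.mem_filter]
  unfold II
  rw [Finset.mem_Ioc, mem_setOf_eq]
  constructor
  · rintro ⟨h1, h2, h3⟩
    exact ⟨⟨by omega, h2⟩, h3⟩
  · rintro ⟨⟨h1, h2⟩, h3⟩
    exact ⟨by omega, h2, h3⟩

open scoped Classical in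
lemma ncard_pairs (hRH : RiemannHypothesis) {T : ℝ} (hT : 10 ≤ T) {S : Set ℝ}
    (hS : MeasurableSet S) :
    ({p : ℕ × ℕ | (1 ≤ p.1 ∧ p.1 ≤ NZ T) ∧ (1 ≤ p.2 ∧ p.2 ≤ NZ T) ∧ x T p.1 p.2 ∈ S}.ncard : ℝ) =
      (Mp T).real S * nT T := by
  have hn := nT_pos hT
  rw [Mp_card hRH hT hS, div_mul_cancel₀ _ hn.ne', ← Set.ncard_coe_finset]
  congr 2
  ext p
  rw [Finset.mem_coe, Finset.mem_filter, Finset.mem_product]
  unfold II
  rw [Finset.mem_Ioc, Finset.mem_Ioc, mem_setOf_eq]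
  constructor
  · rintro ⟨⟨h1, h2⟩, ⟨h3, h4⟩, h5⟩
    exact ⟨⟨⟨by omega, h2⟩, ⟨by omega, h4⟩⟩, h5⟩
  · rintro ⟨⟨⟨h1, h2⟩, ⟨h3, h4⟩⟩, h5⟩
    exact ⟨⟨by omega, h2⟩, ⟨by omega, h4⟩, h5⟩

/-- the window and the coset -/
def WS (a R b s ε : ℝ) : Set ℝ := {y | a ≤ y ∧ y ≤ a + R ∧ ∀ k : ℤ, ε ≤ |y - b - k * s|}

lemma WS_meas (a R b s ε : ℝ) : MeasurableSet (WS a R b s ε) := by
  have h1 : WS a R b s ε = {y | a ≤ y} ∩ ({y | y ≤ a + R} ∩ ⋂ k : ℤ, {y | ε ≤ |y - b - k * s|}) := by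
    ext y
    simp only [WS, mem_setOf_eq, mem_inter_iff, mem_iInter]
  rw [h1]
  refine (measurableSet_le measurable_const measurable_id).inter
    ((measurableSet_le measurable_id measurable_const).inter (MeasurableSet.iInter fun k => ?_))
  have : Continuous fun y : ℝ => |y - b - k * s| := by fun_prop
  exact measurableSet_le measurable_const this.measurable

/-- the number of the pairs -/
noncomputable def W (T a R b s ε : ℝ) : ℕ :=
  {p : ℕ × ℕ | (1 ≤ p.1 ∧ p.1 ≤ NZ T) ∧ (1 ≤ p.2 ∧ p.2 ≤ NZ T) ∧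
    a ≤ x T p.1 p.2 ∧ x T p.1 p.2 ≤ a + R ∧ ∀ k : ℤ, ε ≤ |x T p.1 p.2 - b - k * s|}.ncard

lemma W_eq (hRH : RiemannHypothesis) {T : ℝ} (hT : 10 ≤ T) (a R b s ε : ℝ) :
    (W T a R b s ε : ℝ) = (Mp T).real (WS a R b s ε) * nT T :=
  ncard_pairs hRH hT (WS_meas a R b s ε)

lemma sin_le_dist (hθ : 0 < θ) (y : ℝ) (k : ℤ) :
    |Real.sin (Real.pi * θ * y)| ≤ Real.pi * θ * |y - k * (1 / θ)| := by
  have hpi := Real.pi_pos
  have h3 := Real.abs_sin_le_abs (x := Real.pi * θ * y - k * Real.pi)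
  rw [Real.sin_sub_int_mul_pi, abs_mul] at h3
  have h4 : |((-1 : ℝ) ^ k)| = 1 := by rw [abs_zpow, abs_neg, abs_one, one_zpow]
  rw [h4, one_mul] at h3
  have h5 : Real.pi * θ * y - k * Real.pi = Real.pi * θ * (y - k * (1 / θ)) := by
    field_simp
  rw [h5, abs_mul, abs_of_pos (by positivity : 0 < Real.pi * θ)] at h3
  exact h3

lemma dist_le_sin {ε : ℝ} (hθ : 0 < θ) (hε : 0 < ε) {y : ℝ}
    (h : ∀ k : ℤ, ε ≤ |y - k * (1 / θ)|) : 2 * (θ * ε) ≤ |Real.sin (Real.pi * θ * y)| := by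
  have h1 := sin_far (d := θ * y / 2) (ε := θ * ε / 2) (by positivity) (by
    intro k
    have h2 := h k
    have h3 : θ * y / 2 - k / 2 = θ / 2 * (y - k * (1 / θ)) := by
      field_simp
    rw [h3, abs_mul, abs_of_pos (by positivity : 0 < θ / 2)]
    calc θ * ε / 2 = θ / 2 * ε := by ring
      _ ≤ _ := by gcongr)
  rw [show Real.pi * 2 * (θ * y / 2) = Real.pi * θ * y by ring] at h1
  linarith

lemma set1 (hθ : 0 < θ) (a R b ε : ℝ) :
    {y | a ≤ y ∧ y ≤ a + R ∧ ε ≤ |Real.sin (Real.pi * θ * (y - b))|} ⊆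
      WS a R b (1 / θ) (ε / (Real.pi * θ)) := by
  rintro y ⟨h1, h2, h3⟩
  refine ⟨h1, h2, fun k => ?_⟩
  have hpi := Real.pi_pos
  have h4 := sin_le_dist hθ (y - b) k
  rw [div_le_iff₀ (by positivity)]
  linarith

lemma set2 {ε : ℝ} (hθ : 0 < θ) (hε : 0 < ε) (a R b : ℝ) :
    WS a R b (1 / θ) ε ⊆
    {y | a ≤ y ∧ y ≤ a + R ∧ 2 * (θ * ε) ≤ |Real.sin (Real.pi * θ * (y - b))|} := by
  rintro y ⟨h1, h2, h3⟩
  exact ⟨h1, h2, dist_le_sin hθ hε h3⟩

/-- almost all spacings are near the lattice `s ℤ` -/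
def Spacings (l : Filter ℝ) (s : ℝ) : Prop := ∀ ε η : ℝ, 0 < ε → 0 < η → ∀ᶠ T in l,
  ({j : ℕ | 1 ≤ j ∧ j ≤ NZ T ∧ ∀ k : ℤ, ε ≤ |d j - k * s|}.ncard : ℝ) ≤ η * NZ T

/-- some long windows -/
def SomeWindows (l : Filter ℝ) (s : ℝ) : Prop := ∀ ε η R0 : ℝ, 0 < ε → 0 < η → 0 < R0 →
  ∃ R : ℝ, R0 ≤ R ∧ ∃ a b : ℝ, ∀ᶠ T in l, (W T a R b s ε : ℝ) ≤ η * R * NZ T

/-- all windows -/
def AllWindows (l : Filter ℝ) (s : ℝ) : Prop := ∀ ε η R a : ℝ, 0 < ε → 0 < η → 0 < R →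
  ∀ᶠ T in l, (W T a R 0 s ε : ℝ) ≤ η * NZ T

/-- mass at `θ` -/
def Mass (l : Filter ℝ) (θ : ℝ) : Prop := ∀ δ η : ℝ, 0 < δ → 0 < η → ∀ᶠ T in l,
  1 - η ≤ ∫ α in (θ - δ)..(θ + δ), F α T

/-- weak periodicity -/
def Periodic (l : Filter ℝ) (θ : ℝ) : Prop := ∀ φ : ℝ → ℝ, Continuous φ → HasCompactSupport φ →
  Tendsto (fun T => ∫ α, φ α * (F (α + θ) T - F α T)) l (𝓝 0)

lemma mass_iff (hRH : RiemannHypothesis) (hl : l ≤ atTop) : Mass l θ ↔ MassL l θ := by
  have h0 : ∀ T : ℝ, 10 ≤ T → ∀ a b : ℝ, ∫ α in a..b, F α T = ∫ α in a..b, Fr T α := by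
    intro T hT a b
    exact intervalIntegral.integral_congr fun α _ => F_eq hRH hT α
  constructor
  · intro h δ η hδ hη
    filter_upwards [h δ η hδ hη, hl (eventually_ge_atTop 10)] with T h1 h2
    rwa [h0 T h2] at h1
  · intro h δ η hδ hη
    filter_upwards [h δ η hδ hη, hl (eventually_ge_atTop 10)] with T h1 h2
    rwa [h0 T h2]

lemma per_iff (hRH : RiemannHypothesis) (hl : l ≤ atTop) : Periodic l θ ↔ PerL l θ := by
  have h0 : ∀ φ : ℝ → ℝ, (fun T => ∫ α, φ α * (F (α + θ) T - F α T)) =ᶠ[l]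
      fun T => ∫ α, φ α * (Fr T (α + θ) - Fr T α) := by
    intro φ
    filter_upwards [hl (eventually_ge_atTop 10)] with T hT
    refine integral_congr_ae (ae_of_all _ fun α => ?_)
    show φ α * (F (α + θ) T - F α T) = φ α * (Fr T (α + θ) - Fr T α)
    rw [F_eq hRH hT, F_eq hRH hT]
  constructor
  · intro h φ h1 h2
    exact (tendsto_congr' (h0 φ)).1 (h φ h1 h2)
  · intro h φ h1 h2
    exact (tendsto_congr' (h0 φ)).2 (h φ h1 h2)

lemma spac_iff (hs : 0 < s) : Spacings l s ↔ SinFew l (1 / s) := by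
  classical
  have hθ : 0 < 1 / s := by positivity
  have hs' : 1 / (1 / s) = s := one_div_one_div s
  have hpi := Real.pi_pos
  constructor
  · intro h ε η hε hη
    filter_upwards [h (ε / (Real.pi * (1 / s))) η (by positivity) hη] with T hT
    rw [ncard_II] at hT
    refine le_trans ?_ hT
    refine Nat.cast_le.2 (Finset.card_le_card ?_)
    intro j hj
    rw [Finset.mem_filter] at hj ⊢
    refine ⟨hj.1, fun k => ?_⟩
    have h4 := sin_le_dist hθ (dj j) k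
    rw [hs'] at h4
    rw [d_eq, div_le_iff₀ (by positivity)]
    linarith [hj.2]
  · intro h ε η hε hη
    filter_upwards [h (2 * (1 / s * ε)) η (by positivity) hη] with T hT
    rw [ncard_II]
    refine le_trans ?_ hT
    refine Nat.cast_le.2 (Finset.card_le_card ?_)
    intro j hj
    rw [Finset.mem_filter] at hj ⊢
    refine ⟨hj.1, dist_le_sin hθ hε fun k => ?_⟩
    rw [hs', ← d_eq]
    exact hj.2 k

lemma NZ_le (hl : l ≤ atTop) : ∀ᶠ T in l, (NZ T : ℝ) ≤ 2 * nT T ∧ nT T ≤ 2 * NZ T := by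
  filter_upwards [hl (N_asymp (show (0 : ℝ) < 1 / 2 by norm_num)), hl (eventually_ge_atTop 10)]
    with T h1 h2
  have := nT_pos h2
  constructor <;> linarith [h1.1, h1.2]

lemma some_far (hRH : RiemannHypothesis) (hl : l ≤ atTop) (hs : 0 < s) (h : SomeWindows l s) :
    FarL l (1 / s) := by
  intro ε η R0 hε hη hR0
  have hθ : 0 < 1 / s := by positivity
  have hpi := Real.pi_pos
  obtain ⟨R, hR, a, b, h1⟩ := h (ε / (Real.pi * (1 / s))) (η / 2) R0 (by positivity)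
    (by positivity) hR0
  refine ⟨R, hR, a, b, ?_⟩
  filter_upwards [h1, hl (eventually_ge_atTop 10), NZ_le hl] with T g1 hT g2
  have hn := nT_pos hT
  have hfin := Mp_fin T
  rw [W_eq hRH hT] at g1
  have g3 := set1 hθ a R b ε
  rw [one_div_one_div] at g3
  have g4 := measureReal_mono (μ := Mp T) g3
  have hR0' : 0 ≤ R := by linarith
  have g5 : (Mp T).real (WS a R b s (ε / (Real.pi * (1 / s)))) * nT T ≤ η * R * nT T := by
    refine g1.trans ?_
    calc η / 2 * R * NZ T ≤ η / 2 * R * (2 * nT T) := by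
          gcongr
          exact g2.1
      _ = _ := by ring
  have g6 := le_of_mul_le_mul_right g5 hn
  exact g4.trans g6

lemma pair_all (hRH : RiemannHypothesis) (hl : l ≤ atTop) (hs : 0 < s) (h : PairL l (1 / s)) :
    AllWindows l s := by
  intro ε η R a hε hη hR
  have hθ : 0 < 1 / s := by positivity
  filter_upwards [h (|a| + R) (2 * (1 / s * ε)) (η / 2) (by positivity) (by positivity)
    (by positivity), hl (eventually_ge_atTop 10), NZ_le hl] with T h1 hT g2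
  have hn := nT_pos hT
  have hfin := Mp_fin T
  rw [W_eq hRH hT]
  have g3 := set2 hθ hε a R 0
  rw [one_div_one_div] at g3
  have g4 : WS a R 0 s ε ⊆ {x | |x| ≤ |a| + R ∧
      2 * (1 / s * ε) ≤ |Real.sin (Real.pi * (1 / s) * x)|} := by
    intro y hy
    obtain ⟨k1, k2, k3⟩ := g3 hy
    rw [sub_zero] at k3
    refine ⟨?_, k3⟩
    rw [abs_le]
    have := neg_abs_le a
    have := le_abs_self a
    constructor <;> linarith
  have g5 := measureReal_mono (μ := Mp T) g4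
  calc (Mp T).real (WS a R 0 s ε) * nT T ≤ η / 2 * nT T := by
        gcongr
        exact g5.trans h1
    _ ≤ η / 2 * (2 * NZ T) := by
        gcongr
        exact g2.2
    _ = η * NZ T := by ring

lemma all_some (h : AllWindows l s) : SomeWindows l s := by
  intro ε η R0 hε hη hR0
  refine ⟨R0, le_rfl, 0, 0, ?_⟩
  exact h ε (η * R0) R0 0 hε (by positivity) hR0

/-- **the one point criterion** -/
theorem mainB (hRH : RiemannHypothesis) (hl : l ≤ atTop) (hs : 0 < s) :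
    (Spacings l s ↔ Mass l (1 / s)) ∧ (Spacings l s ↔ Periodic l (1 / s)) ∧
    (Spacings l s ↔ AllWindows l s) ∧ (Spacings l s ↔ SomeWindows l s) := by
  have hθ : 0 < 1 / s := by positivity
  have c1 : Spacings l s → AllWindows l s := fun h =>
    pair_all hRH hl hs (sin_pair hRH hl hθ ((spac_iff hs).1 h))
  have c2 : SomeWindows l s → Mass l (1 / s) := fun h =>
    (mass_iff hRH hl).2 (far_mass hRH hl (some_far hRH hl hs h))
  have c3 : Mass l (1 / s) → Spacings l s := fun h =>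
    (spac_iff hs).2 (pair_sin hRH hl hθ (mass_pair hRH hl ((mass_iff hRH hl).1 h)))
  have c4 : Mass l (1 / s) → Periodic l (1 / s) := fun h =>
    (per_iff hRH hl).2 (pair_per hl (mass_pair hRH hl ((mass_iff hRH hl).1 h)))
  have c5 : Periodic l (1 / s) → Mass l (1 / s) := fun h =>
    (mass_iff hRH hl).2 (per_mass hRH hl ((per_iff hRH hl).1 h))
  have c6 : AllWindows l s → SomeWindows l s := all_some
  exact ⟨⟨fun h => c2 (c6 (c1 h)), c3⟩, ⟨fun h => c4 (c2 (c6 (c1 h))), fun h => c3 (c5 h)⟩,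
    ⟨c1, fun h => c3 (c2 (c6 h))⟩, ⟨fun h => c6 (c1 h), fun h => c3 (c2 h)⟩⟩

lemma W_big (hRH : RiemannHypothesis) {η R T a b ε : ℝ} (hθ : 0 < θ) (hη : 0 < η) (hR : 0 < R)
    (hT : 10 ≤ T) (hN : (NZ T : ℝ) ≤ 2 * nT T)
    (h : η * R < (Mp T).real {x | a ≤ x ∧ x ≤ a + R ∧ ε ≤ |Real.sin (Real.pi * θ * (x - b))|}) :
    η / 2 * R * NZ T ≤ W T a R b (1 / θ) (ε / (Real.pi * θ)) := by
  have hn := nT_pos hT
  have hfin := Mp_fin T
  rw [W_eq hRH hT]
  have g4 := measureReal_mono (μ := Mp T) (set1 hθ a R b ε)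
  calc η / 2 * R * NZ T ≤ η / 2 * R * (2 * nT T) := by gcongr
    _ = η * R * nT T := by ring
    _ ≤ _ := by
      gcongr
      exact h.le.trans g4

lemma W_mono {T a R b s ε ε' : ℝ} (h : ε ≤ ε') : W T a R b s ε' ≤ W T a R b s ε := by
  unfold W
  apply Set.ncard_le_ncard
  · rintro p ⟨h1, h2, h3, h4, h5⟩
    exact ⟨h1, h2, h3, h4, fun k => h.trans (h5 k)⟩
  · refine ((Finset.Icc 1 (NZ T) ×ˢ Finset.Icc 1 (NZ T)).finite_toSet).subset ?_
    rintro p ⟨h1, h2, -⟩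
    rw [Finset.mem_coe, Finset.mem_product, Finset.mem_Icc, Finset.mem_Icc]
    exact ⟨h1, h2⟩

/-- **one window** -/
theorem mainW (hRH : RiemannHypothesis) (hs : 0 < s) {δ η : ℝ} (hδ : 0 < δ) (hη : 0 < η) :
    ∃ ε R0 : ℝ, 0 < ε ∧ 0 < R0 ∧ ∀ R a : ℝ, R0 ≤ R → ∀ᶠ T in atTop, ∀ b : ℝ,
    ∫ α in (1 / s - δ)..(1 / s + δ), F α T < 1 - η → ε * R * NZ T ≤ W T a R b s ε := by
  have hθ : 0 < 1 / s := by positivity
  have hpi := Real.pi_pos
  obtain ⟨ε0, η0, R0, h1, h2, h3, h4⟩ := far_unif2 hRH hθ hδ hη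
  obtain ⟨ε, hε⟩ : ∃ ε : ℝ, ε = min (ε0 / (Real.pi * (1 / s))) (η0 / 2) := ⟨_, rfl⟩
  have e1 : ε ≤ ε0 / (Real.pi * (1 / s)) := by rw [hε]; exact min_le_left _ _
  have e2 : ε ≤ η0 / 2 := by rw [hε]; exact min_le_right _ _
  have e0 : 0 < ε := by rw [hε]; exact lt_min (by positivity) (by positivity)
  refine ⟨ε, R0, e0, h3, fun R a hR => ?_⟩
  filter_upwards [h4 R a hR, eventually_ge_atTop 10, NZ_le le_rfl] with T g1 hT g2 b hb
  have hb' : ∫ α in (1 / s - δ)..(1 / s + δ), Fr T α < 1 - η := by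
    have : ∫ α in (1 / s - δ)..(1 / s + δ), F α T = ∫ α in (1 / s - δ)..(1 / s + δ), Fr T α :=
      intervalIntegral.integral_congr fun α _ => F_eq hRH hT α
    rwa [← this]
  have hRp : 0 < R := by linarith
  have g3 := W_big hRH hθ h2 hRp hT g2.1 (g1 b hb')
  rw [one_div_one_div] at g3
  have g4 : (W T a R b s (ε0 / (Real.pi * (1 / s))) : ℝ) ≤ W T a R b s ε := by
    exact_mod_cast W_mono e1
  have hN0 : (0 : ℝ) ≤ NZ T := Nat.cast_nonneg _
  calc ε * R * NZ T ≤ η0 / 2 * R * NZ T := by gcongr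
    _ ≤ _ := g3.trans g4

/-- **no lattice `s ℤ` with `s > 1/2`** -/
theorem mainX (hRH : RiemannHypothesis) (hs : 1 / 2 < s) :
    ∃ ε R0 : ℝ, 0 < ε ∧ 0 < R0 ∧
    (∀ᶠ T in atTop, ∫ α in (1 / s - ε)..(1 / s + ε), F α T ≤ 1 - ε) ∧
    (∀ᶠ T in atTop, ε * NZ T ≤
      ({j : ℕ | 1 ≤ j ∧ j ≤ NZ T ∧ ∀ k : ℤ, ε ≤ |d j - k * s|}.ncard : ℝ)) ∧
    ∀ R a : ℝ, R0 ≤ R → ∀ᶠ T in atTop, ∀ b : ℝ, ε * R * NZ T ≤ W T a R b s ε := by
  classical
  have hs0 : 0 < s := by linarith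
  have hθ : 0 < 1 / s := by positivity
  have hθ2 : 1 / s < 2 := by
    rw [div_lt_iff₀ hs0]
    linarith
  have hpi := Real.pi_pos
  obtain ⟨δ, hδ, m1⟩ := mass_defect hRH hθ hθ2
  obtain ⟨ε1, hε1, m2⟩ := gap_defect hRH hθ hθ2
  have m1' : ∀ᶠ T in atTop, ∫ α in (1 / s - δ)..(1 / s + δ), F α T < 1 - δ := by
    filter_upwards [m1, eventually_ge_atTop 10] with T h1 hT
    have : ∫ α in (1 / s - δ)..(1 / s + δ), F α T = ∫ α in (1 / s - δ)..(1 / s + δ), Fr T α :=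
      intervalIntegral.integral_congr fun α _ => F_eq hRH hT α
    rwa [this]
  obtain ⟨ε2, R0, hε2, hR0, m3⟩ := mainW hRH hs0 hδ hδ
  obtain ⟨ε, hε⟩ : ∃ ε : ℝ, ε = min δ (min (min ε1 (ε1 / (Real.pi * (1 / s)))) ε2) := ⟨_, rfl⟩
  have a1 : ε ≤ δ := by rw [hε]; exact min_le_left _ _
  have a2 : ε ≤ ε1 := by
    rw [hε]
    exact (min_le_right _ _).trans ((min_le_left _ _).trans (min_le_left _ _))
  have a3 : ε ≤ ε1 / (Real.pi * (1 / s)) := by
    rw [hε]
    exact (min_le_right _ _).trans ((min_le_left _ _).trans (min_le_right _ _))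
  have a4 : ε ≤ ε2 := by
    rw [hε]
    exact (min_le_right _ _).trans (min_le_right _ _)
  have a0 : 0 < ε := by
    rw [hε]
    exact lt_min hδ (lt_min (lt_min hε1 (by positivity)) hε2)
  refine ⟨ε, R0, a0, hR0, ?_, ?_, ?_⟩
  · filter_upwards [m1, eventually_ge_atTop 10] with T h1 hT
    have e1 : ∫ α in (1 / s - ε)..(1 / s + ε), F α T = ∫ α in (1 / s - ε)..(1 / s + ε), Fr T α :=
      intervalIntegral.integral_congr fun α _ => F_eq hRH hT α
    rw [e1]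
    have hFc := Fr_cont T
    have g5 : ∫ α in (1 / s - ε)..(1 / s + ε), Fr T α ≤ ∫ α in (1 / s - δ)..(1 / s + δ), Fr T α := by
      apply intervalIntegral.integral_mono_interval (by linarith) (by linarith) (by linarith)
      · exact ae_of_all _ fun α => Fr_nonneg hT α
      · exact hFc.intervalIntegrable _ _
    linarith
  · filter_upwards [m2] with T h1
    rw [ncard_II]
    have hN0 : (0 : ℝ) ≤ NZ T := Nat.cast_nonneg _
    have h2 : ε * NZ T ≤ ε1 * NZ T := by gcongr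
    refine h2.trans (h1.le.trans ?_)
    refine Nat.cast_le.2 (Finset.card_le_card ?_)
    intro j hj
    rw [Finset.mem_filter] at hj ⊢
    refine ⟨hj.1, fun k => a3.trans ?_⟩
    have h4 := sin_le_dist hθ (dj j) k
    rw [one_div_one_div] at h4
    rw [d_eq, div_le_iff₀ (by positivity)]
    linarith [hj.2]
  · intro R a hR
    filter_upwards [m3 R a hR, m1'] with T g1 g2 b
    have hN0 : (0 : ℝ) ≤ NZ T := Nat.cast_nonneg _
    have hRp : 0 < R := by linarith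
    have g4 : (W T a R b s ε2 : ℝ) ≤ W T a R b s ε := by exact_mod_cast W_mono a4
    calc ε * R * NZ T ≤ ε2 * R * NZ T := by gcongr
      _ ≤ W T a R b s ε2 := g1 b g2
      _ ≤ _ := g4

/-- the alternative hypothesis for almost all spacings -/
def AHa (l : Filter ℝ) : Prop := ∀ ε η : ℝ, 0 < ε → 0 < η → ∀ᶠ T in l,
  ({j : ℕ | 1 ≤ j ∧ j ≤ NZ T ∧ ∀ k : ℕ, 1 ≤ k → ε ≤ |d j - k / 2|}.ncard : ℝ) ≤ η * NZ T

/-- few small spacings -/
def FewSmall (l : Filter ℝ) : Prop := ∀ η : ℝ, 0 < η → ∃ ε : ℝ, 0 < ε ∧ ∀ᶠ T in l,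
  ({j : ℕ | 1 ≤ j ∧ j ≤ NZ T ∧ d j < ε}.ncard : ℝ) ≤ η * NZ T

lemma AH_iff : AHa l ↔ AHf l := by
  classical
  unfold AHa AHf
  refine forall_congr' fun ε => forall_congr' fun η => forall_congr' fun _ =>
    forall_congr' fun _ => ?_
  simp_rw [ncard_II, d_eq]

lemma small_iff : FewSmall l ↔ NoSmall l := by
  classical
  unfold FewSmall NoSmall
  simp_rw [ncard_II, d_eq]

lemma fej_eq (hRH : RiemannHypothesis) {T : ℝ} (hT : 10 ≤ T) :
    ∫ α in (0 : ℝ)..2, (2 - α) * F α T = ∫ α in (0 : ℝ)..2, (2 - α) * Fr T α := by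
  refine intervalIntegral.integral_congr fun α _ => ?_
  show (2 - α) * F α T = (2 - α) * Fr T α
  rw [F_eq hRH hT]

theorem mainA1 (hRH : RiemannHypothesis) {η : ℝ} (hη : 0 < η) :
    ∀ᶠ T in atTop, 2 - η ≤ ∫ α in (0 : ℝ)..2, (2 - α) * F α T := by
  filter_upwards [fej_low (l := atTop) le_rfl hη, eventually_ge_atTop 10] with T h1 h2
  rwa [fej_eq hRH h2]

theorem mainA2 (hRH : RiemannHypothesis) {q ε : ℝ} (hq : 0 < q) (hε : 0 < ε) (hε4 : ε ≤ 1 / 4) :
    ∀ᶠ T in atTop, ∫ α in (0 : ℝ)..2, (2 - α) * F α T ≤ 2 + q ^ 3 * ε ^ 2 →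
    ({j : ℕ | 1 ≤ j ∧ j ≤ NZ T ∧ ∀ k : ℕ, 1 ≤ k → ε ≤ |d j - k / 2|}.ncard : ℝ) ≤
      2 * q * NZ T := by
  classical
  have h := fej_quant (l := atTop ⊓ 𝓟 {T | ∫ α in (0 : ℝ)..2, (2 - α) * F α T ≤
    2 + q ^ 3 * ε ^ 2}) hRH inf_le_left hq hε hε4 (by
      rw [eventually_inf_principal]
      filter_upwards [eventually_ge_atTop 10] with T hT h1
      have h1' : ∫ α in (0 : ℝ)..2, (2 - α) * F α T ≤ 2 + q ^ 3 * ε ^ 2 := h1
      rwa [fej_eq hRH hT] at h1')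
  rw [eventually_inf_principal] at h
  filter_upwards [h] with T hT h1
  have := hT h1
  simp_rw [ncard_II, d_eq]
  exact this

/-- **the Fejer mean is extremal if and only if the alternative hypothesis holds for almost all
spacings** -/
theorem mainA3 (hRH : RiemannHypothesis) (hl : l ≤ atTop) :
    (AHa l ↔ ∀ η : ℝ, 0 < η → ∀ᶠ T in l, ∫ α in (0 : ℝ)..2, (2 - α) * F α T ≤ 2 + η) ∧
    (AHa l ↔ Mass l 2 ∧ FewSmall l) := by
  constructor
  · constructor
    · intro h η hη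
      filter_upwards [ah_fej hRH hl (AH_iff.1 h) hη, hl (eventually_ge_atTop 10)] with T h1 h2
      rwa [fej_eq hRH h2]
    · intro h ε η hε hη
      obtain ⟨e, he⟩ : ∃ e : ℝ, e = min ε (1 / 4) := ⟨_, rfl⟩
      have he0 : 0 < e := by rw [he]; exact lt_min hε (by norm_num)
      have he1 : e ≤ ε := by rw [he]; exact min_le_left _ _
      have he2 : e ≤ 1 / 4 := by rw [he]; exact min_le_right _ _
      filter_upwards [h ((η / 2) ^ 3 * e ^ 2) (by positivity),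
        hl (mainA2 hRH (q := η / 2) (by positivity) he0 he2)] with T h1 h2
      have h3 := h2 h1
      have h4 : ({j : ℕ | 1 ≤ j ∧ j ≤ NZ T ∧ ∀ k : ℕ, 1 ≤ k → ε ≤ |d j - k / 2|}.ncard : ℝ) ≤
          ({j : ℕ | 1 ≤ j ∧ j ≤ NZ T ∧ ∀ k : ℕ, 1 ≤ k → e ≤ |d j - k / 2|}.ncard : ℝ) := by
        refine Nat.cast_le.2 (Set.ncard_le_ncard ?_ ?_)
        · rintro j ⟨k1, k2, k3⟩
          exact ⟨k1, k2, fun k hk => he1.trans (k3 k hk)⟩
        · exact (Set.finite_Iic (NZ T)).subset fun n hn => hn.2.1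
      have h5 : 2 * (η / 2) * (NZ T : ℝ) = η * NZ T := by ring
      linarith
  · constructor
    · intro h
      have h1 := AH_iff.1 h
      exact ⟨(mass_iff hRH hl).2 (pair_mass hRH hl (sin_pair hRH hl (by norm_num) (ah_sin h1))),
        small_iff.2 (ah_small h1)⟩
    · rintro ⟨h1, h2⟩
      exact AH_iff.2 (mass_ah hRH hl ((mass_iff hRH hl).1 h1) (small_iff.1 h2))

end Pool.Agent.Y749.AH.M
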