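import Pool.Agent.Y749.AH.Main

/-! # Positive multiples, distant windows, the periods -/

set_option autoImplicit false

open MeasureTheory Set Filter Topology
open Complex (I)

namespace Pool.Agent.Y749.AH.M

open Pool.Agent.Y749.Rig
open Pool.Agent.Y749.AH
open SG (ord NZ)

variable {l : Filter ℝ} {θ s : ℝ}

/-- almost all spacings are near `{s, 2s, 3s, ...}` -/
def PosSpacings (l : Filter ℝ) (s : ℝ) : Prop := ∀ ε η : ℝ, 0 < ε → 0 < η → ∀ᶠ T in l,
  ({j : ℕ | 1 ≤ j ∧ j ≤ NZ T ∧ ∀ k : ℕ, 1 ≤ k → ε ≤ |d j - k * s|}.ncard : ℝ) ≤ η * NZ T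

lemma fin1 (T : ℝ) (P : ℕ → Prop) : {j : ℕ | 1 ≤ j ∧ j ≤ NZ T ∧ P j}.Finite :=
  (Set.finite_Iic (NZ T)).subset fun _ hn => hn.2.1

/-- the positive multiples -/
theorem pos_iff (hRH : RiemannHypothesis) (hl : l ≤ atTop) (hs : 0 < s) :
    PosSpacings l s ↔ Mass l (1 / s) ∧ FewSmall l := by
  constructor
  · intro h
    constructor
    · refine (mainB hRH hl hs).1.1 ?_
      intro ε η hε hη
      filter_upwards [h ε η hε hη] with T hT
      refine le_trans ?_ hT
      refine Nat.cast_le.2 (Set.ncard_le_ncard ?_ (fin1 T _))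
      rintro j ⟨h1, h2, h3⟩
      refine ⟨h1, h2, fun k _ => ?_⟩
      have := h3 k
      push_cast at this
      exact this
    · intro η hη
      refine ⟨s / 2, by positivity, ?_⟩
      filter_upwards [h (s / 2) η (by positivity) hη] with T hT
      refine le_trans ?_ hT
      refine Nat.cast_le.2 (Set.ncard_le_ncard ?_ (fin1 T _))
      rintro j ⟨h1, h2, h3⟩
      refine ⟨h1, h2, fun k hk => ?_⟩
      have hk' : (1 : ℝ) ≤ k := by exact_mod_cast hk
      have h4 : s ≤ k * s := by nlinarith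
      rw [abs_sub_comm]
      refine le_trans ?_ (le_abs_self _)
      linarith
  · rintro ⟨h1, h2⟩ ε η hε hη
    obtain ⟨ε1, hε1, h3⟩ := h2 (η / 2) (by positivity)
    have h4 := (mainB hRH hl hs).1.2 h1
    obtain ⟨e, he⟩ : ∃ e : ℝ, e = min ε ε1 := ⟨_, rfl⟩
    have he0 : 0 < e := by rw [he]; exact lt_min hε hε1
    have heε : e ≤ ε := by rw [he]; exact min_le_left _ _
    have heε1 : e ≤ ε1 := by rw [he]; exact min_le_right _ _
    filter_upwards [h3, h4 e (η / 2) he0 (by positivity)] with T g1 g2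
    have hsub : {j : ℕ | 1 ≤ j ∧ j ≤ NZ T ∧ ∀ k : ℕ, 1 ≤ k → ε ≤ |d j - k * s|} ⊆
        {j : ℕ | 1 ≤ j ∧ j ≤ NZ T ∧ d j < ε1} ∪
        {j : ℕ | 1 ≤ j ∧ j ≤ NZ T ∧ ∀ k : ℤ, e ≤ |d j - k * s|} := by
      rintro j ⟨k1, k2, k3⟩
      by_cases h5 : d j < ε1
      · exact Or.inl ⟨k1, k2, h5⟩
      · push Not at h5
        refine Or.inr ⟨k1, k2, fun k => ?_⟩
        rcases le_or_gt k 0 with h6 | h6
        · have h7 : (k : ℝ) ≤ 0 := by exact_mod_cast h6
          refine le_trans ?_ (le_abs_self _)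
          have : (k : ℝ) * s ≤ 0 := mul_nonpos_of_nonpos_of_nonneg h7 hs.le
          linarith
        · have h8 := k3 k.toNat (by omega)
          have h9 : ((k.toNat : ℕ) : ℝ) = k := by
            have : ((k.toNat : ℤ) : ℝ) = k := by rw [Int.toNat_of_nonneg h6.le]
            exact_mod_cast this
          rw [h9] at h8
          linarith
    have g3 : ({j : ℕ | 1 ≤ j ∧ j ≤ NZ T ∧ ∀ k : ℕ, 1 ≤ k → ε ≤ |d j - k * s|}.ncard : ℝ) ≤
        ({j : ℕ | 1 ≤ j ∧ j ≤ NZ T ∧ d j < ε1}.ncard : ℝ) +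
        ({j : ℕ | 1 ≤ j ∧ j ≤ NZ T ∧ ∀ k : ℤ, e ≤ |d j - k * s|}.ncard : ℝ) := by
      have k1 := (Set.ncard_le_ncard hsub ((fin1 T _).union (fin1 T _))).trans
        (Set.ncard_union_le _ _)
      exact_mod_cast k1
    linarith

/-- **distant windows** -/
theorem distant (hRH : RiemannHypothesis) (hs : 0 < s)
    (h : 1 / 2 < s ∨ ∃ δ η : ℝ, 0 < δ ∧ 0 < η ∧
      ∀ᶠ T in atTop, ∫ α in (1 / s - δ)..(1 / s + δ), F α T < 1 - η) :
    ∃ ε R0 : ℝ, 0 < ε ∧ 0 < R0 ∧ ∀ R a : ℝ, R0 ≤ R → ∀ᶠ T in atTop, ∀ b : ℝ,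
      ε * R * NZ T ≤ W T a R b s ε := by
  rcases h with h | ⟨δ, η, hδ, hη, h⟩
  · obtain ⟨ε, R0, h1, h2, -, -, h3⟩ := mainX hRH h
    exact ⟨ε, R0, h1, h2, h3⟩
  · obtain ⟨ε, R0, h1, h2, h3⟩ := mainW hRH hs hδ hη
    refine ⟨ε, R0, h1, h2, fun R a hR => ?_⟩
    filter_upwards [h3 R a hR, h] with T g1 g2 b
    exact g1 b g2

/-- the periods form a group -/
noncomputable def PG (l : Filter ℝ) : AddSubgroup ℝ where
  carrier := {θ | PairL l θ}
  zero_mem' := by
    intro r ε η hr hε hη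
    refine Filter.Eventually.of_forall fun T => ?_
    have : {x : ℝ | |x| ≤ r ∧ ε ≤ |Real.sin (Real.pi * 0 * x)|} = ∅ := by
      ext x
      simp only [mul_zero, zero_mul, Real.sin_zero, abs_zero, mem_setOf_eq, mem_empty_iff_false,
        iff_false, not_and, not_le]
      intro _
      exact hε
    rw [this, measureReal_empty]
    exact hη.le
  add_mem' := by
    intro a b ha hb r ε η hr hε hη
    filter_upwards [ha r (ε / 2) (η / 2) hr (by positivity) (by positivity),
      hb r (ε / 2) (η / 2) hr (by positivity) (by positivity)] with T h1 h2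
    have hfin := Mp_fin T
    have hsub : {x : ℝ | |x| ≤ r ∧ ε ≤ |Real.sin (Real.pi * (a + b) * x)|} ⊆
        {x : ℝ | |x| ≤ r ∧ ε / 2 ≤ |Real.sin (Real.pi * a * x)|} ∪
        {x : ℝ | |x| ≤ r ∧ ε / 2 ≤ |Real.sin (Real.pi * b * x)|} := by
      rintro x ⟨k1, k2⟩
      by_cases h3 : ε / 2 ≤ |Real.sin (Real.pi * a * x)|
      · exact Or.inl ⟨k1, h3⟩
      · refine Or.inr ⟨k1, ?_⟩
        push Not at h3
        have h4 := abs_sin_add_le (Real.pi * a * x) (Real.pi * b * x)
        rw [show Real.pi * a * x + Real.pi * b * x = Real.pi * (a + b) * x by ring] at h4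
        linarith
    have h3 := (measureReal_mono (μ := Mp T) hsub).trans (measureReal_union_le _ _)
    linarith
  neg_mem' := by
    intro a ha r ε η hr hε hη
    filter_upwards [ha r ε η hr hε hη] with T h1
    have : {x : ℝ | |x| ≤ r ∧ ε ≤ |Real.sin (Real.pi * -a * x)|} =
        {x : ℝ | |x| ≤ r ∧ ε ≤ |Real.sin (Real.pi * a * x)|} := by
      ext x
      rw [mem_setOf_eq, mem_setOf_eq, show Real.pi * -a * x = -(Real.pi * a * x) by ring,
        Real.sin_neg, abs_neg]
    rw [this]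
    exact h1

/-- **the structure of the lattices**: none, or exactly the lattices `(s0 / m) ℤ` with one
`s0 ≤ 1/2` -/
theorem lattices (hRH : RiemannHypothesis) (hl : l ≤ atTop) [l.NeBot] :
    (∀ s : ℝ, 0 < s → ¬ Spacings l s) ∨
    ∃ s0 : ℝ, 0 < s0 ∧ s0 ≤ 1 / 2 ∧ ∀ s : ℝ, 0 < s → (Spacings l s ↔ ∃ m : ℕ, 1 ≤ m ∧ s = s0 / m) := by
  have key : ∀ s : ℝ, 0 < s → (Spacings l s ↔ 1 / s ∈ PG l) := by
    intro s hs
    have hθ : 0 < 1 / s := by positivity
    rw [spac_iff hs]
    exact ⟨fun h => sin_pair hRH hl hθ h, fun h => pair_sin hRH hl hθ h⟩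
  have hdis : Disjoint (PG l : Set ℝ) (Ioo 0 2) := by
    rw [Set.disjoint_left]
    rintro θ hθ ⟨h0, h2⟩
    exact no_pair hRH h0 h2 hl hθ
  obtain ⟨b, hb⟩ := AddSubgroup.cyclic_of_isolated_zero (show (0 : ℝ) < 2 by norm_num) hdis
  rcases eq_or_ne b 0 with h0 | h0
  · left
    intro s hs h
    have h1 := (key s hs).1 h
    rw [hb, h0, AddSubgroup.closure_singleton_zero, AddSubgroup.mem_bot] at h1
    have : 0 < 1 / s := by positivity
    linarith
  · right
    have hb0 : 0 < |b| := abs_pos.2 h0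
    have hmem : |b| ∈ PG l := by
      rcases abs_choice b with h | h
      · rw [h, hb]; exact AddSubgroup.subset_closure rfl
      · rw [h]; apply neg_mem; rw [hb]; exact AddSubgroup.subset_closure rfl
    have hb2 : 2 ≤ |b| := by
      by_contra hcon
      push Not at hcon
      exact Set.disjoint_left.1 hdis hmem ⟨hb0, hcon⟩
    refine ⟨1 / |b|, by positivity, ?_, fun s hs => ?_⟩
    · rw [div_le_div_iff₀ hb0 (by norm_num)]
      linarith
    · rw [key s hs]
      constructor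
      · intro h1
        rw [hb, AddSubgroup.mem_closure_singleton] at h1
        obtain ⟨n, hn⟩ := h1
        rw [zsmul_eq_mul] at hn
        have hs1 : 0 < 1 / s := by positivity
        have hn0 : n ≠ 0 := by
          rintro rfl
          rw [Int.cast_zero, zero_mul] at hn
          linarith
        refine ⟨n.natAbs, Int.natAbs_pos.2 hn0, ?_⟩
        have h2 : (n.natAbs : ℝ) * |b| = 1 / s := by
          have h3 : (n.natAbs : ℝ) = |(n : ℝ)| := by
            rw [← Int.cast_natCast, Int.natCast_natAbs, Int.cast_abs]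
          rw [h3, ← abs_mul, hn, abs_of_pos hs1]
        have h4 : (n.natAbs : ℝ) ≠ 0 := by
          have : n.natAbs ≠ 0 := Int.natAbs_ne_zero.2 hn0
          exact_mod_cast this
        rw [div_div, eq_div_iff (by positivity)]
        have h5 : s * (|b| * (n.natAbs : ℝ)) = s * ((n.natAbs : ℝ) * |b|) := by ring
        rw [h5, h2]
        field_simp
      · rintro ⟨m, hm, rfl⟩
        have h1 : 1 / (1 / |b| / (m : ℝ)) = (m : ℤ) • |b| := by
          rw [zsmul_eq_mul]
          push_cast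
          have : (m : ℝ) ≠ 0 := by
            have : m ≠ 0 := by omega
            exact_mod_cast this
          field_simp
        rw [h1]
        exact zsmul_mem hmem _

end Pool.Agent.Y749.AH.M
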