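import Pool.Agent.Y749.Rig.FFf

/-! # The mass of the form factor at a point and the pairs of zeros -/

set_option autoImplicit false

open MeasureTheory Set Filter Topology

namespace Pool.Agent.Y749.AH

open Pool.Agent.Y749.Rig

variable {l : Filter ℝ} {θ : ℝ}

/-- almost all pairs at bounded distance are near the lattice -/
def PairL (l : Filter ℝ) (θ : ℝ) : Prop := ∀ r ε η : ℝ, 0 < r → 0 < ε → 0 < η → ∀ᶠ T in l,
  (Mp T).real {x | |x| ≤ r ∧ ε ≤ |Real.sin (Real.pi * θ * x)|} ≤ η

/-- the form factor has mass at least `1` at `θ` -/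
def MassL (l : Filter ℝ) (θ : ℝ) : Prop := ∀ δ η : ℝ, 0 < δ → 0 < η → ∀ᶠ T in l,
  1 - η ≤ ∫ α in (θ - δ)..(θ + δ), Fr T α

lemma fl_tr_le {h : ℝ} (hh : 0 < h) (y : ℝ) : fl (tr h) y ≤ 1 := by
  calc fl (tr h) y ≤ ∫ α, tr h α := by
        unfold fl
        refine integral_mono ?_ (tr_int hh) fun α => ?_
        · refine (tr_int hh).mul_bdd (c := 1) ?_ (ae_of_all _ fun β => ?_)
          · have : Continuous fun β : ℝ => Real.cos (2 * Real.pi * β * y) := by fun_prop
            exact this.aestronglyMeasurable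
          · rw [Real.norm_eq_abs]
            exact Real.abs_cos_le_one _
        · calc tr h α * Real.cos (2 * Real.pi * α * y) ≤ tr h α * 1 := by
                gcongr
                · exact tr_nonneg hh α
                · exact Real.cos_le_one _
            _ = tr h α := mul_one _
    _ = 1 := int_tr hh

lemma one_sub_cos (x : ℝ) : 1 - Real.cos (2 * Real.pi * θ * x) = 2 * Real.sin (Real.pi * θ * x) ^ 2 := by
  have h := Real.cos_sq' (Real.pi * θ * x)
  have h2 := Real.cos_two_mul (Real.pi * θ * x)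
  rw [show 2 * Real.pi * θ * x = 2 * (Real.pi * θ * x) by ring, h2, h]
  ring

lemma sin_meas (r ε : ℝ) :
    MeasurableSet {x : ℝ | |x| ≤ r ∧ ε ≤ |Real.sin (Real.pi * θ * x)|} := by
  apply MeasurableSet.inter
  · exact measurableSet_le continuous_abs.measurable measurable_const
  · have h : Continuous fun x : ℝ => |Real.sin (Real.pi * θ * x)| := by fun_prop
    exact measurableSet_le measurable_const h.measurable

lemma cc_tr_le {h : ℝ} (hh : 0 < h) : cc (tr h) ≤ 1 / h + h ∧ 1 / h ≤ cc (tr h) := by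
  unfold cc
  have e1 : tr h 0 = 1 / h := by unfold tr; simp
  have i1 : Integrable fun α => |α| * tr h α := by
    refine Continuous.integrable_of_hasCompactSupport ?_ ?_
    · have := tr_cont h
      fun_prop
    · exact (adm_tr hh).hcs.mul_left
  have e2 : ∫ α, |α| * tr h α ≤ h := by
    have : ∫ α, |α| * tr h α ≤ ∫ α, h * tr h α := by
      refine integral_mono i1 ((tr_int hh).const_mul _) fun α => ?_
      simp only
      rcases le_or_gt h |α| with h1 | h1
      · rw [tr_supp hh α h1]; simp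
      · exact mul_le_mul_of_nonneg_right h1.le (tr_nonneg hh _)
    rwa [integral_const_mul, int_tr hh, mul_one] at this
  have e3 : 0 ≤ ∫ α, |α| * tr h α :=
    integral_nonneg fun α => mul_nonneg (abs_nonneg _) (tr_nonneg hh _)
  rw [e1]
  constructor <;> linarith

/-- the pairing with a shifted even function -/
lemma modu_pair {κ : ℝ} {ψ : ℝ → ℝ} (hψ : Adm κ ψ) (T : ℝ) :
    ∫ α, modu θ ψ α * Fr T α = ∫ α, ψ (α - θ) * Fr T α := by
  have hFc := Fr_cont T
  have hc := hψ.cont
  have i1 : Integrable fun α => ψ (α - θ) * Fr T α := by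
    refine Continuous.integrable_of_hasCompactSupport (by fun_prop) ?_
    have : HasCompactSupport fun α => ψ (α - θ) :=
      hψ.hcs.comp_homeomorph (Homeomorph.subRight θ)
    exact this.mul_right
  have i2 : Integrable fun α => ψ (α + θ) * Fr T α := by
    refine Continuous.integrable_of_hasCompactSupport (by fun_prop) ?_
    have : HasCompactSupport fun α => ψ (α + θ) :=
      hψ.hcs.comp_homeomorph (Homeomorph.addRight θ)
    exact this.mul_right
  have e1 : ∫ α, ψ (α + θ) * Fr T α = ∫ α, ψ (α - θ) * Fr T α := by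
    rw [← integral_neg_eq_self]
    refine integral_congr_ae (ae_of_all _ fun α => ?_)
    show ψ (-α + θ) * Fr T (-α) = _
    rw [Fr_even, show -α + θ = -(α - θ) by ring, hψ.even]
  have e2 : ∀ α, modu θ ψ α * Fr T α = (1 / 2) * (ψ (α - θ) * Fr T α) +
      (1 / 2) * (ψ (α + θ) * Fr T α) := by
    intro α
    unfold modu
    ring
  simp_rw [e2]
  rw [integral_add (i1.const_mul _) (i2.const_mul _), integral_const_mul, integral_const_mul, e1]
  ring

/-- the mass near `θ` bounds the pairing with the tent at `θ` from below -/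
lemma tent_low {h δ T : ℝ} (hh : 0 < h) (hδ : 0 < δ) (hδh : δ ≤ h) (hT : 10 ≤ T) :
    (1 - δ / h) / h * ∫ α in (θ - δ)..(θ + δ), Fr T α ≤ ∫ α, tr h (α - θ) * Fr T α := by
  have hFc := Fr_cont T
  have hF0 := Fr_nonneg hT
  have htc := tr_cont h
  have i1 : Integrable fun α => tr h (α - θ) * Fr T α := by
    refine Continuous.integrable_of_hasCompactSupport (by fun_prop) ?_
    have : HasCompactSupport fun α => tr h (α - θ) :=
      (adm_tr hh).hcs.comp_homeomorph (Homeomorph.subRight θ)
    exact this.mul_right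
  rw [← intervalIntegral.integral_const_mul, intervalIntegral.integral_of_le (by linarith)]
  calc ∫ α in Ioc (θ - δ) (θ + δ), (1 - δ / h) / h * Fr T α ≤
      ∫ α in Ioc (θ - δ) (θ + δ), tr h (α - θ) * Fr T α := by
        refine setIntegral_mono_on ?_ i1.integrableOn measurableSet_Ioc fun α hα => ?_
        · have : Continuous fun α => (1 - δ / h) / h * Fr T α := by fun_prop
          exact this.continuousOn.integrableOn_Icc.mono_set Ioc_subset_Icc_self
        · apply mul_le_mul_of_nonneg_right _ (hF0 α)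
          have ha : |α - θ| ≤ δ := abs_le.2 ⟨by linarith [hα.1], by linarith [hα.2]⟩
          unfold tr
          have h1 : |α - θ| / h ≤ δ / h := by gcongr
          have h2 : |α - θ| / h ≤ 1 := by
            rw [div_le_one hh]
            linarith
          rw [max_eq_right (by linarith)]
          gcongr
    _ ≤ _ := setIntegral_le_integral i1 (ae_of_all _ fun α =>
        mul_nonneg (tr_nonneg hh _) (hF0 _))

/-- the pairing with the tent at `θ` bounds the mass near `θ` from below -/
lemma tent_up {h T : ℝ} (hh : 0 < h) (hT : 10 ≤ T) :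
    h * ∫ α, tr h (α - θ) * Fr T α ≤ ∫ α in (θ - h)..(θ + h), Fr T α := by
  have hFc := Fr_cont T
  have hF0 := Fr_nonneg hT
  have htc := tr_cont h
  have e1 : ∫ α, tr h (α - θ) * Fr T α = ∫ α in (θ - h)..(θ + h), tr h (α - θ) * Fr T α := by
    rw [intervalIntegral.integral_of_le (by linarith), ← integral_indicator measurableSet_Ioc]
    refine integral_congr_ae (ae_of_all _ fun α => ?_)
    show _ = (Ioc (θ - h) (θ + h)).indicator (fun α => tr h (α - θ) * Fr T α) α
    by_cases hα : α ∈ Ioc (θ - h) (θ + h)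
    · rw [indicator_of_mem hα]
    · rw [indicator_of_notMem hα]
      show tr h (α - θ) * Fr T α = 0
      rw [tr_supp hh, zero_mul]
      by_contra hcon
      push Not at hcon
      rw [abs_lt] at hcon
      exact hα ⟨by linarith [hcon.1], by linarith [hcon.2]⟩
  rw [e1, ← intervalIntegral.integral_const_mul]
  have hc1 : Continuous fun α => h * (tr h (α - θ) * Fr T α) := by fun_prop
  refine intervalIntegral.integral_mono_on (by linarith) (hc1.intervalIntegrable _ _)
    (hFc.intervalIntegrable _ _) fun α _ => ?_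
  rw [← mul_assoc]
  have h1 : h * tr h (α - θ) ≤ 1 := by
    unfold tr
    rw [mul_div_cancel₀ _ hh.ne']
    refine max_le zero_le_one ?_
    have : 0 ≤ |α - θ| / h := by positivity
    linarith
  calc h * tr h (α - θ) * Fr T α ≤ 1 * Fr T α := mul_le_mul_of_nonneg_right h1 (hF0 α)
    _ = Fr T α := one_mul _

lemma sinc_low {h r x : ℝ} (hh : 0 < h) (hhr : h * r ≤ 1 / 2) (hx : |x| ≤ r) :
    2 / 5 ≤ fl (tr h) x := by
  have hpi := Real.pi_pos
  have hpi2 : Real.pi ^ 2 ≤ 10 := by
    have := Real.pi_lt_d2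
    nlinarith
  rcases eq_or_ne x 0 with h0 | h0
  · rw [h0, fl_tr_zero hh]
    norm_num
  have key : ∀ y : ℝ, 0 < y → y ≤ r → 2 / 5 ≤ fl (tr h) y := by
    intro y hy hyr
    have hx0 : 0 < h * y := by positivity
    have hxr : h * y ≤ 1 / 2 := (mul_le_mul_of_nonneg_left hyr hh.le).trans hhr
    have hs : fl (tr h) y = (Real.sin (Real.pi * (h * y)) / (Real.pi * (h * y))) ^ 2 := by
      rw [fl_tr hh hy.ne']
      congr 1
      · ring_nf
    rw [hs]
    have h1 : 2 / Real.pi * (Real.pi * (h * y)) ≤ Real.sin (Real.pi * (h * y)) :=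
      Real.mul_le_sin (by positivity) (by
        rw [show Real.pi / 2 = Real.pi * (1 / 2) by ring]
        gcongr)
    have h2 : 2 / Real.pi ≤ Real.sin (Real.pi * (h * y)) / (Real.pi * (h * y)) := by
      rwa [le_div_iff₀ (by positivity)]
    have h3 : (2 / Real.pi) ^ 2 ≤ (Real.sin (Real.pi * (h * y)) / (Real.pi * (h * y))) ^ 2 :=
      pow_le_pow_left₀ (by positivity) h2 2
    refine le_trans ?_ h3
    rw [div_pow, le_div_iff₀ (by positivity)]
    nlinarith
  rcases lt_or_gt_of_ne h0 with h1 | h1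
  · have := key (-x) (by linarith) (by rw [abs_of_neg h1] at hx; exact hx)
    rwa [fl_even] at this
  · exact key x h1 (by rw [abs_of_pos h1] at hx; exact hx)

/-- **mass at `θ` implies that almost all pairs are near the lattice** -/
theorem mass_pair (RH : RiemannHypothesis) (hl : l ≤ atTop) (h : MassL l θ) : PairL l θ := by
  intro r ε η hr hε hη
  obtain ⟨C, hC, hB⟩ := Mp_bdd
  obtain ⟨k, hk⟩ : ∃ k : ℝ, k = min (1 / 2) (min (1 / (2 * r)) (ε ^ 2 * η / 8)) := ⟨_, rfl⟩
  have hk0 : 0 < k := by rw [hk]; exact lt_min (by norm_num) (lt_min (by positivity) (by positivity))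
  have hk1 : k ≤ 1 / 2 := by rw [hk]; exact min_le_left _ _
  have hk2 : k * r ≤ 1 / 2 := by
    have : k ≤ 1 / (2 * r) := by rw [hk]; exact (min_le_right _ _).trans (min_le_left _ _)
    rw [le_div_iff₀ (by positivity)] at this
    linarith
  have hk3 : k ≤ ε ^ 2 * η / 8 := by rw [hk]; exact (min_le_right _ _).trans (min_le_right _ _)
  -- the two pairings
  have t1 := (test_limRH RH (adm_tr hk0) hk0 (by linarith)).mono_left hl
  have t2 := (ww_remove (fl_cont (adm_modu (adm_tr hk0) θ).int)
    (fl_qd (adm_modu (adm_tr hk0) θ))).mono_left hl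
  have hcc := (cc_tr_le hk0).1
  filter_upwards [t1.eventually (ge_mem_nhds (show cc (tr k) < cc (tr k) + k by linarith)),
    t2.eventually (le_mem_nhds (show -k < 0 by linarith)),
    t2.eventually (ge_mem_nhds (show 0 < k by linarith)), hl hB, hl (eventually_ge_atTop 10),
    h (k ^ 3) (k ^ 2) (by positivity) (by positivity)] with T h1 h2 h2' h3 h4 h5
  have hfin := Mp_fin T
  have hC0 : 0 ≤ C := by linarith
  have e1 : ∫ x, fl (modu θ (tr k)) x * ww (2 * Real.pi * x / Real.log T) ∂(Mp T) =
      ∫ α, tr k (α - θ) * Fr T α := by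
    rw [← modu_pair (adm_tr hk0), Fr_pair (adm_modu (adm_tr hk0) θ).int]
  rw [e1] at h2 h2'
  have h6 := tent_low (θ := θ) (T := T) hk0 (show 0 < k ^ 3 by positivity) (by nlinarith) h4
  have h7 : (1 - 2 * k ^ 2) / k ≤ ∫ α, tr k (α - θ) * Fr T α := by
    refine le_trans ?_ h6
    have e : (1 - k ^ 3 / k) / k = (1 - k ^ 2) / k := by
      congr 2
      field_simp
    rw [e]
    have h8 : (0 : ℝ) ≤ (1 - k ^ 2) / k := by
      apply div_nonneg _ hk0.le
      nlinarith
    calc (1 - 2 * k ^ 2) / k ≤ (1 - k ^ 2) * (1 - k ^ 2) / k := by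
          apply div_le_div_of_nonneg_right _ hk0.le
          nlinarith [sq_nonneg (k ^ 2)]
      _ = (1 - k ^ 2) / k * (1 - k ^ 2) := by ring
      _ ≤ _ := mul_le_mul_of_nonneg_left h5 h8
  -- the nonnegative function
  have i1 : Integrable (fl (tr k)) (Mp T) :=
    Bdd.integrable hC0 h3 (fl_cont (tr_int hk0)) (fl_qd (adm_tr hk0))
  have i2 : Integrable (fl (modu θ (tr k))) (Mp T) :=
    Bdd.integrable hC0 h3 (fl_cont (adm_modu (adm_tr hk0) θ).int) (fl_qd (adm_modu (adm_tr hk0) θ))
  have e2 : ∀ x, fl (tr k) x - fl (modu θ (tr k)) x =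
      fl (tr k) x * (2 * Real.sin (Real.pi * θ * x) ^ 2) := by
    intro x
    rw [fl_modu (adm_tr hk0), ← one_sub_cos]
    ring
  have h8 : ∫ x, fl (tr k) x * (2 * Real.sin (Real.pi * θ * x) ^ 2) ∂(Mp T) ≤ 5 * k := by
    simp_rw [← e2]
    rw [integral_sub i1 i2]
    have h9 : (1 - 2 * k ^ 2) / k = 1 / k - 2 * k := by
      field_simp
    rw [h9] at h7
    linarith
  have i3 : Integrable (fun x => fl (tr k) x * (2 * Real.sin (Real.pi * θ * x) ^ 2)) (Mp T) := by
    have := i1.sub i2
    refine this.congr (ae_of_all _ fun x => ?_)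
    exact e2 x
  -- Markov
  have hS := sin_meas (θ := θ) r ε
  have h9 : (4 / 5 * ε ^ 2) * (Mp T).real {x | |x| ≤ r ∧ ε ≤ |Real.sin (Real.pi * θ * x)|} ≤
      ∫ x, fl (tr k) x * (2 * Real.sin (Real.pi * θ * x) ^ 2) ∂(Mp T) := by
    calc (4 / 5 * ε ^ 2) * (Mp T).real {x | |x| ≤ r ∧ ε ≤ |Real.sin (Real.pi * θ * x)|} =
        ∫ x in {x | |x| ≤ r ∧ ε ≤ |Real.sin (Real.pi * θ * x)|}, 4 / 5 * ε ^ 2 ∂(Mp T) := by
          rw [setIntegral_const, smul_eq_mul]
          ring
      _ ≤ ∫ x in {x | |x| ≤ r ∧ ε ≤ |Real.sin (Real.pi * θ * x)|},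
          fl (tr k) x * (2 * Real.sin (Real.pi * θ * x) ^ 2) ∂(Mp T) := by
          refine setIntegral_mono_on (integrable_const _).integrableOn i3.integrableOn hS
            fun x hx => ?_
          have g1 := sinc_low hk0 hk2 hx.1
          have g2 : ε ^ 2 ≤ Real.sin (Real.pi * θ * x) ^ 2 := by
            rw [← sq_abs (Real.sin (Real.pi * θ * x))]
            exact pow_le_pow_left₀ hε.le hx.2 2
          have g3 : 2 * ε ^ 2 ≤ 2 * Real.sin (Real.pi * θ * x) ^ 2 := by linarith
          calc 4 / 5 * ε ^ 2 = 2 / 5 * (2 * ε ^ 2) := by ring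
            _ ≤ fl (tr k) x * (2 * Real.sin (Real.pi * θ * x) ^ 2) := by gcongr
      _ ≤ _ := setIntegral_le_integral i3 (ae_of_all _ fun x =>
          mul_nonneg (fl_tr_nonneg hk0 x) (by positivity))
  have h10 : (4 / 5 * ε ^ 2) * (Mp T).real {x | |x| ≤ r ∧ ε ≤ |Real.sin (Real.pi * θ * x)|} ≤
      (4 / 5 * ε ^ 2) * η := by
    refine (h9.trans h8).trans ?_
    have : 5 * k ≤ 5 * (ε ^ 2 * η / 8) := by linarith
    have h11 : 0 < ε ^ 2 * η := by positivity
    linarith
  exact le_of_mul_le_mul_left h10 (by positivity)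

end Pool.Agent.Y749.AH
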