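import Pool.Agent.Y749.AH.Far2

/-! # Weak periodicity of the form factor -/

set_option autoImplicit false

open MeasureTheory Set Filter Topology

namespace Pool.Agent.Y749.AH

open Pool.Agent.Y749.Rig

variable {l : Filter ℝ} {θ : ℝ}

/-- the form factor is weakly periodic with period `θ` -/
def PerL (l : Filter ℝ) (θ : ℝ) : Prop := ∀ φ : ℝ → ℝ, Continuous φ → HasCompactSupport φ →
  Tendsto (fun T => ∫ α, φ α * (Fr T (α + θ) - Fr T α)) l (𝓝 0)

lemma qd_int_le {C T B : ℝ} {f : ℝ → ℝ} (hC : 0 ≤ C) (hBT : Bdd C (Mp T)) (hf : Continuous f)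
    (hB : ∀ x, |f x| ≤ B / (1 + x ^ 2)) : ∫ x, f x ∂(Mp T) ≤ B * (2 * C * DD 0) := by
  have hfin := Mp_fin T
  have hB0 : 0 ≤ B := by
    have := (abs_nonneg _).trans (hB 0)
    simpa using this
  have i1 : Integrable f (Mp T) := Bdd.integrable hC hBT hf ⟨B, hB⟩
  have i2 := inv_int hC hBT
  calc ∫ x, f x ∂(Mp T) ≤ ∫ x, B * (1 / (1 + x ^ 2)) ∂(Mp T) := by
        refine integral_mono i1 (i2.const_mul _) fun x => ?_
        show f x ≤ B * (1 / (1 + x ^ 2))
        rw [mul_one_div]
        exact (le_abs_self _).trans (hB x)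
    _ = B * ∫ x, 1 / (1 + x ^ 2) ∂(Mp T) := integral_const_mul _ _
    _ ≤ _ := by
        gcongr
        exact all_le hC hBT

lemma sin_small (hl : l ≤ atTop) (hP : PairL l θ) {h : ℝ} (hh : 0 < h) {ε : ℝ} (hε : 0 < ε) :
    ∀ᶠ T in l, ∫ x, fl (tr h) x * (2 * |Real.sin (Real.pi * θ * x)|) ∂(Mp T) ≤ ε := by
  obtain ⟨C, hC, hB⟩ := Mp_bdd
  have hC0 : 0 ≤ C := by linarith
  obtain ⟨B, hBf⟩ := fl_qd (adm_tr hh)
  have hB0 : 0 ≤ B := by
    have := (abs_nonneg _).trans (hBf 0)
    simpa using this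
  obtain ⟨K, hK⟩ : ∃ K : ℝ, K = B * (2 * C * DD 0) := ⟨_, rfl⟩
  have hK0 : 0 ≤ K := by
    rw [hK]
    have := DD_nonneg 0
    positivity
  obtain ⟨τ, hτ⟩ : ∃ τ : ℝ, τ = ε / (2 * (K + 1)) := ⟨_, rfl⟩
  have hτ0 : 0 < τ := by rw [hτ]; positivity
  have hτK : τ * K ≤ ε / 2 := by
    have : τ * (2 * (K + 1)) = ε := by rw [hτ]; field_simp
    nlinarith
  have hfc : Continuous (fl (tr h)) := fl_cont (tr_int hh)
  filter_upwards [hl hB, pair_test hl hP hfc (fl_qd (adm_tr hh)) (show 0 < τ * ε by positivity)]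
    with T hBT h1
  have hfin := Mp_fin T
  have h2 := qd_int_le hC0 hBT hfc hBf
  rw [← hK] at h2
  have i1 : Integrable (fl (tr h)) (Mp T) := Bdd.integrable hC0 hBT hfc ⟨B, hBf⟩
  have i2 : Integrable (fun x => |fl (tr h) x| * (2 * Real.sin (Real.pi * θ * x) ^ 2)) (Mp T) := by
    refine i1.abs.mul_bdd (c := 2) (by fun_prop) (ae_of_all _ fun x => ?_)
    rw [Real.norm_eq_abs, abs_of_nonneg (by positivity)]
    linarith [Real.sin_sq_le_one (Real.pi * θ * x)]
  have i3 : Integrable (fun x => fl (tr h) x * (2 * |Real.sin (Real.pi * θ * x)|)) (Mp T) := by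
    refine i1.mul_bdd (c := 2) (by fun_prop) (ae_of_all _ fun x => ?_)
    rw [Real.norm_eq_abs, abs_of_nonneg (by positivity)]
    linarith [Real.abs_sin_le_one (Real.pi * θ * x)]
  have h3 : ∫ x, fl (tr h) x * (2 * |Real.sin (Real.pi * θ * x)|) ∂(Mp T) ≤
      ∫ x, (τ * fl (tr h) x + (1 / (2 * τ)) * (|fl (tr h) x| *
        (2 * Real.sin (Real.pi * θ * x) ^ 2))) ∂(Mp T) := by
    refine integral_mono i3 ((i1.const_mul _).add (i2.const_mul _)) fun x => ?_
    show fl (tr h) x * (2 * |Real.sin (Real.pi * θ * x)|) ≤ τ * fl (tr h) x + (1 / (2 * τ)) *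
      (|fl (tr h) x| * (2 * Real.sin (Real.pi * θ * x) ^ 2))
    have p0 := fl_tr_nonneg hh x
    rw [abs_of_nonneg p0, ← sq_abs (Real.sin (Real.pi * θ * x))]
    have p1 : 2 * |Real.sin (Real.pi * θ * x)| ≤ τ + 1 / τ * |Real.sin (Real.pi * θ * x)| ^ 2 := by
      have e : τ + 1 / τ * |Real.sin (Real.pi * θ * x)| ^ 2 - 2 * |Real.sin (Real.pi * θ * x)| =
          (1 / τ) * (τ - |Real.sin (Real.pi * θ * x)|) ^ 2 := by
        field_simp
        ring
      have : 0 ≤ (1 / τ) * (τ - |Real.sin (Real.pi * θ * x)|) ^ 2 := by positivity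
      linarith
    calc fl (tr h) x * (2 * |Real.sin (Real.pi * θ * x)|) ≤
        fl (tr h) x * (τ + 1 / τ * |Real.sin (Real.pi * θ * x)| ^ 2) :=
          mul_le_mul_of_nonneg_left p1 p0
      _ = _ := by
        field_simp
  rw [integral_add (i1.const_mul _) (i2.const_mul _), integral_const_mul, integral_const_mul] at h3
  have h4 : 1 / (2 * τ) * ∫ x, |fl (tr h) x| * (2 * Real.sin (Real.pi * θ * x) ^ 2) ∂(Mp T) ≤
      1 / (2 * τ) * (τ * ε) := by gcongr
  have h5 : 1 / (2 * τ) * (τ * ε) = ε / 2 := by field_simp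
  have h6 : τ * ∫ x, fl (tr h) x ∂(Mp T) ≤ τ * K := by gcongr
  linarith

/-- the pairing with shifted tents -/
lemma tent_pair {h : ℝ} (hh : 0 < h) (T c : ℝ) :
    ∫ α, tr h (α - c) * Fr T α = ∫ x, fl (tr h) x * Real.cos (2 * Real.pi * c * x) *
      ww (2 * Real.pi * x / Real.log T) ∂(Mp T) := by
  rw [← modu_pair (adm_tr hh), Fr_pair (adm_modu (adm_tr hh) c).int]
  refine integral_congr_ae (ae_of_all _ fun x => ?_)
  show fl (modu c (tr h)) x * ww (2 * Real.pi * x / Real.log T) = _
  rw [fl_modu (adm_tr hh)]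

lemma tent_diff {C T h : ℝ} (hC : 0 ≤ C) (hBT : Bdd C (Mp T)) (hh : 0 < h) (c : ℝ) :
    |∫ α, tr h (α - c) * (Fr T (α + θ) - Fr T α)| ≤
      ∫ x, fl (tr h) x * (2 * |Real.sin (Real.pi * θ * x)|) ∂(Mp T) := by
  have hfin := Mp_fin T
  have hFc := Fr_cont T
  have htc := tr_cont h
  have hwc := ww_cont
  have hfc : Continuous (fl (tr h)) := fl_cont (tr_int hh)
  have i1 : Integrable (fl (tr h)) (Mp T) := Bdd.integrable hC hBT hfc (fl_qd (adm_tr hh))
  have hcs : HasCompactSupport fun α => tr h (α - c) :=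
    (adm_tr hh).hcs.comp_homeomorph (Homeomorph.subRight c)
  have j1 : Integrable fun α => tr h (α - c) * Fr T (α + θ) :=
    Continuous.integrable_of_hasCompactSupport (by fun_prop) hcs.mul_right
  have j2 : Integrable fun α => tr h (α - c) * Fr T α :=
    Continuous.integrable_of_hasCompactSupport (by fun_prop) hcs.mul_right
  have e1 : ∫ α, tr h (α - c) * Fr T (α + θ) = ∫ α, tr h (α - (c + θ)) * Fr T α := by
    rw [← integral_sub_right_eq_self (fun α => tr h (α - c) * Fr T (α + θ)) θ]
    refine integral_congr_ae (ae_of_all _ fun α => ?_)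
    show tr h (α - θ - c) * Fr T (α - θ + θ) = _
    rw [sub_add_cancel, show α - θ - c = α - (c + θ) by ring]
  have i2 : ∀ b : ℝ, Integrable (fun x => fl (tr h) x * Real.cos (2 * Real.pi * b * x) *
      ww (2 * Real.pi * x / Real.log T)) (Mp T) := by
    intro b
    have k1 : Integrable (fun x => fl (tr h) x * Real.cos (2 * Real.pi * b * x)) (Mp T) := by
      refine i1.mul_bdd (c := 1) (by fun_prop) (ae_of_all _ fun x => ?_)
      rw [Real.norm_eq_abs]
      exact Real.abs_cos_le_one _
    refine k1.mul_bdd (c := 1) (by fun_prop) (ae_of_all _ fun x => ?_)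
    rw [Real.norm_eq_abs, abs_of_pos (ww_pos _)]
    exact ww_le _
  have i3 : Integrable (fun x => fl (tr h) x * (2 * |Real.sin (Real.pi * θ * x)|)) (Mp T) := by
    refine i1.mul_bdd (c := 2) (by fun_prop) (ae_of_all _ fun x => ?_)
    rw [Real.norm_eq_abs, abs_of_nonneg (by positivity)]
    linarith [Real.abs_sin_le_one (Real.pi * θ * x)]
  have e2 : ∫ α, tr h (α - c) * (Fr T (α + θ) - Fr T α) =
      ∫ x, (fl (tr h) x * Real.cos (2 * Real.pi * (c + θ) * x) *
        ww (2 * Real.pi * x / Real.log T) - fl (tr h) x * Real.cos (2 * Real.pi * c * x) *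
        ww (2 * Real.pi * x / Real.log T)) ∂(Mp T) := by
    simp_rw [mul_sub]
    rw [integral_sub j1 j2, integral_sub (i2 _) (i2 _), e1, tent_pair hh, tent_pair hh]
  rw [e2, ← Real.norm_eq_abs]
  refine norm_integral_le_of_norm_le i3 (ae_of_all _ fun x => ?_)
  rw [Real.norm_eq_abs]
  have e3 : fl (tr h) x * Real.cos (2 * Real.pi * (c + θ) * x) *
        ww (2 * Real.pi * x / Real.log T) - fl (tr h) x * Real.cos (2 * Real.pi * c * x) *
        ww (2 * Real.pi * x / Real.log T) = fl (tr h) x *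
      (Real.cos (2 * Real.pi * (c + θ) * x) - Real.cos (2 * Real.pi * c * x)) *
        ww (2 * Real.pi * x / Real.log T) := by ring
  have p0 := fl_tr_nonneg hh x
  rw [e3, abs_mul, abs_mul, abs_of_nonneg p0, abs_of_pos (ww_pos _), Real.cos_sub_cos,
    show (2 * Real.pi * (c + θ) * x - 2 * Real.pi * c * x) / 2 = Real.pi * θ * x by ring, abs_mul,
    abs_mul, abs_neg, abs_two]
  have p1 := Real.abs_sin_le_one ((2 * Real.pi * (c + θ) * x + 2 * Real.pi * c * x) / 2)
  have p2 := ww_le (2 * Real.pi * x / Real.log T)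
  have p3 := ww_pos (2 * Real.pi * x / Real.log T)
  calc fl (tr h) x * (2 * |Real.sin ((2 * Real.pi * (c + θ) * x + 2 * Real.pi * c * x) / 2)| *
        |Real.sin (Real.pi * θ * x)|) * ww (2 * Real.pi * x / Real.log T) ≤
      fl (tr h) x * (2 * 1 * |Real.sin (Real.pi * θ * x)|) * 1 := by gcongr
    _ = _ := by ring

/-- the masses of the form factor are bounded -/
lemma mass_bdd {A : ℝ} (hA : 0 < A) : ∃ K : ℝ, 0 ≤ K ∧ ∀ᶠ T in atTop,
    ∫ α in (-A)..A, Fr T α ≤ K := by
  obtain ⟨C, hC, hB⟩ := Mp_bdd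
  have hC0 : 0 ≤ C := by linarith
  have hh : 0 < 2 * A := by positivity
  obtain ⟨B, hBf⟩ := fl_qd (adm_tr hh)
  have hB0 : 0 ≤ B := by
    have := (abs_nonneg _).trans (hBf 0)
    simpa using this
  have hD := DD_nonneg 0
  refine ⟨4 * A * (B * (2 * C * DD 0)), by positivity, ?_⟩
  filter_upwards [hB, eventually_ge_atTop 10] with T hBT hT
  have hfin := Mp_fin T
  have hfc : Continuous (fl (tr (2 * A))) := fl_cont (tr_int hh)
  have hwc := ww_cont
  have h1 := tent_low (θ := 0) (T := T) hh hA (by linarith) hT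
  rw [zero_sub, zero_add, tent_pair hh] at h1
  have h2 : ∫ x, fl (tr (2 * A)) x * Real.cos (2 * Real.pi * 0 * x) *
      ww (2 * Real.pi * x / Real.log T) ∂(Mp T) ≤ B * (2 * C * DD 0) := by
    refine qd_int_le hC0 hBT (by fun_prop) fun x => ?_
    refine le_trans ?_ (hBf x)
    rw [abs_mul, abs_mul, abs_of_pos (ww_pos _)]
    have p1 := Real.abs_cos_le_one (2 * Real.pi * 0 * x)
    have p2 := ww_le (2 * Real.pi * x / Real.log T)
    have p3 := ww_pos (2 * Real.pi * x / Real.log T)
    calc |fl (tr (2 * A)) x| * |Real.cos (2 * Real.pi * 0 * x)| *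
          ww (2 * Real.pi * x / Real.log T) ≤ |fl (tr (2 * A)) x| * 1 * 1 := by gcongr
      _ = _ := by ring
  have h3 : (1 - A / (2 * A)) / (2 * A) = 1 / (4 * A) := by
    field_simp
    norm_num
  rw [h3] at h1
  have h4 : 4 * A * (1 / (4 * A) * ∫ α in (-A)..A, Fr T α) ≤ 4 * A * (B * (2 * C * DD 0)) :=
    mul_le_mul_of_nonneg_left (h1.trans h2) (by positivity)
  have h5 : 4 * A * (1 / (4 * A) * ∫ α in (-A)..A, Fr T α) = ∫ α in (-A)..A, Fr T α := by
    field_simp
  linarith

/-- **weak periodicity** -/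
theorem pair_per (hl : l ≤ atTop) (hP : PairL l θ) : PerL l θ := by
  intro φ hφ hφc
  rw [Metric.tendsto_nhds]
  intro ε hε
  obtain ⟨C, hC, hB⟩ := Mp_bdd
  have hC0 : 0 ≤ C := by linarith
  -- the support
  obtain ⟨A, hA1, hA⟩ : ∃ A : ℝ, 1 ≤ A ∧ ∀ x, A < |x| → φ x = 0 := by
    obtain ⟨A, hA⟩ := hφc.isCompact.isBounded.subset_closedBall 0
    refine ⟨max A 1, le_max_right _ _, fun x hx => ?_⟩
    by_contra h0
    have h1 : x ∈ tsupport φ := subset_tsupport φ h0
    have h2 := hA h1
    rw [mem_closedBall_zero_iff, Real.norm_eq_abs] at h2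
    linarith [le_max_left A 1]
  obtain ⟨K, hK0, hK⟩ := mass_bdd (show 0 < A + 1 + |θ| by positivity)
  obtain ⟨τ, hτ⟩ : ∃ τ : ℝ, τ = ε / (4 * (2 * K + 1)) := ⟨_, rfl⟩
  have hτ0 : 0 < τ := by rw [hτ]; positivity
  have hτK : τ * (2 * K) ≤ ε / 4 := by
    have : τ * (4 * (2 * K + 1)) = ε := by rw [hτ]; field_simp
    nlinarith
  -- uniform continuity
  obtain ⟨h, hh0, hh1, hh⟩ : ∃ h : ℝ, 0 < h ∧ h ≤ 1 ∧ ∀ x y, |x - y| < h → |φ x - φ y| ≤ τ := by
    have huc := hφc.uniformContinuous_of_continuous hφ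
    rw [Metric.uniformContinuous_iff] at huc
    obtain ⟨δ, hδ, hδ2⟩ := huc τ hτ0
    refine ⟨min δ 1, lt_min hδ one_pos, min_le_right _ _, fun x y hxy => ?_⟩
    have := hδ2 (a := x) (b := y) (by rw [Real.dist_eq]; exact hxy.trans_le (min_le_left _ _))
    rw [Real.dist_eq] at this
    exact this.le
  have htc := tr_cont h
  have hφi : Integrable φ := hφ.integrable_of_hasCompactSupport hφc
  obtain ⟨N1, hN1⟩ : ∃ N1 : ℝ, N1 = ∫ c, |φ c| := ⟨_, rfl⟩
  have hN0 : 0 ≤ N1 := by rw [hN1]; exact integral_nonneg fun c => abs_nonneg _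
  obtain ⟨ψ, hψ⟩ : ∃ ψ : ℝ → ℝ, ∀ α, ψ α = ∫ c, φ c * tr h (α - c) := ⟨_, fun α => rfl⟩
  have hint : ∀ α, Integrable fun c => φ c * tr h (α - c) := fun α =>
    Continuous.integrable_of_hasCompactSupport (by fun_prop) hφc.mul_right
  have hone : ∀ α, ∫ c, tr h (α - c) = 1 := by
    intro α
    rw [integral_sub_left_eq_self (fun c => tr h c) volume α]
    exact int_tr hh0
  have hti : ∀ α, Integrable fun c => tr h (α - c) := by
    intro α
    exact (tr_int hh0).comp_sub_left α
  have hψφ : ∀ α, |φ α - ψ α| ≤ τ := by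
    intro α
    have e1 : φ α - ψ α = ∫ c, (φ α - φ c) * tr h (α - c) := by
      have e2 : ∀ c, (φ α - φ c) * tr h (α - c) = φ α * tr h (α - c) - φ c * tr h (α - c) := by
        intro c; ring
      simp_rw [e2]
      rw [integral_sub ((hti α).const_mul _) (hint α), integral_const_mul, hone, mul_one, hψ]
    rw [e1, ← Real.norm_eq_abs]
    have e3 : τ = ∫ c, τ * tr h (α - c) := by
      rw [integral_const_mul, hone, mul_one]
    rw [e3]
    refine norm_integral_le_of_norm_le ((hti α).const_mul _) (ae_of_all _ fun c => ?_)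
    rw [norm_mul, Real.norm_eq_abs, Real.norm_eq_abs, abs_of_nonneg (tr_nonneg hh0 _)]
    rcases le_or_gt h |α - c| with g | g
    · rw [tr_supp hh0 _ g]
      simp
    · exact mul_le_mul_of_nonneg_right (hh α c g) (tr_nonneg hh0 _)
  have hψ0 : ∀ α, A + 1 < |α| → ψ α = 0 := by
    intro α hα
    rw [hψ]
    have : ∀ c, φ c * tr h (α - c) = 0 := by
      intro c
      rcases le_or_gt |c| A with g | g
      · rw [tr_supp hh0, mul_zero]
        have := abs_sub_abs_le_abs_sub α c
        linarith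
      · rw [hA c g, zero_mul]
    simp [this]
  have hψc : Continuous ψ := by
    have e1 : ψ = fun α => ∫ c, φ c * tr h (α - c) := funext hψ
    rw [e1]
    refine continuous_of_dominated (bound := fun c => 1 / h * |φ c|) ?_ ?_ ?_ ?_
    · intro α
      exact (hint α).aestronglyMeasurable
    · intro α
      refine ae_of_all _ fun c => ?_
      rw [norm_mul, Real.norm_eq_abs, Real.norm_eq_abs, abs_of_nonneg (tr_nonneg hh0 _), mul_comm]
      apply mul_le_mul_of_nonneg_right _ (abs_nonneg _)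
      unfold tr
      have : 0 ≤ |α - c| / h := by positivity
      apply div_le_div_of_nonneg_right _ hh0.le
      exact max_le zero_le_one (by linarith)
    · exact hφi.abs.const_mul _
    · refine ae_of_all _ fun c => ?_
      fun_prop
  filter_upwards [hl hB, hl (eventually_ge_atTop 10), hl hK,
    sin_small hl hP hh0 (show 0 < ε / (4 * (N1 + 1)) by positivity)] with T hBT hT hKT hS
  have hFc := Fr_cont T
  have hF0 := Fr_nonneg hT
  obtain ⟨G, hG⟩ : ∃ G : ℝ → ℝ, ∀ α, G α = Fr T (α + θ) - Fr T α := ⟨_, fun α => rfl⟩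
  have hGc : Continuous G := by
    have : G = fun α => Fr T (α + θ) - Fr T α := funext hG
    rw [this]
    fun_prop
  have e0 : ∀ α, φ α * (Fr T (α + θ) - Fr T α) = φ α * G α := fun α => by rw [hG]
  simp_rw [e0]
  rw [Real.dist_eq, sub_zero]
  have hψcs : HasCompactSupport ψ := HasCompactSupport.intro (isCompact_Icc (a := -(A + 1))
    (b := A + 1)) (by
      intro x hx
      apply hψ0
      by_contra hcon
      push Not at hcon
      exact hx (abs_le.1 hcon))
  have iφ : Integrable fun α => φ α * G α :=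
    Continuous.integrable_of_hasCompactSupport (by fun_prop) hφc.mul_right
  have iψ : Integrable fun α => ψ α * G α :=
    Continuous.integrable_of_hasCompactSupport (by fun_prop) hψcs.mul_right
  -- the smoothed part
  have h1 : |∫ α, ψ α * G α| ≤ ε / 4 := by
    have e1 : ∫ α, ψ α * G α = ∫ c, φ c * ∫ α, tr h (α - c) * G α := by
      have e2 : ∀ α, ψ α * G α = ∫ c, φ c * tr h (α - c) * G α := by
        intro α
        rw [integral_mul_const, hψ]
      simp_rw [e2]
      rw [integral_integral_swap]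
      · refine integral_congr_ae (ae_of_all _ fun c => ?_)
        show ∫ α, φ c * tr h (α - c) * G α = φ c * ∫ α, tr h (α - c) * G α
        rw [← integral_const_mul]
        refine integral_congr_ae (ae_of_all _ fun α => ?_)
        show φ c * tr h (α - c) * G α = φ c * (tr h (α - c) * G α)
        ring
      · refine Continuous.integrable_of_hasCompactSupport ?_ ?_
        · show Continuous fun p : ℝ × ℝ => φ p.2 * tr h (p.1 - p.2) * G p.1
          fun_prop
        · refine HasCompactSupport.intro ((isCompact_Icc (a := -(A + 1)) (b := A + 1)).prod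
            (isCompact_Icc (a := -A) (b := A))) ?_
          rintro ⟨α, c⟩ hx
          show φ c * tr h (α - c) * G α = 0
          rcases le_or_gt |c| A with g | g
          · have g2 : h ≤ |α - c| := by
              by_contra hcon
              push Not at hcon
              apply hx
              rw [abs_lt] at hcon
              rw [abs_le] at g
              exact ⟨⟨by linarith [hcon.1, g.1], by linarith [hcon.2, g.2]⟩, g⟩
            rw [tr_supp hh0 _ g2]
            ring
          · rw [hA c g]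
            ring
    rw [e1, ← Real.norm_eq_abs]
    have e3 : ε / (4 * (N1 + 1)) * N1 ≤ ε / 4 := by
      rw [div_mul_eq_mul_div, div_le_div_iff₀ (by positivity) (by norm_num)]
      nlinarith
    refine le_trans ?_ e3
    rw [hN1, ← integral_const_mul]
    refine norm_integral_le_of_norm_le (hφi.abs.const_mul _) (ae_of_all _ fun c => ?_)
    rw [norm_mul, Real.norm_eq_abs, Real.norm_eq_abs, mul_comm]
    apply mul_le_mul_of_nonneg_right _ (abs_nonneg _)
    have k1 := tent_diff (θ := θ) hC0 hBT hh0 c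
    have k2 : ∫ α, tr h (α - c) * (Fr T (α + θ) - Fr T α) = ∫ α, tr h (α - c) * G α := by
      simp_rw [hG]
    rw [k2] at k1
    rw [← hN1]
    exact k1.trans hS
  -- the error
  have h2 : |∫ α, (φ α * G α - ψ α * G α)| ≤ ε / 4 := by
    have hA' : -(A + 1) ≤ A + 1 := by linarith
    have hb : |∫ α, (φ α * G α - ψ α * G α)| ≤
        ∫ α, (Icc (-(A + 1)) (A + 1)).indicator (fun α => τ * (Fr T (α + θ) + Fr T α)) α := by
      rw [← Real.norm_eq_abs]
      refine norm_integral_le_of_norm_le ?_ (ae_of_all _ fun α => ?_)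
      · rw [integrable_indicator_iff measurableSet_Icc]
        have : Continuous fun α => τ * (Fr T (α + θ) + Fr T α) := by fun_prop
        exact this.continuousOn.integrableOn_Icc
      · rw [Real.norm_eq_abs]
        by_cases hα : α ∈ Icc (-(A + 1)) (A + 1)
        · rw [indicator_of_mem hα, ← sub_mul, abs_mul]
          have k1 : |G α| ≤ Fr T (α + θ) + Fr T α := by
            rw [hG]
            refine (abs_sub _ _).trans ?_
            rw [abs_of_nonneg (hF0 _), abs_of_nonneg (hF0 _)]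
          exact mul_le_mul (hψφ α) k1 (abs_nonneg _) hτ0.le
        · rw [indicator_of_notMem hα]
          have g : A + 1 < |α| := by
            by_contra hcon
            push Not at hcon
            exact hα (abs_le.1 hcon)
          rw [hA α (by linarith), hψ0 α g]
          simp
    refine hb.trans ?_
    rw [integral_indicator measurableSet_Icc, integral_const_mul]
    have c1 : Continuous fun α => Fr T (α + θ) := by fun_prop
    have k1 : ∫ α in Icc (-(A + 1)) (A + 1), (Fr T (α + θ) + Fr T α) ≤ K + K := by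
      rw [integral_add c1.continuousOn.integrableOn_Icc hFc.continuousOn.integrableOn_Icc]
      have k2 : ∀ a b : ℝ, -(A + 1 + |θ|) ≤ a → a ≤ b → b ≤ A + 1 + |θ| →
          ∫ α in a..b, Fr T α ≤ K := by
        intro a b g1 g2 g3
        refine le_trans ?_ hKT
        apply intervalIntegral.integral_mono_interval g1 g2 g3
        · exact ae_of_all _ fun α => hF0 α
        · exact hFc.intervalIntegrable _ _
      have hab := abs_le.1 (le_refl |θ|)
      have k3 : ∫ α in Icc (-(A + 1)) (A + 1), Fr T (α + θ) ≤ K := by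
        rw [integral_Icc_eq_integral_Ioc, ← intervalIntegral.integral_of_le hA',
          intervalIntegral.integral_comp_add_right (fun α => Fr T α) θ]
        exact k2 _ _ (by linarith [hab.1]) (by linarith) (by linarith [hab.2])
      have k4 : ∫ α in Icc (-(A + 1)) (A + 1), Fr T α ≤ K := by
        rw [integral_Icc_eq_integral_Ioc, ← intervalIntegral.integral_of_le hA']
        have := abs_nonneg θ
        exact k2 _ _ (by linarith) (by linarith) (by linarith)
      linarith
    have k5 : τ * ∫ α in Icc (-(A + 1)) (A + 1), (Fr T (α + θ) + Fr T α) ≤ τ * (K + K) := by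
      gcongr
    have k6 : τ * (K + K) = τ * (2 * K) := by ring
    linarith
  rw [integral_sub iφ iψ] at h2
  have h3 := abs_add_le ((∫ α, φ α * G α) - ∫ α, ψ α * G α) (∫ α, ψ α * G α)
  rw [sub_add_cancel] at h3
  linarith

/-- weak periodicity gives the mass -/
theorem per_mass (RH : RiemannHypothesis) (hl : l ≤ atTop) (h : PerL l θ) : MassL l θ := by
  intro δ η hδ hη
  obtain ⟨k, hk⟩ : ∃ k : ℝ, k = min (1 / 2) δ := ⟨_, rfl⟩
  have hk0 : 0 < k := by rw [hk]; exact lt_min (by norm_num) hδ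
  have hk1 : k ≤ 1 / 2 := by rw [hk]; exact min_le_left _ _
  have hkδ : k ≤ δ := by rw [hk]; exact min_le_right _ _
  have t1 := (Fr_lim (tr_int hk0) (fl_qd (adm_tr hk0)) le_rfl
    (test_limRH RH (adm_tr hk0) hk0 (by linarith))).mono_left hl
  have t2 := h (tr k) (tr_cont k) (adm_tr hk0).hcs
  have hcc := (cc_tr_le hk0).2
  filter_upwards [t1.eventually (le_mem_nhds (show cc (tr k) - η / 2 < cc (tr k) by linarith)),
    t2.eventually (le_mem_nhds (show -(η / 2) < 0 by linarith)),
    hl (eventually_ge_atTop 10)] with T h1 h2 h4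
  have hFc := Fr_cont T
  have htc := tr_cont k
  have j1 : Integrable fun α => tr k α * Fr T (α + θ) :=
    Continuous.integrable_of_hasCompactSupport (by fun_prop) (adm_tr hk0).hcs.mul_right
  have j2 : Integrable fun α => tr k α * Fr T α := trFr_int hk0 T
  simp_rw [mul_sub] at h2
  rw [integral_sub j1 j2] at h2
  have e1 : ∫ α, tr k α * Fr T (α + θ) = ∫ α, tr k (α - θ) * Fr T α := by
    rw [← integral_sub_right_eq_self (fun α => tr k α * Fr T (α + θ)) θ]
    refine integral_congr_ae (ae_of_all _ fun α => ?_)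
    show tr k (α - θ) * Fr T (α - θ + θ) = _
    rw [sub_add_cancel]
  rw [e1] at h2
  have h6 : 1 / k - η ≤ ∫ α, tr k (α - θ) * Fr T α := by linarith
  have h7 := tent_up (θ := θ) hk0 h4
  have h8 : k * (1 / k - η) ≤ k * ∫ α, tr k (α - θ) * Fr T α := by gcongr
  have h9 : k * (1 / k - η) = 1 - k * η := by field_simp
  have h10 : ∫ α in (θ - k)..(θ + k), Fr T α ≤ ∫ α in (θ - δ)..(θ + δ), Fr T α := by
    apply intervalIntegral.integral_mono_interval (by linarith) (by linarith) (by linarith)
    · exact ae_of_all _ fun α => Fr_nonneg h4 α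
    · exact hFc.intervalIntegrable _ _
  have h11 : k * η ≤ η := by nlinarith
  linarith

end Pool.Agent.Y749.AH
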